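import Pool.Agent.Qmul.Def

/-!
# Existence of the weight function (helper60)  (module)

COMPLETE PAPER PROOF.  For every integer `q` there is `x ∈ S` with `m ∣ x - q`: the complement of `S` is finite, so there is
`n` with `x ∈ S` for all `x > n`, and `x = ((q % m) + m (n + 1))` (as a natural number, `Int.toNat`) is `> n`.
Let `W q` be the least natural number `x ∈ S` with `(m : ℤ) ∣ x - q` (`Nat.find`, classical), as an integer.
* `zero`: `0 ∈ S`, so `W 0 = 0`.
* `per`: `m ∣ x - (q + m) ↔ m ∣ x - q`, so the two sets agree (`le_antisymm` with `Nat.find_min'`, or congruence).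
* `pos`: `W q ≥ 0`, and `W q = 0` would give `m ∣ 0 - q`.
* `sub`: `W q + W r ∈ S` and `m ∣ (W q + W r) - (q + r)`, `Nat.find_min'`.
* `mem`: → `Nat.find_min'` (`m ∣ x - x`).  ←: `W x ≤ x`, `m ∣ x - W x`, so `x = W x + m t` with `t : ℕ`, and
  `m t ∈ S` (induction on `t`), `W x ∈ S`.
-/

set_option autoImplicit false

namespace Pool.Agent.Qmul

open Pool.Agent.Qdec (IsNS)

/-- every class modulo `m` meets `S`. -/
private theorem Apery_ex (S : Set ℕ) (hS : IsNS S) (m : ℕ) (hm : 0 < m) (q : ℤ) :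
    ∃ x : ℕ, x ∈ S ∧ (m : ℤ) ∣ (x : ℤ) - q := by
  obtain ⟨n, hn⟩ := hS.2.2.bddAbove
  have hmz : (0 : ℤ) < (m : ℤ) := by exact_mod_cast hm
  have h0 : 0 ≤ q % (m : ℤ) := Int.emod_nonneg q hmz.ne'
  have hmod : (m : ℤ) ∣ q % (m : ℤ) - q :=
    (Int.modEq_iff_dvd.1 (Int.mod_modEq q (m : ℤ)).symm)
  refine ⟨(q % (m : ℤ)).toNat + m * (n + 1), ?_, ?_⟩
  · by_contra hx
    have h1 : (q % (m : ℤ)).toNat + m * (n + 1) ≤ n := hn hx
    have h2 : 1 * (n + 1) ≤ m * (n + 1) := Nat.mul_le_mul_right _ hm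
    omega
  · push_cast
    rw [Int.toNat_of_nonneg h0]
    have : q % (m : ℤ) + (m : ℤ) * ((n : ℤ) + 1) - q = (q % (m : ℤ) - q) + (m : ℤ) * ((n : ℤ) + 1) := by
      ring
    rw [this]
    exact dvd_add hmod (dvd_mul_right _ _)

/-- multiples of an element. -/
private theorem Apery_mul (S : Set ℕ) (hS : IsNS S) (m : ℕ) (hmS : m ∈ S) (t : ℕ) : m * t ∈ S := by
  induction t with
  | zero => simpa using hS.1
  | succ t ih =>
    rw [Nat.mul_succ]
    exact hS.2.1 _ ih _ hmS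

theorem exists_weight (S : Set ℕ) (hS : IsNS S) (m : ℕ) (hm : 0 < m) (hmS : m ∈ S) :
    ∃ W : ℤ → ℤ, Weight m S W := by
  classical
  have hex := Apery_ex S hS m hm
  have hmz : (0 : ℤ) < (m : ℤ) := by exact_mod_cast hm
  obtain ⟨w, hw, hmin⟩ : ∃ w : ℤ → ℕ, (∀ q, w q ∈ S ∧ (m : ℤ) ∣ (w q : ℤ) - q) ∧
      ∀ q (x : ℕ), x ∈ S → (m : ℤ) ∣ (x : ℤ) - q → w q ≤ x :=
    ⟨fun q => Nat.find (hex q), fun q => Nat.find_spec (hex q),
      fun q x h1 h2 => Nat.find_min' (hex q) ⟨h1, h2⟩⟩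
  refine ⟨fun q => (w q : ℤ), ?_, ?_, ?_, ?_, ?_⟩
  · have h := hmin 0 0 hS.1 (by simp)
    have h' : w 0 = 0 := by omega
    simp [h']
  · intro q
    have h1 : w (q + m) ≤ w q := by
      refine hmin _ _ (hw q).1 ?_
      have : (w q : ℤ) - (q + m) = ((w q : ℤ) - q) - m := by ring
      rw [this]
      exact dvd_sub (hw q).2 dvd_rfl
    have h2 : w q ≤ w (q + m) := by
      refine hmin _ _ (hw (q + m)).1 ?_
      have : (w (q + m) : ℤ) - q = ((w (q + m) : ℤ) - (q + m)) + m := by ring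
      rw [this]
      exact dvd_add (hw (q + m)).2 dvd_rfl
    show (w (q + m) : ℤ) = w q
    exact_mod_cast le_antisymm h1 h2
  · intro q hq
    rcases Nat.eq_zero_or_pos (w q) with h | h
    · exfalso
      apply hq
      have h1 := (hw q).2
      rw [h] at h1
      simpa using h1
    · exact_mod_cast h
  · intro q r
    have h : w (q + r) ≤ w q + w r := by
      refine hmin _ _ (hS.2.1 _ (hw q).1 _ (hw r).1) ?_
      push_cast
      have : (w q : ℤ) + w r - (q + r) = ((w q : ℤ) - q) + ((w r : ℤ) - r) := by ring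
      rw [this]
      exact dvd_add (hw q).2 (hw r).2
    show (w (q + r) : ℤ) ≤ w q + w r
    exact_mod_cast h
  · intro x
    constructor
    · intro hx
      have h := hmin (x : ℤ) x hx (by simp)
      show ((w x : ℕ) : ℤ) ≤ x
      exact_mod_cast h
    · intro hx
      have hx' : w (x : ℤ) ≤ x := by
        have : ((w (x : ℤ) : ℕ) : ℤ) ≤ x := hx
        exact_mod_cast this
      obtain ⟨d, hd⟩ := Nat.exists_eq_add_of_le hx'
      have h1 : (m : ℤ) ∣ (d : ℤ) := by
        have h2 := (hw (x : ℤ)).2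
        have h3 : (w (x : ℤ) : ℤ) - (x : ℤ) = -(d : ℤ) := by
          have : (x : ℤ) = (w (x : ℤ) : ℤ) + d := by exact_mod_cast hd
          rw [← sub_eq_zero] at this ⊢
          linarith
        rw [h3] at h2
        exact (dvd_neg.1 h2)
      obtain ⟨t, ht⟩ := Int.natCast_dvd_natCast.1 h1
      rw [hd, ht]
      exact hS.2.1 _ (hw _).1 _ (Apery_mul S hS m hmS t)

end Pool.Agent.Qmul
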