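import Pool.Agent.Qmul.Data

/-!
# The certificates are checked by evaluation (helper60)
-/

set_option autoImplicit false
set_option maxRecDepth 100000

namespace Pool.Agent.Qmul

theorem check4 : check 4 (kunz 4) tree4 = true := by decide

theorem check5 : check 5 (kunz 5) tree5 = true := by decide

theorem check6 : check 6 (kunz 6) tree6 = true := by decide +kernel

end Pool.Agent.Qmul
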