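import Pool.Agent.Qmul.Lin

/-!
# The inequalities of a cone suffice (helper60)  (module)

COMPLETE PAPER PROOF.  `u = (r.p, r.q)`, `u' = (s.p, s.q)`, `ℓ i v = ev W (sel f i).fx 1 * v.1 + ev W (sel f i).fy 1 * v.2`
(linear in `v`), `D i = (sel f i).D ≥ 0`, `W v = W v.2`.  By `ev_cov`, `ev_zer` the hypothesis `hI` says:
* `r.mode = 1`: `D i W u ≤ ℓ i u`, `D i W u' ≤ ℓ i u'` with `i = r.i`.  As `W` is subadditive, `W (n x) ≤ n W x` for
  `n : ℕ` (induction; `W 0 = 0`), so `D i W (a u + b u') ≤ D i (a W u + b W u') ≤ a ℓ i u + b ℓ i u'`.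
* `r.mode = 2`: with `i = r.i`, `j = r.j`: `D i W u ≤ ℓ i u`, `0 ≤ ℓ j u`, `D j W (t u + u') ≤ ℓ j (t u + u')` for
  `t < m`.  If `b = 0` take `i`.  If `b ≥ 1` take `j`: let `t = a % m`, `a = t + m c`.
  `W (a u + b u') ≤ W (t u + u') + (b - 1) W u'` since `a u + b u' = (t u + u') + (b-1) u' + m c u` and `W` is periodic
  (`weight_mul`) and subadditive; `D j W u' ≤ ℓ j u'` (case `t = 0`, `0 < m`).  So
  `D j W (a u + b u') ≤ ℓ j (t u + u') + (b-1) ℓ j u' = ℓ j (a u + b u') - m c ℓ j u ≤ ℓ j (a u + b u')`.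
* otherwise (mode 3): the same with the roles of `u`, `u'` exchanged: `j = r.j` for the multiples of `u'` (`a = 0`), and
  `i = r.i` for `a ≥ 1`.  (It is convenient to prove a lemma with abstract numbers, for two vectors `(x, y)`, `(x', y')`
  and the form `A p + B q` with `D W (t y + y') ≤ A (t x + x') + B (t y + y')` for `t < m`, and `0 ≤ A x + B y`; it is used
  for both modes.)
-/

set_option autoImplicit false

namespace Pool.Agent.Qmul

private theorem Cone_mul {m : ℕ} {S : Set ℕ} {W : ℤ → ℤ} (h : Weight m S W) (n : ℕ) (x : ℤ) :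
    W ((n : ℤ) * x) ≤ n * W x := by
  induction n with
  | zero => simp [h.zero]
  | succ n ih =>
    have h1 := h.sub ((n : ℤ) * x) x
    rw [show ((n + 1 : ℕ) : ℤ) * x = (n : ℤ) * x + x by push_cast; ring]
    push_cast
    linarith

private theorem Cone_aux {m : ℕ} {S : Set ℕ} {W : ℤ → ℤ} (h : Weight m S W) (hm : 0 < m) {D : ℤ}
    (hD : 0 ≤ D) (A B x y x' y' : ℤ) (h0 : 0 ≤ A * x + B * y)
    (ht : ∀ t : ℕ, t < m → D * W ((t : ℤ) * y + y') ≤ A * (t * x + x') + B * (t * y + y')) (a b : ℕ)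
    (hb : 0 < b) : D * W (a * y + b * y') ≤ A * (a * x + b * x') + B * (a * y + b * y') := by
  obtain ⟨b, rfl⟩ : ∃ c, b = c + 1 := ⟨b - 1, by omega⟩
  have ha : (a : ℤ) = ((a % m : ℕ) : ℤ) + (m : ℤ) * ((a / m : ℕ) : ℤ) := by
    exact_mod_cast (Nat.mod_add_div a m).symm
  have h1 := ht (a % m) (Nat.mod_lt _ hm)
  have h2 := ht 0 hm
  have h3 : W (a * y + ((b + 1 : ℕ) : ℤ) * y') ≤ W (((a % m : ℕ) : ℤ) * y + y') + b * W y' := by
    have e : (a : ℤ) * y + ((b + 1 : ℕ) : ℤ) * y' =
        ((((a % m : ℕ) : ℤ) * y + y') + b * y') + (m : ℤ) * (((a / m : ℕ) : ℤ) * y) := by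
      rw [ha]
      push_cast
      ring
    rw [e, weight_mul h]
    have h4 := h.sub (((a % m : ℕ) : ℤ) * y + y') (b * y')
    have h5 := Cone_mul h b y'
    linarith
  have h6 : D * W y' ≤ A * x' + B * y' := by
    simpa using h2
  have h7 : (0 : ℤ) ≤ (m : ℤ) * ((a / m : ℕ) : ℤ) * (A * x + B * y) := by positivity
  have h8 := mul_le_mul_of_nonneg_left h3 hD
  have h9 : (b : ℤ) * (D * W y') ≤ b * (A * x' + B * y') :=
    mul_le_mul_of_nonneg_left h6 (Int.natCast_nonneg b)
  have e2 : A * (a * x + ((b + 1 : ℕ) : ℤ) * x') + B * (a * y + ((b + 1 : ℕ) : ℤ) * y') =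
      (A * (((a % m : ℕ) : ℤ) * x + x') + B * (((a % m : ℕ) : ℤ) * y + y')) +
        b * (A * x' + B * y') + (m : ℤ) * ((a / m : ℕ) : ℤ) * (A * x + B * y) := by
    rw [ha]
    push_cast
    ring
  rw [e2]
  nlinarith

theorem cone_good {m : ℕ} {S : Set ℕ} {W : ℤ → ℤ} (h : Weight m S W) (hm : 0 < m) (f : RF × RF × RF)
    (r s : Ray) (hI : ∀ L ∈ coneI m f r s, 0 ≤ ev W L 1) (a b : ℕ) :
    ∃ i : ℕ, ((sel f i).D : ℤ) * W (a * r.q + b * s.q) ≤
      ev W (sel f i).fx 1 * (a * r.p + b * s.p) + ev W (sel f i).fy 1 * (a * r.q + b * s.q) := by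
  have hnn : ∀ i : ℕ, (0 : ℤ) ≤ ((sel f i).D : ℤ) := fun i => Int.natCast_nonneg _
  by_cases h1 : r.mode = 1
  · have e : coneI m f r s = [cov m (sel f r.i) r.p r.q, cov m (sel f r.i) s.p s.q] := by
      unfold coneI
      rw [if_pos h1]
    rw [e] at hI
    have a1 := hI _ (List.mem_cons_self)
    have a2 := hI _ (List.mem_cons_of_mem _ (List.mem_cons_self))
    rw [ev_cov h hm] at a1 a2
    refine ⟨r.i, ?_⟩
    have w1 := Cone_mul h a r.q
    have w2 := Cone_mul h b s.q
    have w3 := h.sub ((a : ℤ) * r.q) ((b : ℤ) * s.q)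
    have w4 : W (a * r.q + b * s.q) ≤ a * W r.q + b * W s.q := by linarith
    have w5 := mul_le_mul_of_nonneg_left w4 (hnn r.i)
    have w6 := mul_nonneg (Int.natCast_nonneg a) a1
    have w7 := mul_nonneg (Int.natCast_nonneg b) a2
    nlinarith
  · by_cases h2 : r.mode = 2
    · have e : coneI m f r s = cov m (sel f r.i) r.p r.q :: zer (sel f r.j) r.p r.q ::
          (List.range m).map (fun t : ℕ => cov m (sel f r.j) ((t : ℤ) * r.p + s.p)
            ((t : ℤ) * r.q + s.q)) := by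
        unfold coneI
        rw [if_neg h1, if_pos h2, bind_pure_comp]
        show _ :: _ :: List.map _ (List.map _ (List.range m)) = _
        rw [List.map_map]
        rfl
      rw [e] at hI
      have a1 := hI _ (List.mem_cons_self)
      have a2 := hI _ (List.mem_cons_of_mem _ (List.mem_cons_self))
      have a3 : ∀ t : ℕ, t < m → 0 ≤ ev W (cov m (sel f r.j) ((t : ℤ) * r.p + s.p)
          ((t : ℤ) * r.q + s.q)) 1 := fun t ht =>
        hI _ (List.mem_cons_of_mem _ (List.mem_cons_of_mem _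
          (List.mem_map.2 ⟨t, List.mem_range.2 ht, rfl⟩)))
      rw [ev_cov h hm] at a1
      rw [ev_zer] at a2
      rcases Nat.eq_zero_or_pos b with rfl | hb
      · refine ⟨r.i, ?_⟩
        have w1 := mul_le_mul_of_nonneg_left (Cone_mul h a r.q) (hnn r.i)
        have w6 := mul_nonneg (Int.natCast_nonneg a) a1
        simp only [Nat.cast_zero, zero_mul, add_zero]
        nlinarith
      · refine ⟨r.j, ?_⟩
        refine Cone_aux h hm (hnn r.j) _ _ r.p r.q s.p s.q a2 (fun t ht => ?_) a b hb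
        have := a3 t ht
        rw [ev_cov h hm] at this
        linarith
    · have e : coneI m f r s = cov m (sel f r.j) s.p s.q :: zer (sel f r.i) s.p s.q ::
          (List.range m).map (fun t : ℕ => cov m (sel f r.i) (r.p + (t : ℤ) * s.p)
            (r.q + (t : ℤ) * s.q)) := by
        unfold coneI
        rw [if_neg h1, if_neg h2, bind_pure_comp]
        show _ :: _ :: List.map _ (List.map _ (List.range m)) = _
        rw [List.map_map]
        rfl
      rw [e] at hI
      have a1 := hI _ (List.mem_cons_self)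
      have a2 := hI _ (List.mem_cons_of_mem _ (List.mem_cons_self))
      have a3 : ∀ t : ℕ, t < m → 0 ≤ ev W (cov m (sel f r.i) (r.p + (t : ℤ) * s.p)
          (r.q + (t : ℤ) * s.q)) 1 := fun t ht =>
        hI _ (List.mem_cons_of_mem _ (List.mem_cons_of_mem _
          (List.mem_map.2 ⟨t, List.mem_range.2 ht, rfl⟩)))
      rw [ev_cov h hm] at a1
      rw [ev_zer] at a2
      rcases Nat.eq_zero_or_pos a with rfl | ha
      · refine ⟨r.j, ?_⟩
        have w1 := mul_le_mul_of_nonneg_left (Cone_mul h b s.q) (hnn r.j)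
        have w6 := mul_nonneg (Int.natCast_nonneg b) a1
        simp only [Nat.cast_zero, zero_mul, zero_add]
        nlinarith
      · refine ⟨r.i, ?_⟩
        have w := Cone_aux h hm (hnn r.i) (ev W (sel f r.i).fx 1) (ev W (sel f r.i).fy 1)
          s.p s.q r.p r.q a2 (fun t ht => ?_) b a ha
        · rw [add_comm ((a : ℤ) * r.p), add_comm ((a : ℤ) * r.q)]
          exact w
        · have := a3 t ht
          rw [ev_cov h hm] at this
          rw [add_comm ((t : ℤ) * s.q), add_comm ((t : ℤ) * s.p)]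
          linarith

end Pool.Agent.Qmul
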