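import Pool.Agent.Qmul.Def

/-!
# The certificates for multiplicities four, five and six (helper60)

The data were found by computer (cones over the Kunz polyhedron, exact Farkas certificates) and are checked by `decide`.
-/

set_option autoImplicit false
set_option maxRecDepth 100000

namespace Pool.Agent.Qmul

/-- the decision tree for multiplicity four. -/
def tree4 : Tree :=
  .branch [-1, 2, -1]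
   (
   .leaf (⟨[-5, 0, -1], [-3, 0, -1], 2⟩, ⟨[0, -1, 2], [0, -1, 1], 1⟩, ⟨[0, 0, 0], [1, 0, 0], 1⟩)
     [(0, 1), (1, -2), (1, -1)]
     [⟨0, -1, 3, 0, 1⟩, ⟨1, -2, 1, 1, 1⟩, ⟨1, -1, 1, 1, 1⟩, ⟨1, 0, 1, 2, 2⟩, ⟨-1, 1, 1, 0, 0⟩]
     [(1, []), (1, [(0, 1), (2, 1)]), (1, [(3, 1), (4, 1)]), (1, [(0, 2), (2, 2)]), (1, [(0, 5), (2, 1)]), (1, [(0, 4), (2, 4)]), (1, []), (1, []), (1, []), (1, [(11, 1)]), (1, []), (1, []), (1, []), (1, [(3, 1), (4, 1)]), (1, [(0, 5), (2, 1)]), (1, [(4, 1)]), (1, []), (1, [(12, 1)]), (1, []), (1, [(0, 2), (1, 1)]), (1, [(0, 2), (2, 2)]), (1, []), (1, [(0, 1), (2, 1)])])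
   (
   .leaf (⟨[0, 0, 4], [0, 0, -1], 1⟩, ⟨[6, -5, 0], [-1, 1, 0], 1⟩, ⟨[0, -5, -6], [0, 1, 1], 1⟩)
     [(1, 5), (1, 6), (0, -1)]
     [⟨0, -1, 1, 0, 0⟩, ⟨1, 4, 1, 1, 1⟩, ⟨1, 5, 1, 1, 1⟩, ⟨1, 6, 1, 2, 2⟩, ⟨-1, -5, 1, 0, 0⟩]
     [(1, []), (1, []), (1, [(3, 1)]), (1, []), (1, []), (1, []), (1, []), (1, []), (1, []), (1, []), (1, [(0, 1), (2, 1)]), (1, []), (1, [(0, 1), (2, 1)]), (1, [(1, 1), (2, 2)]), (1, []), (1, []), (1, []), (1, [(8, 1)]), (1, [(1, 1), (2, 2)])])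

/-- the decision tree for multiplicity five. -/
def tree5 : Tree :=
  .leaf (⟨[0, 0, 0, 0], [0, 0, 0, -2], 2⟩, ⟨[0, 1, 0, 2], [0, 0, 0, -1], 1⟩, ⟨[-3, 0, 1, 0], [1, 0, 0, 0], 1⟩)
    [(0, 1), (1, 2), (1, 3), (0, -1)]
    [⟨0, -1, 1, 1, 1⟩, ⟨1, 2, 1, 1, 1⟩, ⟨2, 5, 1, 2, 2⟩, ⟨1, 3, 1, 2, 2⟩, ⟨0, 1, 1, 2, 2⟩, ⟨-1, 0, 1, 0, 0⟩]
    [(1, []), (1, []), (1, []), (1, [(9, 1)]), (1, [(14, 1)]), (1, []), (1, []), (1, []), (1, []), (1, [(4, 1), (5, 1)]), (1, []), (1, []), (1, [(0, 2), (3, 2)]), (1, [(0, 1), (3, 1)]), (1, []), (1, [(1, 2), (3, 4)]), (1, []), (1, [(5, 1)]), (1, [(2, 2), (3, 6)]), (1, [(15, 1)]), (1, []), (1, []), (1, []), (1, [(0, 1), (3, 1)])]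

/-- the decision tree for multiplicity six. -/
def tree6 : Tree :=
  .branch [-2, 3, 0, -1, 0]
   (
   .branch [0, -1, 0, 3, -2]
    (
    .branch [0, 1, -2, 1, 0]
     (
     .leaf (⟨[3, 0, 1, 0, 0], [-2, 0, -1, 0, 0], 1⟩, ⟨[0, -4, 0, 2, 0], [0, 3, 0, -1, 0], 2⟩, ⟨[0, 0, 1, 0, -3], [0, 0, -1, 0, 2], 1⟩)
       [(1, 1), (1, 2), (-2, -3), (3, 4), (-1, -1)]
       [⟨0, -1, 1, 0, 0⟩, ⟨1, 1, 1, 0, 0⟩, ⟨5, 6, 1, 1, 1⟩, ⟨4, 5, 1, 1, 1⟩, ⟨3, 4, 1, 1, 1⟩, ⟨2, 3, 1, 1, 1⟩, ⟨1, 2, 1, 1, 1⟩, ⟨0, 1, 1, 1, 1⟩, ⟨-1, 0, 1, 2, 2⟩, ⟨-1, -1, 1, 2, 2⟩, ⟨-2, -3, 1, 0, 0⟩, ⟨-1, -2, 1, 0, 0⟩]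
       [(1, [(7, 1), (8, 1)]), (1, []), (1, []), (1, [(5, 1), (6, 1)]), (1, [(23, 2)]), (1, [(31, 1)]), (1, [(31, 1)]), (1, []), (1, []), (1, [(32, 1)]), (1, [(32, 1)]), (1, []), (1, []), (1, [(30, 1)]), (1, [(30, 1)]), (1, [(11, 2)]), (1, [(24, 1), (29, 1)]), (1, []), (1, []), (1, []), (1, []), (1, [(7, 1)]), (1, [(7, 1)]), (1, [(7, 1), (8, 1)]), (1, []), (1, [(6, 1), (7, 1)]), (1, [(0, 1), (4, 1)]), (1, [(0, 1), (1, 1), (2, 1)]), (1, []), (1, [(12, 1)]), (1, []), (1, [(1, 1), (2, 2), (3, 1)]), (1, []), (1, [(18, 1)]), (1, []), (1, [(2, 1), (3, 1), (4, 1)]), (1, [(0, 1), (4, 1)]), (1, [(19, 1), (24, 1)]), (1, [])])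
     (
     .branch [1, -2, 1, 0, 0]
      (
      .leaf (⟨[0, 0, 0, 1, -2], [0, 0, 0, 0, -1], 1⟩, ⟨[0, 0, 2, 3, 0], [0, 0, 1, 1, 0], 1⟩, ⟨[-2, 1, 0, 0, 0], [-1, 1, 0, 0, 0], 1⟩)
        [(-1, 1), (-1, 2), (-1, 3), (1, -2), (0, -1)]
        [⟨0, -1, 1, 0, 0⟩, ⟨1, -2, 1, 1, 1⟩, ⟨-1, 3, 2, 1, 2⟩, ⟨-1, 2, 1, 2, 2⟩, ⟨-1, 1, 1, 2, 2⟩, ⟨-1, 0, 1, 0, 0⟩]
        [(1, []), (1, []), (1, []), (1, []), (1, []), (2, [(1, 1), (3, 1), (30, 1)]), (1, []), (1, [(8, 1), (30, 1)]), (1, [(1, 1), (3, 1), (30, 1)]), (2, [(3, 3), (6, 1), (8, 1), (12, 1), (30, 4)]), (1, [(1, 2), (3, 2), (30, 2)]), (1, [(3, 3), (6, 1), (12, 1), (30, 3)]), (1, []), (1, []), (1, []), (1, [(5, 1)]), (1, [(29, 1)]), (1, []), (1, [(8, 1)]), (1, [(0, 1), (2, 1), (3, 2)]), (1, []), (1, [(1, 1), (3, 1)]), (1, [(1, 1), (3,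 1)]), (1, []), (1, [(2, 1), (3, 1), (4, 1)]), (1, []), (1, [(33, 1)]), (1, []), (1, []), (1, [(1, 1), (3, 1)]), (1, []), (1, [(2, 1), (3, 1), (4, 1)]), (1, [(14, 1)])])
      (
      .leaf (⟨[0, 0, 1, 0, -3], [0, 0, 0, 0, -1], 1⟩, ⟨[2, 0, 0, 1, 0], [1, 0, 0, 0, 0], 1⟩, ⟨[-2, 1, 0, 0, 0], [-1, 1, 0, 0, 0], 1⟩)
        [(0, 1), (-1, 2), (1, -3), (1, -2), (0, -1)]
        [⟨0, -1, 1, 0, 0⟩, ⟨1, -3, 1, 0, 0⟩, ⟨2, -5, 1, 0, 0⟩, ⟨5, -12, 1, 1, 1⟩, ⟨3, -7, 1, 1, 1⟩, ⟨1, -2, 1, 1, 1⟩, ⟨0, 1, 1, 1, 1⟩, ⟨-1, 6, 1, 2, 2⟩, ⟨-1, 5, 1, 2, 2⟩, ⟨-1, 4, 1, 2, 2⟩, ⟨-1, 3, 1, 2, 2⟩, ⟨-1, 2, 1, 2, 2⟩, ⟨-1, 1, 1, 2, 2⟩, ⟨-1, 0, 1, 0, 0⟩]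
        [(1, []), (1, []), (1, []), (2, [(30, 1), (31, 1), (32, 2)]), (2, [(30, 1), (31, 1), (32, 2)]), (2, [(12, 4), (31, 1), (32, 3)]), (1, [(23, 3), (30, 1)]), (2, [(23, 2), (30, 1), (31, 1)]), (2, [(23, 2), (30, 1), (31, 1)]), (1, []), (1, []), (1, []), (1, []), (1, [(5, 1), (6, 1), (7, 1)]), (1, [(23, 1), (30, 2)]), (2, [(30, 3), (31, 1)]), (2, [(30, 3), (31, 1)]), (1, [(30, 1)]), (1, [(30, 1)]), (1, [(33, 1)]), (1, [(33, 1)]), (1, []), (1, []), (1, []), (1, []), (1, [(5, 1)]), (1, [(24, 1), (29, 1)]), (1, []), (1, [(0, 1), (4, 1)]), (1, []), (1, [(5, 1)]), (1, [(12, 1)]), (1, [(1, 1), (3, 1)]), (1, []), (1, []), (1, [(7, 1)]), (1, [(12, 1), (14, 1)]), (1, [(24, 1)]), (1, []), (1, [(1, 1), (3, 1)]), (1, []), (1, [(0, 1), (4, 1)]), (1, [(14, 1)])])))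
    (
    .branch [1, -2, 1, 0, 0]
     (
     .leaf (⟨[0, 0, 0, 1, 4], [0, 0, 0, 0, -1], 1⟩, ⟨[0, 0, -4, -3, 0], [0, 0, 1, 1, 0], 1⟩, ⟨[4, -5, 0, 0, 0], [-1, 1, 0, 0, 0], 1⟩)
       [(-1, -5), (-1, -4), (-1, -3), (1, 4), (0, -1)]
       [⟨0, -1, 1, 0, 0⟩, ⟨1, 4, 1, 1, 1⟩, ⟨-1, -3, 2, 1, 2⟩, ⟨-1, -4, 1, 2, 2⟩, ⟨-1, -5, 1, 2, 2⟩, ⟨-1, -6, 1, 0, 0⟩]
       [(1, []), (1, []), (1, []), (1, []), (1, []), (2, [(1, 1), (3, 1), (30, 1)]), (1, []), (1, [(8, 1), (30, 1)]), (1, [(1, 1), (3, 1), (30, 1)]), (2, [(3, 3), (6, 1), (8, 1), (12, 1), (30, 4)]), (1, [(1, 2), (3, 2), (30, 2)]), (1, [(3, 3), (6, 1), (12, 1), (30, 3)]), (1, []), (1, []), (1, []), (1, [(5, 1)]), (1, [(29, 1)]), (1, []), (1, [(8, 1)]), (1, [(0, 1), (2, 1), (3, 2)]), (1, []), (1, [(1, 1), (3, 1)]), (1, [(1, 1), (3, 1)]),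 (1, []), (1, [(2, 1), (3, 1), (4, 1)]), (1, []), (1, [(32, 1)]), (1, []), (1, []), (1, [(1, 1), (3, 1)]), (1, []), (1, [(2, 1), (3, 1), (4, 1)]), (1, [(14, 1)])])
     (
     .branch [-1, 0, 0, 1, 0]
      (
      .branch [1, 0, 1, 0, -2]
       (
       .leaf (⟨[0, 0, 0, -3, 0], [0, 0, 0, -2, 0], 1⟩, ⟨[0, 0, -1, 0, 3], [0, 0, -1, 0, 2], 1⟩, ⟨[2, -1, 0, 0, 0], [1, 0, 0, 0, 0], 1⟩)
         [(0, 1), (-1, 2), (2, -3), (1, -2), (1, -1)]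
         [⟨0, 1, 1, 2, 2⟩, ⟨-1, 2, 1, 2, 2⟩, ⟨-2, 3, 1, 2, 2⟩, ⟨-3, 4, 3, 0, 1⟩, ⟨2, -3, 1, 1, 1⟩, ⟨1, -1, 1, 1, 1⟩, ⟨1, 0, 1, 2, 2⟩]
         [(1, []), (1, []), (1, []), (1, [(32, 1)]), (1, [(32, 1)]), (1, [(30, 1)]), (1, []), (1, []), (1, []), (1, [(33, 1)]), (1, []), (1, [(33, 1)]), (1, []), (1, [(33, 1)]), (1, []), (1, []), (1, []), (1, [(24, 1), (29, 1)]), (1, [(5, 1)]), (1, []), (1, [(0, 1), (3, 2)]), (1, [(34, 1)]), (1, []), (1, [(1, 1), (3, 1)]), (1, [(12, 1)]), (1, []), (1, [(2, 1)]), (1, []), (1, [(12, 1), (14, 1)]), (1, []), (1, [(24, 1)]), (1, [(1, 1), (3, 1)]), (1, [(3, 1), (4, 1)]), (1, []), (1, [(14, 1)])])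
       (
       .leaf (⟨[0, 0, 1, 0, 3], [0, 0, 0, 0, -1], 1⟩, ⟨[-4, 0, 0, 1, 0], [1, 0, 0, 0, 0], 1⟩, ⟨[0, -6, 0, 0, 0], [0, 1, 0, 0, 0], 2⟩)
         [(0, 1), (-1, -4), (1, 3), (1, 4), (0, -1)]
         [⟨0, -1, 1, 0, 0⟩, ⟨1, 3, 2, 0, 1⟩, ⟨0, 1, 2, 1, 2⟩, ⟨-1, -4, 3, 2, 0⟩, ⟨-1, -5, 1, 0, 0⟩]
         [(1, []), (1, []), (1, []), (1, [(33, 1)]), (1, []), (1, []), (1, [(33, 2)]), (1, [(33, 2)]), (1, [(33, 4)]), (1, [(33, 4)]), (1, []), (1, [(1, 1)]), (1, []), (1, [(6, 1), (32, 1)]), (1, [(11, 2)]), (1, [(5, 1), (8, 2), (30, 2)]), (1, [(1, 6)]), (1, [(1, 4), (3, 1), (30, 1)]), (1, [(34, 1)]), (1, [(1, 1)]), (1, []), (1, [(6, 1), (32, 1)]), (1, [(11, 2)]), (1, [(5, 1), (8, 2), (30, 2)]), (1, [(1, 6)]), (1, [(1, 4), (3, 1), (30, 1)]), (1, [(34, 1)]), (1, []), (1, [(0, 1), (4, 1)]),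 (1, []), (1, [(5, 1)]), (1, [(12, 1)]), (1, [(1, 1), (3, 1)]), (1, []), (1, []), (1, [(7, 1)]), (1, [(1, 3), (2, 2)]), (1, [(24, 1)]), (1, []), (1, [(1, 2), (3, 2)]), (1, []), (1, [(0, 1), (4, 1)]), (1, [(1, 1), (4, 2)])]))
      (
      .leaf (⟨[0, -3, 2, 0, 0], [0, -1, 1, 0, 0], 1⟩, ⟨[0, 0, 0, 1, -2], [0, 0, 0, 0, -1], 1⟩, ⟨[2, 0, 0, 1, 0], [1, 0, 0, 0, 0], 1⟩)
        [(0, 1), (-1, 2), (-1, 3), (1, -2), (0, -1)]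
        [⟨0, -1, 1, 1, 1⟩, ⟨1, -2, 3, 2, 0⟩, ⟨-1, 3, 1, 0, 0⟩, ⟨-1, 2, 1, 0, 0⟩, ⟨-1, 1, 1, 0, 0⟩, ⟨-1, 0, 1, 1, 1⟩]
        [(1, []), (1, []), (1, []), (1, [(33, 1)]), (1, []), (1, []), (1, [(33, 2)]), (1, [(33, 2)]), (1, [(33, 4)]), (1, [(33, 4)]), (1, []), (1, []), (1, []), (1, [(32, 1)]), (1, [(32, 1)]), (1, [(6, 1), (32, 1)]), (1, [(29, 1)]), (1, []), (1, [(6, 1)]), (1, [(0, 1), (4, 1)]), (1, []), (1, []), (1, [(1, 1), (3, 1)]), (1, [(1, 1), (3, 1)]), (1, []), (1, [(2, 1), (3, 1), (4, 1)]), (1, [(18, 1)]), (1, [(1, 1), (3, 1)]), (1, []), (1, []), (1, [(19, 1)]), (1, []), (1, [(0, 1), (4, 1)])]))))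
   (
   .branch [-1, 0, 1, 0, 0]
    (
    .branch [-1, 3, 0, 0, -1]
     (
     .branch [0, 0, 1, 0, -1]
      (
      .branch [1, -2, 1, 0, 0]
       (
       .leaf (⟨[-2, 1, 0, 0, 0], [-1, 1, 0, 0, 0], 1⟩, ⟨[0, 0, 0, 1, -2], [0, 0, 0, 0, -1], 1⟩, ⟨[0, 0, 2, 0, 0], [0, 0, 1, 0, 0], 1⟩)
         [(-1, 1), (-1, 2), (-1, 3), (1, -2), (0, -1)]
         [⟨0, -1, 1, 1, 1⟩, ⟨1, -2, 2, 1, 2⟩, ⟨-2, 5, 1, 0, 0⟩, ⟨-1, 2, 1, 0, 0⟩, ⟨-1, 1, 1, 0, 0⟩, ⟨-1, 0, 1, 1, 1⟩]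
         [(1, []), (1, []), (1, []), (1, []), (1, [(33, 1)]), (1, []), (1, [(31, 1)]), (1, [(33, 1)]), (1, []), (1, [(31, 1)]), (1, [(32, 1)]), (1, []), (1, []), (1, []), (1, []), (1, [(5, 1)]), (1, [(29, 1)]), (1, []), (1, []), (1, [(8, 1)]), (1, [(0, 1), (2, 1)]), (1, []), (1, [(1, 1), (3, 1)]), (1, [(1, 1)]), (1, [(34, 1)]), (1, [(2, 1), (3, 1), (4, 1)]), (1, []), (1, [(1, 1), (3, 1)]), (1, []), (1, [(3, 1)]), (1, [(14, 1)]), (1, []), (1, [(2, 1), (4, 1)])])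
       (
       .leaf (⟨[0, 1, 0, 0, 2], [0, 0, 0, 0, -1], 1⟩, ⟨[-3, 0, 1, 0, 0], [1, 0, 0, 0, 0], 1⟩, ⟨[0, 0, 0, -1, 0], [0, 0, 0, 0, 0], 1⟩)
         [(0, 1), (1, 2), (1, 3), (-1, -2), (0, -1)]
         [⟨0, -1, 1, 0, 0⟩, ⟨1, 2, 2, 0, 1⟩, ⟨0, 1, 1, 1, 1⟩, ⟨-1, 10, 3, 2, 0⟩]
         [(1, []), (1, []), (1, []), (1, [(31, 1)]), (1, []), (1, []), (1, [(31, 1), (33, 1)]), (1, [(31, 3)]), (1, [(31, 3)]), (1, [(31, 4), (33, 1)]), (1, []), (1, [(0, 6), (5, 2), (6, 2), (7, 1)]), (1, []), (1, []), (1, []), (2, [(30, 2), (31, 1), (34, 3)]), (1, [(30, 1), (31, 1), (34, 1)]), (2, [(30, 2), (31, 3), (34, 3)]), (1, [(3, 1)]), (2, [(30, 2), (31, 1), (33, 2), (34, 3)]), (1, [(0, 1), (4, 1)]), (1, []), (1, [(0, 1)]), (1, []), (1, [(6, 1)]), (1, [(1, 1), (3, 1)]), (1, [(19, 1)]), (1, []), (1,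 [(2, 1), (3, 1)]), (1, [(1, 1), (3, 1)]), (1, [(18, 1)]), (1, []), (1, []), (1, [(0, 1), (4, 1)]), (1, [(4, 1)])]))
      (
      .branch [1, -2, 1, 0, 0]
       (
       .leaf (⟨[1, 0, 0, 0, 1], [0, 0, 0, 0, -1], 1⟩, ⟨[2, -1, 0, 0, 0], [-1, 1, 0, 0, 0], 1⟩, ⟨[0, 0, -2, -3, 0], [0, 0, 1, 1, 0], 1⟩)
         [(1, 1), (1, 2), (1, 3), (-1, -2), (0, -1)]
         [⟨0, -1, 1, 0, 0⟩, ⟨1, 1, 1, 1, 1⟩, ⟨1, 2, 3, 1, 2⟩, ⟨1, 3, 1, 2, 2⟩, ⟨-1, -2, 2, 2, 0⟩]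
         [(1, []), (1, []), (1, []), (1, []), (1, []), (2, [(14, 1), (32, 1)]), (1, []), (1, [(32, 1)]), (1, [(14, 1), (32, 1)]), (1, [(14, 1), (32, 2)]), (1, [(14, 2), (32, 2)]), (1, [(14, 2), (32, 3)]), (1, []), (1, []), (1, []), (1, [(31, 1), (33, 1)]), (1, []), (1, [(31, 1), (33, 2)]), (1, [(31, 3), (33, 3)]), (1, [(31, 3), (33, 3)]), (1, [(31, 4), (33, 5)]), (1, [(31, 6), (33, 6)]), (1, []), (1, []), (1, [(0, 1), (2, 1), (3, 2)]), (1, [(14, 1)]), (1, []), (1, [(1, 1), (3, 1)]), (1, [(14, 1), (19, 1)]), (1, [(34, 1)]), (1, []), (1, [(8, 1)]), (1, [(1, 1), (3, 1)]), (1, []), (1, []), (1, [(14, 1)]), (1, [(2, 1), (3, 1), (4, 1)])])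
       (
       .leaf (⟨[0, 0, 1, 0, 3], [0, 0, 0, 0, -1], 1⟩, ⟨[-4, 0, 0, 1, 0], [1, 0, 0, 0, 0], 1⟩, ⟨[-4, -1, 0, 0, 0], [1, 0, 0, 0, 0], 1⟩)
         [(0, 1), (-1, -4), (1, 3), (1, 4), (0, -1)]
         [⟨0, -1, 1, 0, 0⟩, ⟨1, 3, 2, 0, 1⟩, ⟨0, 1, 1, 2, 2⟩, ⟨-1, -4, 2, 2, 0⟩]
         [(1, []), (1, []), (1, []), (2, [(30, 2), (31, 3), (34, 3)]), (1, []), (1, []), (1, [(30, 2), (31, 3), (34, 3)]), (1, [(30, 2), (31, 3), (34, 3)]), (1, [(30, 4), (31, 6), (34, 6)]), (1, [(30, 4), (31, 6), (34, 6)]), (1, []), (1, []), (1, []), (1, [(33, 1)]), (1, []), (1, [(31, 1), (33, 2)]), (1, [(33, 3)]), (1, [(33, 3)]), (1, [(31, 1), (33, 5)]), (1, [(33, 6)]), (1, [(0, 1), (4, 1)]), (1, []), (1, []), (1, [(12, 1)]), (1, [(1, 1), (3, 1)]), (1, []), (1, []), (1, [(7, 1)]), (1, [(0, 1), (1, 1),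 (2, 1)]), (1, [(24, 1)]), (1, []), (1, [(1, 1), (3, 1)]), (1, []), (1, [(0, 1), (4, 1)]), (1, [(0, 1), (4, 1)])])))
     (
     .branch [0, 0, 1, 0, -1]
      (
      .leaf (⟨[0, 0, 0, -1, -4], [0, 0, 0, 0, -1], 1⟩, ⟨[-4, 5, 0, 0, 0], [-1, 1, 0, 0, 0], 1⟩, ⟨[0, 0, 4, 0, 0], [0, 0, 1, 0, 0], 1⟩)
        [(1, -5), (1, -4), (1, -3), (-1, 4), (0, -1)]
        [⟨0, -1, 1, 0, 0⟩, ⟨1, -6, 1, 1, 1⟩, ⟨1, -5, 1, 1, 1⟩, ⟨1, -4, 2, 1, 2⟩, ⟨2, -7, 3, 2, 0⟩, ⟨-1, 4, 1, 0, 0⟩]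
        [(1, []), (1, [(29, 1)]), (1, [(5, 1)]), (1, []), (1, []), (1, []), (1, []), (1, []), (1, [(33, 1)]), (1, [(31, 1)]), (1, []), (1, [(33, 1)]), (1, [(31, 1)]), (1, []), (1, []), (1, []), (1, [(33, 1)]), (1, []), (1, [(31, 1)]), (1, [(33, 1)]), (1, []), (1, [(31, 1)]), (1, []), (1, []), (1, [(8, 1)]), (1, []), (1, [(0, 1), (2, 1)]), (1, [(1, 1), (3, 1)]), (1, []), (1, [(1, 1)]), (1, [(2, 1), (3, 1), (4, 1)]), (1, [(12, 1), (32, 1)]), (1, []), (1, []), (1, [(1, 1), (3, 1)]), (1, [(3, 1)]), (1, []), (1, [(14, 1)]), (1, [(2, 1), (4, 1)])])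
      (
      .branch [1, 0, 0, -1, 0]
       (
       .leaf (⟨[0, 0, 0, 0, 4], [0, 0, 0, 0, -1], 1⟩, ⟨[-4, 0, 0, 1, 0], [1, 0, 0, 0, 0], 1⟩, ⟨[0, 3, -4, 0, 0], [0, -1, 1, 0, 0], 1⟩)
         [(0, 1), (-1, -4), (-1, -3), (1, 4), (0, -1)]
         [⟨0, -1, 3, 0, 1⟩, ⟨1, 4, 1, 1, 1⟩, ⟨0, 1, 1, 1, 1⟩, ⟨-1, -2, 2, 1, 2⟩, ⟨-1, -3, 1, 2, 2⟩, ⟨-1, -4, 2, 2, 0⟩]
         [(1, []), (1, []), (1, []), (1, [(33, 1)]), (1, [(31, 1), (33, 1)]), (1, []), (1, [(33, 1)]), (1, [(31, 1), (33, 1)]), (1, []), (1, []), (1, []), (1, [(34, 2)]), (1, [(34, 2)]), (1, [(5, 1), (31, 2)]), (1, []), (1, [(5, 1), (31, 3)]), (1, [(7, 1), (12, 1), (30, 1), (31, 3)]), (1, [(5, 3), (31, 6)]), (1, [(5, 4), (31, 9)]), (1, [(5, 2), (7, 2), (8, 1), (30, 1), (31, 9)]), (1, []), (1, []), (1, []), (1, []), (1, []),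 (1, [(31, 1), (33, 1)]), (1, [(33, 1)]), (1, []), (1, [(31, 1), (33, 1)]), (1, [(33, 1)]), (1, [(0, 1), (4, 1)]), (1, []), (1, [(6, 1)]), (1, [(1, 1)]), (1, [(1, 1), (3, 1)]), (1, []), (1, [(2, 1), (4, 1)]), (1, [(18, 1)]), (1, []), (1, [(3, 1)]), (1, []), (1, [(1, 1), (3, 1)]), (1, []), (1, [(0, 1), (4, 1)]), (1, [(19, 1)])])
       (
       .leaf (⟨[-4, 0, 0, 1, 0], [-3, 0, 0, 1, 0], 1⟩, ⟨[-4, -1, 0, 0, 0], [-3, -1, 0, 0, 0], 1⟩, ⟨[0, 0, 1, 0, 3], [0, 0, 1, 0, 2], 1⟩)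
         [(-1, 1), (3, -4), (-2, 3), (-3, 4), (1, -1)]
         [⟨0, -1, 1, 1, 1⟩, ⟨1, -2, 1, 1, 1⟩, ⟨2, -3, 1, 1, 1⟩, ⟨3, -4, 2, 1, 2⟩, ⟨-2, 3, 2, 2, 0⟩, ⟨-1, 1, 1, 1, 1⟩]
         [(1, [(6, 1), (7, 1), (8, 1)]), (1, [(6, 1), (7, 1)]), (1, [(6, 1), (7, 1)]), (1, [(6, 1)]), (1, [(6, 1)]), (1, []), (1, []), (1, [(33, 1)]), (1, []), (1, []), (1, [(31, 1), (33, 2)]), (1, [(33, 3)]), (1, [(33, 3)]), (1, [(31, 1), (33, 5)]), (1, []), (1, [(34, 1)]), (1, []), (1, []), (1, [(34, 2)]), (1, [(34, 2)]), (1, [(34, 4)]), (1, [(34, 4)]), (1, []), (1, [(6, 1), (7, 1), (8, 1)]), (1, []), (1, []), (1, [(0, 1), (4, 1)]), (1, [(1, 1), (3, 1)]), (1, []), (1, [(12, 1)]), (1, [(7, 1)]), (1, [(0, 1), (1, 1), (2, 1)]), (1, []), (1, []), (1, [(1, 1), (3, 1)]), (1, [(24, 1)]), (1, [(0, 1), (4, 1)]),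 (1, [(0, 1), (4, 1)]), (1, [])]))))
    (
    .branch [-1, -1, 3, 0, 0]
     (
     .branch [0, 1, 0, 0, -1]
      (
      .branch [2, 0, -1, 0, -1]
       (
       .leaf (⟨[0, -1, 0, 0, -2], [0, 0, 0, 0, -1], 1⟩, ⟨[0, 0, 0, 1, -2], [0, 0, 0, 0, -1], 1⟩, ⟨[3, 0, -1, 0, 0], [1, 0, 0, 0, 0], 1⟩)
         [(0, 1), (-1, 2), (-1, 3), (1, -2), (0, -1)]
         [⟨0, -1, 1, 1, 1⟩, ⟨1, -2, 2, 1, 2⟩, ⟨-1, 3, 1, 2, 2⟩, ⟨-3, 8, 1, 0, 0⟩, ⟨-2, 5, 1, 0, 0⟩, ⟨-1, 2, 1, 0, 0⟩]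
         [(1, []), (1, []), (1, []), (1, [(31, 1)]), (1, []), (1, []), (1, [(34, 1)]), (1, [(31, 3)]), (1, [(31, 3)]), (1, [(31, 3), (34, 1)]), (1, []), (1, [(32, 1)]), (1, [(33, 2)]), (1, [(33, 2)]), (1, [(33, 2)]), (1, []), (1, []), (1, []), (1, [(0, 1), (4, 1)]), (1, [(0, 1), (4, 1)]), (1, []), (1, []), (1, [(1, 1), (3, 1)]), (1, [(6, 1)]), (1, [(19, 1)]), (1, [(2, 1), (3, 1), (4, 1)]), (1, []), (1, [(1, 1), (3, 1)]), (1, []), (1, [(18, 1)]), (1, []), (1, []), (1, [(0, 1), (4, 1)])])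
       (
       .leaf (⟨[0, 0, 0, 1, -8], [0, 0, 0, 0, -1], 1⟩, ⟨[0, -3, 4, 0, 0], [0, -1, 1, 0, 0], 1⟩, ⟨[2, 0, 0, 1, 0], [1, 0, 0, 0, 0], 1⟩)
         [(0, 1), (1, -4), (1, -3), (1, -2), (0, -1)]
         [⟨0, -1, 3, 0, 1⟩, ⟨1, -7, 1, 1, 1⟩, ⟨1, -6, 1, 1, 1⟩, ⟨1, -5, 1, 1, 1⟩, ⟨1, -4, 1, 1, 1⟩, ⟨1, -3, 2, 1, 2⟩, ⟨0, 1, 1, 2, 2⟩, ⟨-1, 6, 1, 0, 0⟩]
         [(1, [(31, 6), (33, 4), (34, 3)]), (1, [(30, 1), (31, 2), (33, 3), (34, 2)]), (1, []), (1, []), (1, [(30, 2), (31, 6), (33, 6), (34, 5)]), (1, [(30, 3), (31, 6), (33, 8), (34, 6)]), (1, [(30, 4), (31, 9), (33, 12), (34, 9)]), (1, [(23, 1), (30, 3), (31, 6), (33, 10), (34, 6)]), (1, [(31, 6), (33, 4), (34, 3)]), (1, [(14, 1), (31, 3), (33, 2), (34, 1)]), (1, [(14, 1), (31, 3), (33, 2), (34, 1)]), (1, [(31, 3), (33, 2), (34,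 2)]), (1, [(31, 3), (33, 2), (34, 2)]), (1, []), (1, []), (1, []), (1, []), (1, [(30, 1), (31, 3), (33, 3), (34, 3)]), (1, []), (1, []), (1, [(30, 2), (31, 6), (33, 6), (34, 6)]), (1, [(30, 2), (31, 6), (33, 6), (34, 6)]), (1, [(30, 4), (31, 12), (33, 12), (34, 12)]), (1, [(30, 4), (31, 12), (33, 12), (34, 12)]), (1, []), (1, [(5, 1), (6, 1), (7, 1)]), (1, [(29, 1)]), (1, []), (1, [(0, 1), (4, 1)]), (1, [(6, 1)]), (1, []), (2, [(4, 6), (11, 1), (29, 1)]), (1, []), (1, [(6, 1), (7, 1)]), (2, [(4, 6), (7, 1), (14, 1), (19, 1), (29, 1)]), (1, []), (1, [(7, 1)]), (1, [(4, 6)]), (1, [(30, 1), (31, 6), (33, 4), (34, 4)]), (1, []), (1, []), (1, [(19, 1)]), (1, [(0, 1), (4, 1)])]))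
      (
      .branch [0, 0, -2, 3, 0]
       (
       .branch [0, 0, -1, 2, -1]
        (
        .leaf (⟨[0, 0, 8, -3, 0], [0, 0, -3, 1, 0], 1⟩, ⟨[0, -5, 0, 0, 8], [0, 2, 0, 0, -3], 1⟩, ⟨[-8, -5, 0, 0, 0], [3, 2, 0, 0, 0], 1⟩)
          [(-2, -5), (3, 8), (-1, -3), (-3, -8), (2, 5)]
          [⟨0, -1, 1, 1, 1⟩, ⟨1, 2, 1, 1, 1⟩, ⟨2, 5, 1, 1, 1⟩, ⟨3, 8, 1, 2, 2⟩, ⟨-2, -5, 1, 2, 2⟩, ⟨-7, -18, 1, 0, 0⟩, ⟨-5, -13, 1, 0, 0⟩, ⟨-3, -8, 1, 0, 0⟩, ⟨-1, -3, 2, 0, 1⟩]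
          [(1, [(33, 2)]), (1, [(33, 2)]), (1, [(33, 2)]), (1, []), (1, []), (1, []), (1, []), (1, []), (1, []), (1, [(5, 1)]), (1, [(34, 1)]), (1, [(35, 1)]), (1, [(35, 1)]), (1, []), (1, []), (1, []), (1, []), (1, [(33, 1)]), (1, [(33, 2)]), (1, [(33, 4)]), (1, [(33, 4)]), (1, [(33, 6)]), (1, [(33, 6)]), (1, [(33, 8)]), (1, [(7, 1)]), (1, [(0, 1), (4, 1)]), (1, []), (1, [(1, 1), (3, 1)]), (1, []), (1, []), (1, []), (1, [(12, 1)]), (1, [(0, 1), (1, 1), (2, 1)]), (1, []), (1, [(1, 1), (3, 1)]), (1, [(1, 1), (3, 1)]), (1, [(24, 1)]), (1, []), (1, [(0, 1), (4, 1)])])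
        (
        .branch [1, 0, -2, 0, 1]
         (
         .branch [2, 0, -1, 0, -1]
          (
          .leaf (⟨[-3, 0, 1, 0, 0], [-2, 0, 1, 0, 0], 1⟩, ⟨[2, 0, 0, 7, 0], [1, 0, 0, 3, 0], 1⟩, ⟨[0, 5, 0, 0, -2], [0, 3, 0, 0, -1], 1⟩)
            [(-1, 1), (-1, 2), (-2, 3), (1, -2), (-3, 5)]
            [⟨0, 1, 1, 1, 1⟩, ⟨-1, 3, 1, 1, 1⟩, ⟨-2, 5, 1, 1, 1⟩, ⟨-3, 7, 2, 1, 2⟩, ⟨-1, 2, 3, 2, 0⟩, ⟨-2, 3, 3, 0, 1⟩, ⟨1, -2, 1, 1, 1⟩]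
            [(1, [(3, 3)]), (1, [(6, 1), (23, 1)]), (1, [(6, 1), (23, 1)]), (1, [(8, 1)]), (1, [(8, 1)]), (1, []), (1, []), (2, [(1, 4), (11, 3), (12, 2), (34, 1)]), (1, []), (1, [(11, 3), (12, 1), (34, 1)]), (1, [(1, 3), (11, 4), (12, 2), (34, 1)]), (1, [(1, 3), (11, 6), (12, 4), (34, 2)]), (1, [(1, 9), (11, 6), (12, 4), (34, 2)]), (1, [(1, 6), (11, 9), (12, 6), (14, 1), (34, 3)]), (1, []), (1, [(33, 1)]), (1, []), (1, []), (1, [(33, 2)]), (1, [(33, 2)]), (1, [(33, 4)]), (1, [(33, 4)]), (1, []), (1, [(31, 1)]), (1, []), (1, []), (1, [(37, 1)]), (1, [(31, 3)]), (1, [(31, 3)]), (1, [(31, 3), (37, 1)]), (1, []), (1, [(3, 3)]), (1, []), (1, [(0, 2), (3, 4)]), (1, [(8, 1), (11, 1)]), (1, [(6, 1)]), (1, [(1, 1), (3, 1)]), (1, []), (1, []), (1, [(0, 1), (2, 1), (3, 5)]), (1, [(12,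 1)]), (1, [(18, 1)]), (1, []), (1, [(1, 1), (3, 1)]), (1, [(36, 1)]), (1, [(0, 1), (3, 6), (4, 1)]), (1, [])])
          (
          .branch [1, 0, 0, -1, 0]
           (
           .leaf (⟨[0, 0, 0, 0, -2], [0, 0, 0, 0, -1], 1⟩, ⟨[2, 0, 0, -5, 0], [1, 0, 0, -3, 0], 1⟩, ⟨[0, 3, 2, 0, 0], [0, 2, 1, 0, 0], 1⟩)
             [(3, -5), (-1, 2), (2, -3), (1, -2), (-3, 5)]
             [⟨0, -1, 2, 0, 1⟩, ⟨1, -2, 1, 1, 1⟩, ⟨3, -5, 1, 1, 1⟩, ⟨5, -8, 1, 1, 1⟩, ⟨7, -11, 1, 2, 2⟩, ⟨2, -3, 1, 2, 2⟩, ⟨-1, 2, 2, 2, 0⟩]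
             [(1, []), (2, [(3, 1), (18, 2), (34, 1)]), (1, []), (1, [(18, 1), (34, 1)]), (1, [(18, 2), (23, 1), (34, 1)]), (1, [(18, 4), (34, 2)]), (1, [(3, 3), (18, 4), (34, 2)]), (1, [(8, 1), (18, 6), (34, 3)]), (1, []), (1, []), (1, []), (1, [(38, 2)]), (1, [(38, 2)]), (1, [(38, 2)]), (1, [(32, 1)]), (1, []), (1, []), (1, []), (1, []), (1, []), (1, []), (3, [(36, 1), (37, 2)]), (3, [(36, 2), (37, 1)]), (1, []), (3, [(36, 1), (37, 2)]), (3, [(36, 2), (37, 1)]), (1, [(0, 1), (4, 1)]), (1, []), (1, [(6, 1)]), (1, [(1, 1)]), (1, [(1, 1), (3, 1)]), (1, []), (1, [(2, 1), (4, 1)]), (1, [(18, 1)]), (1, []), (1, [(3, 1)]), (1, []), (1, [(1, 1), (3, 1)]), (1, []), (1, [(0, 1), (4, 1)]), (1, [(19, 1)])])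
           (
           .leaf (⟨[-2, 1, 0, 0, 0], [-1, 1, 0, 0, 0], 1⟩, ⟨[0, 0, 0, 1, -2], [0, 0, 0, 0, -1], 1⟩, ⟨[0, 0, -1, 0, 3], [0, 0, -1, 0, 2], 1⟩)
             [(-1, 1), (-1, 2), (2, -3), (1, -2), (0, -1)]
             [⟨0, -1, 1, 1, 1⟩, ⟨1, -2, 3, 1, 2⟩, ⟨2, -3, 3, 2, 0⟩, ⟨-1, 2, 1, 0, 0⟩, ⟨-1, 1, 2, 0, 1⟩]
             [(1, []), (1, []), (1, []), (1, [(8, 1), (38, 1)]), (1, []), (1, [(8, 1), (38, 2)]), (1, [(8, 2), (38, 2)]), (1, [(8, 3), (38, 4)]), (1, [(8, 4), (38, 4)]), (1, [(8, 5), (38, 6)]), (1, []), (3, [(36, 2), (37, 1)]), (1, []), (1, []), (1, [(36, 1), (37, 1)]), (1, [(36, 2), (37, 1)]), (1, [(36, 2), (37, 1)]), (1, [(36, 3), (37, 2)]), (1, []), (1, []), (1, []), (6, [(35, 3), (36, 2), (37, 1)]), (1, []), (1, [(29, 1)]), (1, [(35, 1), (36, 1), (37, 1)]), (2,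 [(33, 2), (35, 3), (36, 2), (37, 1)]), (1, [(35, 2), (36, 2), (37, 1)]), (1, [(35, 3), (36, 2), (37, 1)]), (1, []), (1, [(8, 1)]), (1, [(0, 1), (4, 1)]), (1, []), (1, [(1, 1), (3, 1)]), (1, [(12, 1)]), (1, [(0, 1), (1, 1), (2, 1)]), (1, [(35, 1)]), (1, []), (1, [(1, 1), (3, 1)]), (1, []), (1, [(24, 1)]), (1, [(14, 1)]), (1, []), (1, [(24, 1), (29, 1)])])))
         (
         .leaf (⟨[0, 0, 0, -1, 2], [0, 0, 0, 0, -1], 1⟩, ⟨[1, 0, 0, 0, 1], [0, 0, 0, 0, -1], 1⟩, ⟨[0, -3, -2, 0, 0], [0, 2, 1, 0, 0], 1⟩)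
           [(1, 1), (1, 2), (-2, -3), (-1, -2), (0, -1)]
           [⟨0, -1, 3, 1, 2⟩, ⟨1, 2, 1, 2, 2⟩, ⟨-2, -3, 2, 2, 0⟩, ⟨-1, -2, 1, 0, 0⟩]
           [(1, []), (1, [(31, 2), (36, 1)]), (1, []), (1, []), (1, [(31, 3), (36, 1)]), (1, [(31, 6), (36, 3)]), (1, [(31, 6), (36, 3)]), (1, [(31, 9), (36, 4)]), (1, []), (1, []), (1, []), (2, [(8, 1), (34, 1), (36, 1)]), (1, []), (1, [(34, 1), (36, 1)]), (1, [(8, 1), (34, 1), (36, 1)]), (1, [(8, 1), (34, 2), (36, 2)]), (1, [(8, 2), (34, 2), (36, 2)]), (1, [(8, 2), (34, 3), (36, 3)]), (1, []), (1, []), (1, [(8, 1)]), (1, []), (1, [(0, 1), (1, 1), (2, 1)]), (1, [(1, 1), (3, 1)]), (1, [(14, 1)]), (1, []), (1, [(35, 1)]), (1, [(7, 1), (8, 1)]), (1, []), (1, []), (1, [(8, 1)]), (1, [(1, 1), (3, 1)]), (1, []), (1, []), (1, [(1, 2), (2, 1),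 (4, 1)])])))
       (
       .branch [-1, 3, 0, 0, -1]
        (
        .leaf (⟨[-2, 1, 0, 0, 0], [-1, 1, 0, 0, 0], 1⟩, ⟨[0, 0, 0, 1, -2], [0, 0, 0, 0, -1], 1⟩, ⟨[0, 0, 2, 3, 0], [0, 0, 1, 1, 0], 1⟩)
          [(-1, 1), (-1, 2), (-1, 3), (1, -2), (0, -1)]
          [⟨0, -1, 1, 1, 1⟩, ⟨1, -2, 3, 2, 0⟩, ⟨-2, 5, 1, 0, 0⟩, ⟨-1, 2, 1, 0, 0⟩, ⟨-1, 1, 1, 0, 0⟩, ⟨-1, 0, 1, 1, 1⟩]
          [(1, []), (1, []), (1, [(35, 1)]), (18, [(7, 2), (11, 1), (32, 2), (34, 5)]), (1, []), (1, []), (5, [(30, 1), (32, 2), (34, 2)]), (1, [(18, 1), (34, 1)]), (3, [(7, 2), (11, 1), (32, 2), (34, 2)]), (2, [(8, 1), (12, 1), (32, 1), (34, 3)]), (1, [(35, 1)]), (1, []), (1, []), (1, []), (1, []), (1, [(5, 1)]), (1, [(29, 1)]), (1, []), (1, []), (1, [(8, 1)]), (1, [(0, 1), (2, 1), (3, 2)]), (1, []), (1,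 [(1, 1), (3, 1)]), (1, [(1, 1), (3, 1)]), (5, [(30, 3), (32, 1), (34, 1)]), (1, [(2, 1), (3, 1), (4, 1)]), (1, []), (1, [(1, 1), (3, 1)]), (1, []), (1, []), (1, [(14, 1)]), (1, []), (1, [(2, 1), (3, 1), (4, 1)])])
        (
        .branch [0, 4, -1, 0, -1]
         (
         .leaf (⟨[0, 0, 2, 3, 0], [0, 0, -1, -2, 0], 1⟩, ⟨[0, -5, 0, 0, 2], [0, 3, 0, 0, -1], 1⟩, ⟨[-2, 0, 0, -1, 0], [1, 0, 0, 0, 0], 1⟩)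
           [(0, 1), (1, 2), (2, 3), (-1, -2), (3, 5)]
           [⟨0, -1, 1, 0, 0⟩, ⟨1, 1, 1, 0, 0⟩, ⟨2, 3, 2, 0, 1⟩, ⟨1, 2, 1, 1, 1⟩, ⟨1, 3, 2, 1, 2⟩, ⟨-1, -2, 1, 0, 0⟩]
           [(1, [(8, 1), (18, 1)]), (1, [(18, 1)]), (1, [(18, 1)]), (1, []), (1, []), (1, [(33, 1)]), (1, []), (1, []), (1, [(33, 2)]), (1, [(33, 2)]), (1, [(33, 4)]), (1, [(33, 4)]), (1, []), (1, [(36, 1)]), (1, [(36, 1)]), (4, [(7, 1), (31, 3), (34, 1)]), (1, []), (1, []), (2, [(7, 1), (31, 3), (34, 1)]), (2, [(7, 1), (31, 3), (34, 1)]), (1, [(7, 1), (31, 3), (34, 1)]), (1, [(7, 1), (31, 3), (34, 1)]), (1, []), (1, [(8, 1), (18, 1)]), (1, [(0, 1), (2, 1), (3, 2)]), (1, [(35, 1)]), (1, []), (1, [(1, 1), (3, 1)]), (1, []), (1, [(1, 1), (3, 1)]), (1, []), (1, [(12, 1)]), (1, [(0, 1), (2, 1), (3, 2)]), (1, []),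 (1, [(1, 1), (3, 1)]), (1, []), (1, [(24, 1)]), (1, []), (1, [(0, 1), (3, 3), (4, 1)])])
         (
         .branch [1, 0, 0, 0, -1]
          (
          .leaf (⟨[0, 0, 2, -3, 0], [0, 0, -1, 1, 0], 1⟩, ⟨[0, 1, 0, 0, 2], [0, 0, 0, 0, -1], 1⟩, ⟨[-2, 0, 0, 0, 0], [1, 0, 0, 0, 0], 1⟩)
            [(0, 1), (1, 2), (-1, -3), (-1, -2), (0, -1)]
            [⟨0, -1, 1, 1, 1⟩, ⟨1, 2, 2, 1, 2⟩, ⟨3, 7, 3, 2, 0⟩, ⟨-1, -2, 3, 0, 1⟩]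
            [(1, []), (1, []), (1, []), (1, []), (1, []), (1, [(31, 1)]), (1, [(37, 1)]), (1, []), (1, [(31, 1)]), (1, [(37, 1)]), (1, []), (1, []), (1, []), (1, [(37, 1)]), (1, [(31, 1)]), (1, []), (1, [(37, 1)]), (1, [(31, 1)]), (1, []), (18, [(7, 2), (11, 1), (32, 2), (34, 5)]), (1, []), (1, []), (5, [(30, 1), (32, 2), (34, 2)]), (1, [(18, 1), (34, 1)]), (3, [(7, 2), (11, 1), (32, 2), (34, 2)]), (2, [(8, 1), (12, 1), (32, 1), (34, 3)]), (1, [(7, 1)]), (1, [(0, 1), (4, 1)]), (1, []), (1, [(1, 1), (3, 1)]), (1, []), (1, [(1, 1)]), (1, []), (1, [(12, 1)]), (1, [(0, 1), (2, 1)]), (1, []), (1, [(1, 1), (3, 1)]), (1, [(3, 1)]), (1, [(24, 1)]), (1, []), (1, [(0, 1), (4, 1)])])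
          (
          .leaf (⟨[2, 0, 0, -5, 0], [-1, 0, 0, 2, 0], 1⟩, ⟨[0, 3, 2, 0, 0], [0, -1, -1, 0, 0], 1⟩, ⟨[0, 0, 0, 0, -2], [0, 0, 0, 0, 1], 1⟩)
            [(-2, -5), (1, 2), (-1, -3), (-1, -2), (-1, -1)]
            [⟨0, -1, 1, 1, 1⟩, ⟨1, 2, 2, 1, 2⟩, ⟨3, 7, 3, 2, 0⟩, ⟨-1, -2, 3, 0, 1⟩, ⟨-1, -3, 1, 1, 1⟩]
            [(1, [(12, 1)]), (1, []), (1, []), (1, []), (1, [(37, 1)]), (1, [(31, 1), (37, 1)]), (1, []), (1, [(37, 1)]), (1, [(31, 1), (37, 1)]), (1, []), (1, []), (1, []), (1, [(37, 1)]), (1, []), (1, [(31, 1), (37, 1)]), (1, [(37, 1)]), (1, []), (1, [(31, 1), (37, 1)]), (1, []), (4, [(7, 1), (31, 3), (34, 1)]), (1, []), (1, []), (2, [(7, 1), (31, 3), (34, 1)]), (2, [(7, 1), (31, 3), (34, 1)]), (1, [(7, 1), (31, 3), (34, 1)]), (1, [(7, 1), (31, 3), (34, 1)]), (1,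 []), (1, [(12, 1)]), (1, []), (1, [(6, 1)]), (1, [(0, 1), (4, 1)]), (1, [(1, 1), (3, 1)]), (1, []), (1, [(1, 1)]), (1, [(18, 1)]), (1, []), (1, [(2, 1), (4, 1)]), (1, []), (1, [(1, 1), (3, 1)]), (1, [(3, 1)]), (1, [(31, 2), (34, 1), (37, 1)]), (1, [(1, 2), (2, 1), (4, 1)]), (1, [])]))))))
     (
     .branch [0, -1, 0, 0, 1]
      (
      .branch [2, 0, -1, 0, -1]
       (
       .leaf (⟨[0, -5, 0, 0, 2], [0, -2, 0, 0, 1], 1⟩, ⟨[0, -8, 0, -2, 0], [0, -3, 0, -1, 0], 2⟩, ⟨[3, 0, 5, 0, 0], [1, 0, 2, 0, 0], 1⟩)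
         [(2, -5), (-1, 2), (-1, 3), (3, -8), (-2, 5)]
         [⟨0, -1, 1, 1, 1⟩, ⟨1, -3, 1, 1, 1⟩, ⟨3, -8, 2, 1, 2⟩, ⟨-1, 3, 2, 2, 0⟩, ⟨-1, 2, 1, 1, 1⟩]
         [(1, [(12, 2), (18, 1), (32, 1)]), (1, [(18, 1), (32, 1)]), (1, [(18, 1), (32, 1)]), (1, []), (1, []), (1, [(31, 1)]), (1, []), (1, []), (1, [(34, 1)]), (1, [(31, 3)]), (1, [(31, 3)]), (1, [(7, 1), (12, 1), (30, 1), (32, 2)]), (1, []), (1, [(33, 1)]), (1, []), (1, []), (1, [(33, 2)]), (1, [(33, 2)]), (1, [(33, 4)]), (1, [(33, 4)]), (1, []), (1, [(12, 2), (18, 1), (32, 1)]), (1, [(0, 1), (4, 1)]), (1, [(6, 1), (7, 1)]), (1, []), (1, []), (1, []), (1, [(0, 1), (1, 1), (2, 1)]), (1, [(12, 1)]), (1, [(1, 1), (2, 2), (3, 1)]), (1, []), (1, [(19, 1), (24, 1)]), (1, []), (1, [(18, 1)]), (1, []), (1, [(19, 1), (24, 1)]),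 (1, [(0, 1), (4, 1)])])
       (
       .branch [-1, 0, 0, 1, 0]
        (
        .leaf (⟨[0, -3, -2, 0, 0], [0, -1, -1, 0, 0], 1⟩, ⟨[2, 0, 0, 1, 0], [1, 0, 0, 0, 0], 1⟩, ⟨[5, 0, 0, 0, -1], [2, 0, 0, 0, 0], 2⟩)
          [(0, 1), (-1, 2), (1, -3), (1, -2), (-2, 5)]
          [⟨0, -1, 1, 0, 0⟩, ⟨1, -3, 2, 0, 1⟩, ⟨0, 1, 3, 2, 0⟩, ⟨-1, 2, 1, 0, 0⟩]
          [(1, [(12, 1)]), (1, []), (1, []), (1, [(35, 1)]), (1, []), (1, []), (1, [(35, 2)]), (1, [(35, 2)]), (1, [(35, 4)]), (1, [(35, 4)]), (1, []), (6, [(14, 1), (32, 1), (33, 2), (34, 3)]), (1, []), (5, [(24, 1), (29, 2), (30, 1), (32, 3)]), (1, []), (2, [(14, 1), (32, 1), (33, 2), (34, 3)]), (1, [(14, 1), (32, 1), (33, 2), (34, 1)]), (2, [(14, 1), (32, 1), (33, 2), (34, 3)]), (1, []), (1, [(12, 1)]), (1, [(0, 1), (1, 1), (2, 1)]),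 (1, []), (1, []), (1, []), (1, [(1, 1), (3, 1)]), (1, [(8, 1), (11, 1)]), (1, []), (1, [(7, 1)]), (1, [(0, 1), (2, 2), (4, 1)]), (1, [(1, 1), (3, 1)]), (1, []), (1, [(14, 1), (23, 1)]), (1, [(19, 1)]), (1, [(14, 1), (23, 1)]), (1, [])])
        (
        .leaf (⟨[0, -3, 2, 0, 0], [0, -1, 1, 0, 0], 1⟩, ⟨[0, 0, 0, 0, -2], [0, 0, 0, 0, -1], 1⟩, ⟨[2, 0, 0, 1, 0], [1, 0, 0, 0, 0], 1⟩)
          [(0, 1), (-1, 2), (-1, 3), (1, -2), (0, -1)]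
          [⟨0, -1, 3, 1, 2⟩, ⟨1, -2, 3, 2, 0⟩, ⟨-1, 3, 3, 0, 1⟩]
          [(1, []), (1, []), (1, []), (3, [(14, 1), (32, 1), (33, 2)]), (6, [(14, 1), (32, 1), (33, 2), (34, 3)]), (1, []), (3, [(14, 1), (32, 1), (33, 2)]), (6, [(14, 1), (32, 1), (33, 2), (34, 3)]), (1, []), (1, [(35, 1)]), (1, []), (1, []), (1, [(35, 2)]), (1, [(35, 2)]), (1, [(35, 4)]), (1, [(35, 4)]), (1, []), (6, [(12, 2), (14, 1), (32, 3), (34, 1)]), (1, []), (1, []), (1, [(12, 1), (32, 1), (34, 1)]), (1, [(12, 1), (14, 1), (32, 1)]), (1, [(12, 2), (32, 2), (34, 1)]), (1, [(11, 1), (12, 1), (32, 2), (34, 1)]), (1, [(6, 1)]), (1, [(0, 1), (4, 1)]), (1, []), (1, []), (1, [(1, 1)]), (1, [(1, 1), (3, 1)]), (1, []), (1, [(2, 1), (4, 1)]), (1, [(18, 1)]), (1, [(1, 1), (3, 1)]), (1, [(3, 1)]), (1, []), (1, [(19,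 1)]), (1, []), (1, [(0, 1), (4, 1)])])))
      (
      .leaf (⟨[0, -1, 0, 0, -2], [0, 0, 0, 0, -1], 1⟩, ⟨[0, 0, 0, 1, -2], [0, 0, 0, 0, -1], 1⟩, ⟨[3, 0, -1, 0, 0], [1, 0, 0, 0, 0], 1⟩)
        [(0, 1), (-1, 2), (-1, 3), (1, -2), (0, -1)]
        [⟨0, -1, 1, 1, 1⟩, ⟨1, -2, 2, 1, 2⟩, ⟨-1, 3, 2, 2, 0⟩]
        [(1, []), (1, []), (1, []), (1, [(31, 1)]), (1, []), (1, []), (2, [(7, 1), (30, 1), (32, 1), (33, 2)]), (1, [(31, 3)]), (1, [(31, 3)]), (1, [(7, 1), (12, 1), (30, 1), (32, 2)]), (1, []), (1, [(33, 1)]), (1, []), (1, []), (1, [(33, 2)]), (1, [(33, 2)]), (1, [(33, 4)]), (1, [(33, 4)]), (1, [(0, 1), (4, 1)]), (1, [(0, 1), (4, 1)]), (1, []), (1, []), (1, [(1, 1), (3, 1)]), (1, [(6, 1)]), (1, [(19, 1)]), (1, [(2, 1), (3, 1), (4, 1)]), (1, []), (1, [(1, 1), (3, 1)]), (1, []), (1,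 [(18, 1)]), (1, []), (1, []), (1, [(0, 1), (4, 1)])]))))

end Pool.Agent.Qmul
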