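import Pool.Agent.Qdec.Main

/-!
# Quotients from the data of three forms (helper60)
-/

set_option autoImplicit false

namespace Pool.Agent.Qmul

open Pool.Agent.Qdec (IsNS IsQ)
open Pool.Hhelper28.Quot (Mem)

theorem data_isQ (S : Set ℕ) (hS : IsNS S) (α β γ : Fin 3 → ℤ) (hβ : ∑ i, β i = 0) (hγ : ∑ i, γ i = 0)
    (hδ : β 0 * γ 1 - β 1 * γ 0 ≠ 0) (hmem : ∀ x : ℕ, x ∈ S ↔ Mem α β γ x) : IsQ S := by
  obtain ⟨n, hn⟩ := hS.2.2.bddAbove
  have hn' : ∀ x, n + 1 < x → x ∈ S := by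
    intro x hx
    by_contra hc
    have := hn hc
    omega
  exact Pool.Agent.Qdec.crit_isQ (n + 1) S hn'
    (Pool.Agent.Qdec.data_crit (n + 1) (by omega) S hS hn' α β γ hβ hγ hδ hmem)

end Pool.Agent.Qmul
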