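import Pool.Agent.Qdec.Def

/-!
# Numerical semigroups of multiplicity at most six are quotients (helper60)

`W q` is the least element of the numerical semigroup `S` congruent to `q` modulo `m` (`m` an element of `S`).  `Realized m W`:
three linear forms `ℓ i (p, q) = (a i p + b i q) / D i` on `ℤ²` whose maximum `N` satisfies `W q ≤ N (p, q)` everywhere, and
for every class `k` modulo `m` there is a vector `(p, q)` with `q` in this class and `N (p, q) ≤ W k`.  Then `x ∈ S` iff
there is `(p, q)` with `q ≡ x` and `N (p, q) ≤ x`, and this is the description of a quotient of a semigroup with three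
generators (module `Gauge`).

The forms are produced by certificates (`Tree`): the coordinates of `a i`, `b i` are linear functionals of
`W 1, …, W (m - 1)` (lists of integers), and all inequalities are linear in `W 1, …, W (m - 1)`.
-/

set_option autoImplicit false

namespace Pool.Agent.Qmul

/-- `W q` is the least element of `S` congruent to `q` modulo `m`. -/
structure Weight (m : ℕ) (S : Set ℕ) (W : ℤ → ℤ) : Prop where
  zero : W 0 = 0
  per : ∀ q, W (q + m) = W q
  pos : ∀ q, ¬ (m : ℤ) ∣ q → 0 < W q
  sub : ∀ q r, W (q + r) ≤ W q + W r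
  mem : ∀ x : ℕ, x ∈ S ↔ W x ≤ x

/-- the conclusion of the certificates: three linear forms with maximum `≥ W` which touch `W` in every class. -/
def Realized (m : ℕ) (W : ℤ → ℤ) : Prop :=
  ∃ a b D : Fin 3 → ℤ, (∀ i, 0 < D i) ∧ (∀ p q : ℤ, ∃ i, D i * W q ≤ a i * p + b i * q) ∧
    ∀ k : ℤ, ∃ p q : ℤ, (m : ℤ) ∣ q - k ∧ ∀ i, a i * p + b i * q ≤ D i * W k

/-- the value at `W k, W (k + 1), …` of the functional with the coefficients `L`. -/
def ev (W : ℤ → ℤ) : List ℤ → ℤ → ℤ
  | [], _ => 0
  | c :: L, k => c * W k + ev W L (k + 1)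

/-- sum of functionals. -/
def add : List ℤ → List ℤ → List ℤ
  | [], M => M
  | L, [] => L
  | a :: L, b :: M => (a + b) :: add L M

/-- multiple of a functional. -/
def smul (c : ℤ) (L : List ℤ) : List ℤ := L.map (fun x => c * x)

/-- the functional `W q`. -/
def un (m : ℕ) (q : ℤ) : List ℤ :=
  (List.range (m - 1)).map (fun i => if (q - ((i : ℤ) + 1)) % (m : ℤ) = 0 then 1 else 0)

/-- a linear form with denominator whose coefficients are functionals. -/
structure RF where
  fx : List ℤ
  fy : List ℤ
  D : ℕ

/-- a ray of the fan, with the forms and the mode of the cone that starts at this ray. -/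
structure Ray where
  p : ℤ
  q : ℤ
  mode : ℕ
  i : ℕ
  j : ℕ

instance : Inhabited Ray := ⟨⟨0, 0, 0, 0, 0⟩⟩

/-- the three forms. -/
def sel (f : RF × RF × RF) (i : ℕ) : RF := if i = 0 then f.1 else if i = 1 then f.2.1 else f.2.2

/-- the value of a form at `(p, q)` as a functional. -/
def zer (f : RF) (p q : ℤ) : List ℤ := add (smul p f.fx) (smul q f.fy)

/-- the functional `ℓ (p, q) - D W q`. -/
def cov (m : ℕ) (f : RF) (p q : ℤ) : List ℤ := add (zer f p q) (smul (-(f.D : ℤ)) (un m q))

/-- the ray number `j` (cyclically). -/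
def ray (fan : List Ray) (j : ℕ) : Ray := fan.getD (j % fan.length) default

/-- the determinant of two rays. -/
def dt (r s : Ray) : ℤ := r.p * s.q - r.q * s.p

/-- the inequalities of the cone spanned by `r` and `s`. -/
def coneI (m : ℕ) (f : RF × RF × RF) (r s : Ray) : List (List ℤ) :=
  if r.mode = 1 then [cov m (sel f r.i) r.p r.q, cov m (sel f r.i) s.p s.q]
  else if r.mode = 2 then
    cov m (sel f r.i) r.p r.q :: zer (sel f r.j) r.p r.q ::
      (List.range m).map (fun t => cov m (sel f r.j) ((t : ℤ) * r.p + s.p) ((t : ℤ) * r.q + s.q))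
  else
    cov m (sel f r.j) s.p s.q :: zer (sel f r.i) s.p s.q ::
      (List.range m).map (fun t => cov m (sel f r.i) (r.p + (t : ℤ) * s.p) (r.q + (t : ℤ) * s.q))

/-- the inequalities of the touching points. -/
def touchI (m : ℕ) (f : RF × RF × RF) (touch : List (ℤ × ℤ)) : List (List ℤ) :=
  touch.flatMap (fun v => (List.range 3).map (fun i => smul (-1) (cov m (sel f i) v.1 v.2)))

/-- all inequalities of a leaf. -/
def leafI (m : ℕ) (f : RF × RF × RF) (touch : List (ℤ × ℤ)) (fan : List Ray) : List (List ℤ) :=
  (List.range fan.length).flatMap (fun j => coneI m f (ray fan j) (ray fan (j + 1))) ++ touchI m f touch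

/-- the combination of the functionals `H` with the given indices and coefficients. -/
def comb (H : List (List ℤ)) : List (ℕ × ℕ) → List ℤ
  | [] => []
  | (i, c) :: T => add (smul (c : ℤ) (H.getD i [])) (comb H T)

/-- `h.1` times `L` is the combination of `H` given by `h.2`. -/
def chk (H : List (List ℤ)) (L : List ℤ) (h : ℕ × List (ℕ × ℕ)) : Bool :=
  decide (0 < h.1) && (add (comb H h.2) (smul (-(h.1 : ℤ)) L)).all (fun x => decide (x = 0))

/-- all inequalities have a certificate. -/
def chkAll (H : List (List ℤ)) : List (List ℤ) → List (ℕ × List (ℕ × ℕ)) → Bool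
  | [], _ => true
  | _ :: _, [] => false
  | L :: T, h :: R => chk H L h && chkAll H T R

/-- the combinatorial part of the check of a leaf. -/
def fanOK (m : ℕ) (f : RF × RF × RF) (touch : List (ℤ × ℤ)) (fan : List Ray) : Bool :=
  decide (0 < f.1.D) && decide (0 < f.2.1.D) && decide (0 < f.2.2.D) && decide (0 < fan.length) &&
    (List.range fan.length).all (fun j => decide (dt (ray fan j) (ray fan (j + 1)) = 1)) &&
    (List.range fan.length).any (fun j => decide (0 ≤ dt (ray fan 0) (ray fan j)) &&
      decide (0 ≤ dt (ray fan (j + 1)) (ray fan 0))) &&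
    (List.range (m - 1)).all (fun k => touch.any (fun v => decide ((v.2 - ((k : ℤ) + 1)) % (m : ℤ) = 0)))

/-- decision trees. -/
inductive Tree where
  | leaf (f : RF × RF × RF) (touch : List (ℤ × ℤ)) (fan : List Ray) (h : List (ℕ × List (ℕ × ℕ))) : Tree
  | branch (L : List ℤ) (pos neg : Tree) : Tree

/-- the check of a tree under the hypotheses `H`. -/
def check (m : ℕ) : List (List ℤ) → Tree → Bool
  | H, .leaf f touch fan h => fanOK m f touch fan && chkAll H (leafI m f touch fan) h
  | H, .branch L pos neg => check m (H ++ [L]) pos && check m (H ++ [smul (-1) L]) neg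

/-- the inequalities that hold for all numerical semigroups. -/
def kunz (m : ℕ) : List (List ℤ) :=
  (List.range (m - 1)).map (fun i => un m ((i : ℤ) + 1)) ++
    (List.range (m - 1)).flatMap (fun i => (List.range (m - 1)).map (fun j =>
      add (add (un m ((i : ℤ) + 1)) (un m ((j : ℤ) + 1))) (smul (-1) (un m ((i : ℤ) + (j : ℤ) + 2)))))

end Pool.Agent.Qmul
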