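import Pool.Agent.Qmul.Def
import Pool.Agent.Qmul.DataQ

/-!
# The degenerate case: two forms on `ℤ` (helper60)  (module)

COMPLETE PAPER PROOF.  The complement of `S` is finite; let `C ≥ 1` be an integer with `x ∈ S` for all natural `x ≥ C`
(e.g. `C = n + 1` if all `x > n` are in `S`).  Put `c1 = -B2 * C > 0`, `c2 = B1 * C > 0`, `c3 = B1 - B2 > 0` and apply
`data_isQ` with
`α = ![c1 * (D1 - B1 * η), c2 * (D2 - B2 * η), c3]`, `β = ![-(c1 * B1 * m), -(c2 * B2 * m), 0]`, `γ = ![-c1, -c2, c3 * C]`.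
`∑ β = -m (c1 B1 + c2 B2) = 0`, `∑ γ = B2 C - B1 C + (B1 - B2) C = 0`, `β 0 γ 1 - β 1 γ 0 = c1 c2 m (B1 - B2) ≠ 0`.
`Mem α β γ x` says: there are `t, y` with `0 ≤ c1 (D1 x - B1 j - y)`, `0 ≤ c2 (D2 x - B2 j - y)`,
`0 ≤ c3 (x + C y)`, where `j = η x + m t`.  →: from `x ∈ S` take `j` of `hmem`, `j - η x = m t`, and `y = 0`.  ←: if
`x ≥ C` then `x ∈ S`.  Otherwise `x < C` and `x + C y ≥ 0` give `y ≥ 0` (`y ≤ -1` would give `x ≥ C`), so
`B1 j ≤ D1 x - y ≤ D1 x` and `B2 j ≤ D2 x`, and `hmem` gives `x ∈ S`.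
-/

set_option autoImplicit false

namespace Pool.Agent.Qmul

open Pool.Agent.Qdec (IsNS IsQ)

theorem two_isQ (S : Set ℕ) (hS : IsNS S) (m : ℕ) (hm : 0 < m) (η B1 D1 B2 D2 : ℤ) (h1 : 0 < B1) (h2 : B2 < 0)
    (hmem : ∀ x : ℕ, x ∈ S ↔ ∃ j : ℤ, (m : ℤ) ∣ j - η * x ∧ B1 * j ≤ D1 * x ∧ B2 * j ≤ D2 * x) : IsQ S := by
  obtain ⟨n, hn⟩ := hS.2.2.bddAbove
  have hn' : ∀ x : ℕ, n + 1 ≤ x → x ∈ S := by
    intro x hx
    by_contra hc
    have := hn hc
    omega
  set C : ℤ := (n : ℤ) + 1 with hC
  have hCpos : 0 < C := by omega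
  have hc1 : 0 < -B2 * C := mul_pos (by omega) hCpos
  have hc2 : 0 < B1 * C := mul_pos h1 hCpos
  have hc3 : 0 < B1 - B2 := by omega
  have hm' : (0 : ℤ) < m := by exact_mod_cast hm
  refine data_isQ S hS
    ![-B2 * C * (D1 - B1 * η), B1 * C * (D2 - B2 * η), B1 - B2]
    ![-(-B2 * C * B1 * m), -(B1 * C * B2 * m), 0]
    ![-(-B2 * C), -(B1 * C), (B1 - B2) * C] ?_ ?_ ?_ ?_
  · simp [Fin.sum_univ_three]
    ring
  · simp [Fin.sum_univ_three]
    ring
  · simp
    have h5 : B2 * C * B1 * m * (-(B1 * C)) - -(B1 * C * B2 * m) * (B2 * C) =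
        (-B2 * C) * (B1 * C) * m * (B1 - B2) := by ring
    have h6 : 0 < (-B2 * C) * (B1 * C) * m * (B1 - B2) :=
      mul_pos (mul_pos (mul_pos hc1 hc2) hm') hc3
    intro h7
    nlinarith
  · intro x
    constructor
    · intro hx
      obtain ⟨j, ⟨t, ht⟩, hj1, hj2⟩ := (hmem x).mp hx
      refine ⟨t, 0, ?_⟩
      have hj : j = η * x + m * t := by linarith
      intro i
      fin_cases i
      · have h8 := mul_nonneg hc1.le (sub_nonneg.mpr hj1)
        simp only [Fin.zero_eta, Matrix.cons_val_zero]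
        rw [hj] at h8
        linarith
      · have h8 := mul_nonneg hc2.le (sub_nonneg.mpr hj2)
        simp only [Fin.mk_one, Matrix.cons_val_one, Matrix.cons_val_zero]
        rw [hj] at h8
        linarith
      · have h8 := mul_nonneg hc3.le (Int.natCast_nonneg x)
        simp
        linarith
    · rintro ⟨t, y, h⟩
      by_cases hxC : n + 1 ≤ x
      · exact hn' x hxC
      · have h0 := h 0
        have h1' := h 1
        have h2' := h 2
        simp only [Matrix.cons_val_zero] at h0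
        simp only [Matrix.cons_val_one, Matrix.cons_val_zero] at h1'
        simp at h2'
        have hxC' : (x : ℤ) < C := by omega
        have hy3 : 0 ≤ (B1 - B2) * (x + C * y) := by linarith
        have hy4 : 0 ≤ x + C * y := by
          by_contra hcon
          push Not at hcon
          have := mul_neg_of_pos_of_neg hc3 hcon
          omega
        have hy : 0 ≤ y := by
          by_contra hcon
          push Not at hcon
          have : C * y ≤ C * (-1) := mul_le_mul_of_nonneg_left (by omega) hCpos.le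
          linarith
        have e0 : 0 ≤ (-B2 * C) * (D1 * x - B1 * (η * x + m * t) - y) := by linarith
        have e1 : 0 ≤ (B1 * C) * (D2 * x - B2 * (η * x + m * t) - y) := by linarith
        have f0 : 0 ≤ D1 * x - B1 * (η * x + m * t) - y := by
          by_contra hcon
          push Not at hcon
          have := mul_neg_of_pos_of_neg hc1 hcon
          omega
        have f1 : 0 ≤ D2 * x - B2 * (η * x + m * t) - y := by
          by_contra hcon
          push Not at hcon
          have := mul_neg_of_pos_of_neg hc2 hcon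
          omega
        exact (hmem x).mpr ⟨η * x + m * t, ⟨t, by ring⟩, by linarith, by linarith⟩

end Pool.Agent.Qmul
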