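import Pool.Agent.Qmul.Pos
import Pool.Agent.Qmul.Two

/-!
# Three forms touching the weights, degenerate case (helper60)  (module)

COMPLETE PAPER PROOF.  Write `ℓ i (p, q) = a i p + b i q`, `u = (p₀, q₀)`.  Let `p₀ r - q₀ s = 1` (`hg`: `IsCoprime`),
`z = (s, r)`.  `m ∣ q₀`: otherwise `W q₀ > 0` and `hi p₀ q₀` gives `i` with `0 < D i W q₀ ≤ ℓ i u ≤ 0`.
Put `A i = ℓ i u ≤ 0`, `B i = ℓ i z`; every `(p, q)` is `t u + j z` with `j = p₀ q - q₀ p`, `t = p r - q s`
(`linear_combination`), then `ℓ i (p, q) = t A i + j B i`, and `q = t q₀ + j r ≡ j r (mod m)`.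
`p₀ r ≡ 1 (mod m)`, so `m ∣ q - x` iff `m ∣ j - p₀ x`.

(C) `x ∈ S` iff there is `j` with `m ∣ j - p₀ x` and `j B i ≤ D i x` for all `i` with `A i = 0`.  → from `star`.
←: given `j`, the vector `t u + j z` with `t = ∑ i (|j B i| + |D i x|)` has `t A i + j B i ≤ D i x` for all `i`
(`A i ≤ -1` if `A i ≠ 0`); apply `star`.
(D) there is `i` with `A i = 0` and `B i > 0`: `hi` for `t u + z` with `t = |B 0| + |B 1| + |B 2|` gives `i` with
`D i W (t q₀ + r) ≤ t A i + B i`, and `W (t q₀ + r) > 0` (`h.pos`) because `m` does not divide `t q₀ + r`: otherwise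
`m ∣ r` and `m ∣ 1`, but `m ≥ 2`.  So `t A i + B i > 0`, hence `A i = 0` (if `A i ≤ -1` then `t A i + B i ≤ 0`) and `B i > 0`.
With `t u - z` in the same way: there is `i` with `A i = 0` and `B i < 0`.
(E) Among the `i` with `A i = 0`, `B i > 0` let `P` be one with `B i D P ≤ B P D i` for all such `i` (largest `B i / D i`; e.g.
`Finset.exists_max_image` with the rational `B i / D i`), and among those with `A i = 0`, `B i < 0` let `Q` be one
with `B Q D i ≤ B i D Q` for all such `i` (smallest `B i / D i`).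
Then for a natural `x` and an integer `j`: (`j B i ≤ D i x` for all `i` with `A i = 0`) iff (`B P j ≤ D P x` and
`B Q j ≤ D Q x`).  →: clear.  ←: let `A i = 0`.  If `j B i ≤ 0` it holds because `D i x ≥ 0`.  If `j > 0`, `B i > 0`:
`D P (B i j) ≤ D i (B P j) ≤ D i D P x`, divide by `D P > 0`.  If `j < 0`, `B i < 0`: `D Q (B i j) ≤ D i (B Q j) ≤ D i D Q x`
(multiply `B Q D i ≤ B i D Q` by the negative `j`), divide by `D Q > 0`.
(F) apply `two_isQ` with `η = p₀`, `B1 = B P`, `D1 = D P`, `B2 = B Q`, `D2 = D Q`.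
-/

set_option linter.all false

namespace Pool.Agent.Qmul

open Pool.Agent.Qdec (IsNS IsQ)

private theorem deg_mem (S : Set ℕ) (m : ℕ) (W : ℤ → ℤ) (h : Weight m S W)
    (a b D A B : Fin 3 → ℤ) (hD : ∀ i, 0 < D i)
    (hi : ∀ p q : ℤ, ∃ i, D i * W q ≤ a i * p + b i * q)
    (ht : ∀ k : ℤ, ∃ p q : ℤ, (m : ℤ) ∣ q - k ∧ ∀ i, a i * p + b i * q ≤ D i * W k)
    (p₀ q₀ r s : ℤ) (hrs : p₀ * r - q₀ * s = 1) (hq : (m : ℤ) ∣ q₀)
    (hA : ∀ i, A i = a i * p₀ + b i * q₀) (hB : ∀ i, B i = a i * s + b i * r)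
    (hA0 : ∀ i, A i ≤ 0) (x : ℕ) :
    x ∈ S ↔ ∃ j : ℤ, (m : ℤ) ∣ j - p₀ * x ∧ ∀ i, A i = 0 → B i * j ≤ D i * x := by
  rw [star S m W h a b D hD hi ht x]
  constructor
  · rintro ⟨p, q, hd, hl⟩
    refine ⟨p₀ * q - q₀ * p, ?_, ?_⟩
    · have e : p₀ * q - q₀ * p - p₀ * x = p₀ * (q - x) - q₀ * p := by ring
      rw [e]
      exact dvd_sub (Dvd.dvd.mul_left hd _) (Dvd.dvd.mul_right hq _)
    · intro i hAi
      have h1 := hl i
      have e : a i * p + b i * q = (p * r - q * s) * A i + B i * (p₀ * q - q₀ * p) := by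
        rw [hA i, hB i]
        linear_combination (-(a i * p + b i * q)) * hrs
      rw [e, hAi, mul_zero, zero_add] at h1
      exact h1
  · rintro ⟨j, hj, hl⟩
    obtain ⟨t, ht1⟩ : ∃ t : ℤ, ∀ i, |B i * j| + |D i * x| ≤ t := by
      refine ⟨∑ i, (|B i * j| + |D i * x|), fun i => ?_⟩
      exact Finset.single_le_sum (f := fun i => |B i * j| + |D i * x|)
        (fun i _ => add_nonneg (abs_nonneg _) (abs_nonneg _)) (Finset.mem_univ i)
    refine ⟨t * p₀ + j * s, t * q₀ + j * r, ?_, ?_⟩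
    · have e : t * q₀ + j * r - x = t * q₀ + (j - p₀ * x) * r + (q₀ * s) * x := by
        linear_combination (x : ℤ) * hrs
      rw [e]
      exact dvd_add (dvd_add (Dvd.dvd.mul_left hq _) (Dvd.dvd.mul_right hj _))
        (Dvd.dvd.mul_right (Dvd.dvd.mul_right hq _) _)
    · intro i
      have e : a i * (t * p₀ + j * s) + b i * (t * q₀ + j * r) = t * A i + B i * j := by
        rw [hA i, hB i]
        ring
      rw [e]
      by_cases hAi : A i = 0
      · rw [hAi, mul_zero, zero_add]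
        exact hl i hAi
      · have h1 : A i ≤ -1 := by
          have := hA0 i
          omega
        have h2 := ht1 i
        have h3 := abs_nonneg (B i * j)
        have h4 := abs_nonneg (D i * (x : ℤ))
        have h5 := le_abs_self (B i * j)
        have h6 := neg_abs_le (D i * (x : ℤ))
        have h7 : 0 ≤ t := by linarith
        nlinarith

private theorem deg_dir (m : ℕ) (S : Set ℕ) (W : ℤ → ℤ) (h : Weight m S W)
    (a b D A B : Fin 3 → ℤ) (hD : ∀ i, 0 < D i)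
    (hi : ∀ p q : ℤ, ∃ i, D i * W q ≤ a i * p + b i * q)
    (p₀ q₀ r s : ℤ) (hA : ∀ i, A i = a i * p₀ + b i * q₀) (hB : ∀ i, B i = a i * s + b i * r)
    (hA0 : ∀ i, A i ≤ 0) (hq : (m : ℤ) ∣ q₀) (hr : ¬ (m : ℤ) ∣ r) : ∃ i, A i = 0 ∧ 0 < B i := by
  obtain ⟨t, ht1⟩ : ∃ t : ℤ, ∀ i, |B i| ≤ t := by
    refine ⟨∑ i, |B i|, fun i => ?_⟩
    exact Finset.single_le_sum (f := fun i => |B i|) (fun i _ => abs_nonneg _) (Finset.mem_univ i)
  obtain ⟨i, hi1⟩ := hi (t * p₀ + s) (t * q₀ + r)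
  have hnd : ¬ (m : ℤ) ∣ t * q₀ + r := by
    intro hd
    exact hr ((dvd_add_right (Dvd.dvd.mul_left hq t)).1 hd)
  have hW := h.pos _ hnd
  have hW2 := mul_pos (hD i) hW
  have e : a i * (t * p₀ + s) + b i * (t * q₀ + r) = t * A i + B i := by
    rw [hA i, hB i]
    ring
  rw [e] at hi1
  have h2 : 0 < t * A i + B i := lt_of_lt_of_le hW2 hi1
  have h3 := ht1 i
  have h4 := le_abs_self (B i)
  have h5 := abs_nonneg (B i)
  have h6 : A i = 0 := by
    by_contra hne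
    have h7 : A i ≤ -1 := by
      have := hA0 i
      omega
    nlinarith
  refine ⟨i, h6, ?_⟩
  rw [h6, mul_zero, zero_add] at h2
  exact h2

private theorem deg_max (D A B : Fin 3 → ℤ) (hD : ∀ i, 0 < D i) (hex : ∃ i, A i = 0 ∧ 0 < B i) :
    ∃ P, A P = 0 ∧ 0 < B P ∧ ∀ i, A i = 0 → 0 < B i → B i * D P ≤ B P * D i := by
  classical
  obtain ⟨i₀, h0, h1⟩ := hex
  obtain ⟨P, hP, hmax⟩ := Finset.exists_max_image
    (Finset.univ.filter fun i : Fin 3 => A i = 0 ∧ 0 < B i) (fun i => (B i : ℚ) / (D i : ℚ))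
    ⟨i₀, by simp [h0, h1]⟩
  rw [Finset.mem_filter] at hP
  refine ⟨P, hP.2.1, hP.2.2, fun i hi0 hi1 => ?_⟩
  have h2 := hmax i (Finset.mem_filter.2 ⟨Finset.mem_univ _, hi0, hi1⟩)
  have h3 : (0 : ℚ) < D i := by exact_mod_cast hD i
  have h4 : (0 : ℚ) < D P := by exact_mod_cast hD P
  rw [div_le_div_iff₀ h3 h4] at h2
  exact_mod_cast h2

theorem gauge_deg (S : Set ℕ) (hS : IsNS S) (m : ℕ) (hm : 2 ≤ m) (W : ℤ → ℤ) (h : Weight m S W)
    (a b D : Fin 3 → ℤ) (hD : ∀ i, 0 < D i)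
    (hi : ∀ p q : ℤ, ∃ i, D i * W q ≤ a i * p + b i * q)
    (ht : ∀ k : ℤ, ∃ p q : ℤ, (m : ℤ) ∣ q - k ∧ ∀ i, a i * p + b i * q ≤ D i * W k)
    (p₀ q₀ : ℤ) (hg : IsCoprime p₀ q₀) (hu : ∀ i, a i * p₀ + b i * q₀ ≤ 0) : IsQ S := by
  obtain ⟨r, s', hrs'⟩ := hg
  obtain ⟨s, hs⟩ : ∃ s : ℤ, s = -s' := ⟨_, rfl⟩
  have hrs : p₀ * r - q₀ * s = 1 := by
    rw [hs]
    linear_combination hrs'
  have hq : (m : ℤ) ∣ q₀ := by
    by_contra hnd
    obtain ⟨i, h1⟩ := hi p₀ q₀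
    have h2 := mul_pos (hD i) (h.pos _ hnd)
    have h3 := hu i
    linarith
  have hr : ¬ (m : ℤ) ∣ r := by
    intro hd
    have h1 : (m : ℤ) ∣ 1 := by
      rw [← hrs]
      exact dvd_sub (Dvd.dvd.mul_left hd _) (Dvd.dvd.mul_right hq _)
    have h2 := Int.le_of_dvd one_pos h1
    omega
  obtain ⟨A, hA⟩ : ∃ A : Fin 3 → ℤ, ∀ i, A i = a i * p₀ + b i * q₀ := ⟨_, fun i => rfl⟩
  obtain ⟨B, hB⟩ : ∃ B : Fin 3 → ℤ, ∀ i, B i = a i * s + b i * r := ⟨_, fun i => rfl⟩
  have hA0 : ∀ i, A i ≤ 0 := fun i => by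
    rw [hA i]
    exact hu i
  have hex1 := deg_dir m S W h a b D A B hD hi p₀ q₀ r s hA hB hA0 hq hr
  have hex2 : ∃ i, A i = 0 ∧ 0 < (fun i => - B i) i :=
    deg_dir m S W h a b D A (fun i => - B i) hD hi p₀ q₀ (-r) (-s) hA
      (fun i => by rw [hB i]; ring) hA0 hq (by rwa [dvd_neg])
  obtain ⟨P, hP0, hP1, hP2⟩ := deg_max D A B hD hex1
  obtain ⟨Q, hQ0, hQ1, hQ2⟩ := deg_max D A (fun i => - B i) hD hex2
  have hQ1' : B Q < 0 := by
    have : 0 < - B Q := hQ1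
    linarith
  refine two_isQ S hS m (by omega) p₀ (B P) (D P) (B Q) (D Q) hP1 hQ1' fun x => ?_
  rw [deg_mem S m W h a b D A B hD hi ht p₀ q₀ r s hrs hq hA hB hA0 x]
  constructor
  · rintro ⟨j, hj, hl⟩
    exact ⟨j, hj, hl P hP0, hl Q hQ0⟩
  · rintro ⟨j, hj, h1, h2⟩
    refine ⟨j, hj, fun i hAi => ?_⟩
    have hx : (0 : ℤ) ≤ x := Int.natCast_nonneg x
    have hDx : 0 ≤ D i * (x : ℤ) := mul_nonneg (hD i).le hx
    rcases le_or_gt (B i * j) 0 with hneg | hpos
    · exact hneg.trans hDx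
    · rcases lt_trichotomy j 0 with hj0 | hj0 | hj0
      · have hBi : B i < 0 := by
          by_contra hcon
          have h3 : 0 ≤ B i := not_lt.1 hcon
          have h4 := mul_nonpos_of_nonneg_of_nonpos h3 hj0.le
          linarith
        have h3 : - B i * D Q ≤ - B Q * D i := hQ2 i hAi (by
          show 0 < - B i
          linarith)
        have h4 : D Q * (B i * j) ≤ D Q * (D i * x) := by
          have h5 : D i * (B Q * j) ≤ D i * (D Q * x) := mul_le_mul_of_nonneg_left h2 (hD i).le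
          have h6 : (B i * D Q) * j ≤ (B Q * D i) * j := by
            apply mul_le_mul_of_nonpos_right _ hj0.le
            linarith
          linarith
        exact le_of_mul_le_mul_left h4 (hD Q)
      · rw [hj0, mul_zero] at hpos
        exact absurd hpos (lt_irrefl _)
      · have hBi : 0 < B i := by
          by_contra hcon
          have h3 : B i ≤ 0 := not_lt.1 hcon
          have h4 := mul_nonpos_of_nonpos_of_nonneg h3 hj0.le
          linarith
        have h3 := hP2 i hAi hBi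
        have h4 : D P * (B i * j) ≤ D P * (D i * x) := by
          have h5 : D i * (B P * j) ≤ D i * (D P * x) := mul_le_mul_of_nonneg_left h1 (hD i).le
          have h6 : (B i * D P) * j ≤ (B P * D i) * j := mul_le_mul_of_nonneg_right h3 hj0.le
          linarith
        exact le_of_mul_le_mul_left h4 (hD P)

end Pool.Agent.Qmul
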