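import Pool.Agent.Qmul.Def

/-!
# A complete unimodular fan covers the plane (helper60)  (module)

COMPLETE PAPER PROOF.  Let `R = fan.length`, `u j = ray fan j` (`u (j + R) = u j`, in particular `u R = u 0`, since
`ray` uses `j % R`), `s j = (u j).p * q - (u j).q * p`.  If `0 ≤ s j` and `s (j+1) ≤ 0` for some `j < R`, then with
`a = - s (j+1) ≥ 0`, `b = s j ≥ 0` (`Int.toNat`) we have `(p, q) = a u j + b u (j+1)` because `dt (u j) (u (j+1)) = 1`
(`linear_combination`: `p * dt (u j) (u (j+1)) = …`).  So suppose that for no `j < R` (hence for no `j` at all, by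
periodicity) `0 ≤ s j ∧ s (j+1) ≤ 0`.
1. If `0 ≤ s j` for some `j` then `0 < s (j+1)`, and by induction `0 < s (j + k)` for all `k ≥ 1`; by periodicity
`0 < s i` for all `i`.  Otherwise `s i < 0` for all `i`.
2. Let `j < R` be as in `hg`: `A = dt (u 0) (u j) ≥ 0`, `B = dt (u (j+1)) (u 0) ≥ 0`.  Because `dt (u j) (u (j+1)) = 1`,
`u 0 + B u j + A u (j+1) = 0` (both coordinates; the identity
`dt v w • u + dt w u • v + dt u v • w = 0` with `u = u 0`, `v = u j`, `w = u (j+1)`), hence
`s 0 + B s j + A s (j+1) = 0`, which contradicts 1 (all three `s` are `> 0`, or all are `< 0`).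
-/

set_option autoImplicit false

namespace Pool.Agent.Qmul

theorem cover (fan : List Ray) (h0 : 0 < fan.length)
    (hd : ∀ j < fan.length, dt (ray fan j) (ray fan (j + 1)) = 1)
    (hg : ∃ j < fan.length, 0 ≤ dt (ray fan 0) (ray fan j) ∧ 0 ≤ dt (ray fan (j + 1)) (ray fan 0))
    (p q : ℤ) :
    ∃ j < fan.length, ∃ a b : ℕ, p = a * (ray fan j).p + b * (ray fan (j + 1)).p ∧
      q = a * (ray fan j).q + b * (ray fan (j + 1)).q := by
  have hray : ∀ i j : ℕ, i % fan.length = j % fan.length → ray fan i = ray fan j := by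
    intro i j h
    unfold ray
    rw [h]
  obtain ⟨s, hs⟩ : ∃ s : ℕ → ℤ, ∀ j, s j = (ray fan j).p * q - (ray fan j).q * p :=
    ⟨_, fun _ => rfl⟩
  have hsper : ∀ i j : ℕ, i % fan.length = j % fan.length → s i = s j := by
    intro i j h
    rw [hs, hs, hray i j h]
  by_contra hcon
  have key : ∀ j, ¬ (0 ≤ s j ∧ s (j + 1) ≤ 0) := by
    rintro j ⟨h1, h2⟩
    have hi : j % fan.length < fan.length := Nat.mod_lt _ h0
    have e1 : s j = s (j % fan.length) := hsper _ _ (Nat.mod_mod _ _).symm
    have e2 : s (j + 1) = s (j % fan.length + 1) := hsper _ _ (by rw [Nat.mod_add_mod])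
    rw [e1] at h1
    rw [e2] at h2
    apply hcon
    refine ⟨j % fan.length, hi, (-(s (j % fan.length + 1))).toNat, (s (j % fan.length)).toNat, ?_⟩
    rw [Int.toNat_of_nonneg h1, Int.toNat_of_nonneg (by omega), hs, hs]
    have h3 := hd _ hi
    unfold dt at h3
    constructor
    · linear_combination (-p) * h3
    · linear_combination (-q) * h3
  have hall : (∀ i, 0 < s i) ∨ (∀ i, s i < 0) := by
    by_cases hpos : ∃ j, 0 ≤ s j
    · left
      obtain ⟨j, hj⟩ := hpos
      have h1 : ∀ k, 0 < s (j + (k + 1)) := by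
        intro k
        induction k with
        | zero =>
          by_contra h
          exact key j ⟨hj, not_lt.1 h⟩
        | succ k ih =>
          by_contra h
          exact key (j + (k + 1)) ⟨ih.le, not_lt.1 h⟩
      intro i
      have h2 : s i = s (i + fan.length * (j + 1)) := hsper _ _ (by rw [Nat.add_mul_mod_self_left])
      have h3 : j + 1 ≤ fan.length * (j + 1) := Nat.le_mul_of_pos_left _ h0
      obtain ⟨k, hk⟩ : ∃ k, i + fan.length * (j + 1) = j + (k + 1) :=
        ⟨i + fan.length * (j + 1) - (j + 1), by omega⟩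
      rw [h2, hk]
      exact h1 k
    · right
      intro i
      by_contra h
      exact hpos ⟨i, not_lt.1 h⟩
  obtain ⟨j, hj, hA, hB⟩ := hg
  have h3 := hd j hj
  have hid : s 0 + dt (ray fan (j + 1)) (ray fan 0) * s j +
      dt (ray fan 0) (ray fan j) * s (j + 1) = 0 := by
    rw [hs, hs, hs]
    unfold dt at h3 ⊢
    linear_combination (-((ray fan 0).p * q - (ray fan 0).q * p)) * h3
  rcases hall with h | h
  · have h1 := h 0
    have h2 := mul_nonneg hB (h j).le
    have h4 := mul_nonneg hA (h (j + 1)).le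
    linarith
  · have h1 := h 0
    have h2 := mul_nonpos_of_nonneg_of_nonpos hB (h j).le
    have h4 := mul_nonpos_of_nonneg_of_nonpos hA (h (j + 1)).le
    linarith

end Pool.Agent.Qmul
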