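import Pool.Agent.Qmul.Deg

/-!
# Three forms touching the weights give a quotient (helper60)  (module)

COMPLETE PAPER PROOF.  `hr` gives `a, b, D`.  Put `c 0 = a 1 b 2 - a 2 b 1`, `c 1 = a 2 b 0 - a 0 b 2`,
`c 2 = a 0 b 1 - a 1 b 0`; always `∑ c i a i = 0 = ∑ c i b i`.  If all `c i > 0`, or all `c i < 0` (use `- c`), apply
`gauge_pos` (`hne`: `c 2 ≠ 0`).  Otherwise:

(A) there is an integer vector `(x, y) ≠ (0, 0)` with `a i x + b i y ≤ 0` for all `i`.  Some two of the `c`'s, `c i` and `c j`,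
have opposite weak signs (`c i ≤ 0 ≤ c j` or `c j ≤ 0 ≤ c i`).  Let `k` be the third index; the vector `v = (-b k, a k)` has
`ℓ k v = 0` and for `k = 0`: `ℓ 1 v = c 2`, `ℓ 2 v = -c 1`; for `k = 1`: `ℓ 0 v = -c 2`, `ℓ 2 v = c 0`; for `k = 2`:
`ℓ 0 v = c 1`, `ℓ 1 v = -c 0`, so `v` or `-v` has all `ℓ ≤ 0`, if `v ≠ 0`.  If `(a k, b k) = 0`, two forms remain: if one of
them, say `i`, is nonzero take `± (-b i, a i)` with the sign that makes `ℓ j ≤ 0` (`ℓ i = 0` there); if all three
forms are zero take `(1, 0)`.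
(B) with `g = gcd x y > 0`, `x = g p₀`, `y = g q₀`, `IsCoprime p₀ q₀` (`Int.exists_gcd_one`) and `a i p₀ + b i q₀ ≤ 0`
because `g (a i p₀ + b i q₀) ≤ 0`.  Apply `gauge_deg`.
-/

set_option autoImplicit false

namespace Pool.Agent.Qmul

open Pool.Agent.Qdec (IsNS IsQ)

private theorem Gauge_nz (a0 b0 a1 b1 a2 b2 : ℤ)
    (H : ∀ x y : ℤ, (x ≠ 0 ∨ y ≠ 0) →
      0 < a0 * x + b0 * y ∨ 0 < a1 * x + b1 * y ∨ 0 < a2 * x + b2 * y) : a0 ≠ 0 ∨ b0 ≠ 0 := by
  by_contra hne
  rw [not_or, not_not, not_not] at hne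
  obtain ⟨rfl, rfl⟩ := hne
  by_cases h1 : a1 ≠ 0 ∨ b1 ≠ 0
  · have h2 := H (-b1) a1 (by rcases h1 with h1 | h1
                              · exact Or.inr h1
                              · exact Or.inl (neg_ne_zero.2 h1))
    have h3 := H b1 (-a1) (by rcases h1 with h1 | h1
                              · exact Or.inr (neg_ne_zero.2 h1)
                              · exact Or.inl h1)
    rcases h2 with h2 | h2 | h2 <;> rcases h3 with h3 | h3 | h3 <;> linarith
  · rw [not_or, not_not, not_not] at h1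
    obtain ⟨rfl, rfl⟩ := h1
    by_cases h2 : a2 ≠ 0 ∨ b2 ≠ 0
    · have h3 := H (-b2) a2 (by rcases h2 with h2 | h2
                                · exact Or.inr h2
                                · exact Or.inl (neg_ne_zero.2 h2))
      rcases h3 with h3 | h3 | h3 <;> linarith
    · rw [not_or, not_not, not_not] at h2
      obtain ⟨rfl, rfl⟩ := h2
      have h3 := H 1 0 (Or.inl one_ne_zero)
      rcases h3 with h3 | h3 | h3 <;> linarith

private theorem Gauge_pair (a0 b0 a1 b1 a2 b2 : ℤ)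
    (H : ∀ x y : ℤ, (x ≠ 0 ∨ y ≠ 0) →
      0 < a0 * x + b0 * y ∨ 0 < a1 * x + b1 * y ∨ 0 < a2 * x + b2 * y) :
    (0 < a0 * b1 - a1 * b0 ∧ 0 < a2 * b0 - a0 * b2) ∨
      (a0 * b1 - a1 * b0 < 0 ∧ a2 * b0 - a0 * b2 < 0) := by
  have h0 := Gauge_nz a0 b0 a1 b1 a2 b2 H
  have h1 := H (-b0) a0 (by rcases h0 with h0 | h0
                            · exact Or.inr h0
                            · exact Or.inl (neg_ne_zero.2 h0))
  have h2 := H b0 (-a0) (by rcases h0 with h0 | h0
                            · exact Or.inr (neg_ne_zero.2 h0)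
                            · exact Or.inl h0)
  rcases h1 with h1 | h1 | h1
  · exfalso; linarith
  · rcases h2 with h2 | h2 | h2
    · exfalso; linarith
    · exfalso; linarith
    · exact Or.inl ⟨by linarith, by linarith⟩
  · rcases h2 with h2 | h2 | h2
    · exfalso; linarith
    · exact Or.inr ⟨by linarith, by linarith⟩
    · exfalso; linarith

private theorem Gauge_sign (a b : Fin 3 → ℤ)
    (H : ∀ x y : ℤ, (x ≠ 0 ∨ y ≠ 0) → ∃ i, 0 < a i * x + b i * y) :
    (0 < a 1 * b 2 - a 2 * b 1 ∧ 0 < a 2 * b 0 - a 0 * b 2 ∧ 0 < a 0 * b 1 - a 1 * b 0) ∨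
      (a 1 * b 2 - a 2 * b 1 < 0 ∧ a 2 * b 0 - a 0 * b 2 < 0 ∧ a 0 * b 1 - a 1 * b 0 < 0) := by
  have H0 : ∀ x y : ℤ, (x ≠ 0 ∨ y ≠ 0) →
      0 < a 0 * x + b 0 * y ∨ 0 < a 1 * x + b 1 * y ∨ 0 < a 2 * x + b 2 * y := by
    intro x y h
    obtain ⟨i, hi⟩ := H x y h
    fin_cases i
    · exact Or.inl hi
    · exact Or.inr (Or.inl hi)
    · exact Or.inr (Or.inr hi)
  have h1 := Gauge_pair _ _ _ _ _ _ H0
  have h2 := Gauge_pair (a 1) (b 1) (a 2) (b 2) (a 0) (b 0) (fun x y h => by
    rcases H0 x y h with h | h | h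
    · exact Or.inr (Or.inr h)
    · exact Or.inl h
    · exact Or.inr (Or.inl h))
  rcases h1 with h1 | h1 <;> rcases h2 with h2 | h2
  · exact Or.inl ⟨h2.1, h1.2, h1.1⟩
  · exfalso; linarith [h1.1, h2.2]
  · exfalso; linarith [h1.1, h2.2]
  · exact Or.inr ⟨h2.1, h1.2, h1.1⟩

theorem gauge (S : Set ℕ) (hS : IsNS S) (m : ℕ) (hm : 2 ≤ m) (W : ℤ → ℤ) (h : Weight m S W)
    (hr : Realized m W) : IsQ S := by
  obtain ⟨a, b, D, hD, hi, ht⟩ := hr
  by_cases H : ∀ x y : ℤ, (x ≠ 0 ∨ y ≠ 0) → ∃ i, 0 < a i * x + b i * y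
  · rcases Gauge_sign a b H with ⟨h0, h1, h2⟩ | ⟨h0, h1, h2⟩
    · refine gauge_pos S hS m (by omega) W h a b D
        ![a 1 * b 2 - a 2 * b 1, a 2 * b 0 - a 0 * b 2, a 0 * b 1 - a 1 * b 0] hD ?_ ?_ ?_
        (ne_of_gt h2) hi ht
      · intro i
        fin_cases i
        · exact h0
        · exact h1
        · exact h2
      · rw [Fin.sum_univ_three]
        simp only [Matrix.cons_val_zero, Matrix.cons_val_one, Matrix.cons_val_two,
          Matrix.head_cons, Matrix.tail_cons]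
        ring
      · rw [Fin.sum_univ_three]
        simp only [Matrix.cons_val_zero, Matrix.cons_val_one, Matrix.cons_val_two,
          Matrix.head_cons, Matrix.tail_cons]
        ring
    · refine gauge_pos S hS m (by omega) W h a b D
        ![-(a 1 * b 2 - a 2 * b 1), -(a 2 * b 0 - a 0 * b 2), -(a 0 * b 1 - a 1 * b 0)] hD ?_ ?_ ?_
        (ne_of_lt h2) hi ht
      · intro i
        fin_cases i
        · exact neg_pos.2 h0
        · exact neg_pos.2 h1
        · exact neg_pos.2 h2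
      · rw [Fin.sum_univ_three]
        simp only [Matrix.cons_val_zero, Matrix.cons_val_one, Matrix.cons_val_two,
          Matrix.head_cons, Matrix.tail_cons]
        ring
      · rw [Fin.sum_univ_three]
        simp only [Matrix.cons_val_zero, Matrix.cons_val_one, Matrix.cons_val_two,
          Matrix.head_cons, Matrix.tail_cons]
        ring
  · push Not at H
    obtain ⟨x, y, hxy, hl⟩ := H
    have hg : 0 < Int.gcd x y := by
      rcases hxy with hx | hy
      · exact Int.gcd_pos_of_ne_zero_left _ hx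
      · exact Int.gcd_pos_of_ne_zero_right _ hy
    obtain ⟨p, q, hpq, hx, hy⟩ := Int.exists_gcd_one hg
    have hg' : (0:ℤ) < (Int.gcd x y : ℤ) := by exact_mod_cast hg
    refine gauge_deg S hS m hm W h a b D hD hi ht p q (Int.isCoprime_iff_gcd_eq_one.2 hpq) ?_
    intro i
    have h1 := hl i
    by_contra h2
    rw [not_le] at h2
    have h3 := mul_pos h2 hg'
    have e : a i * x + b i * y = (a i * p + b i * q) * (Int.gcd x y : ℤ) := by
      calc a i * x + b i * y = a i * (p * (Int.gcd x y : ℤ)) + b i * (q * (Int.gcd x y : ℤ)) := by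
            rw [← hx, ← hy]
        _ = _ := by ring
    linarith

end Pool.Agent.Qmul
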