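import Pool.Agent.Qmul.Def

/-!
# Linear functionals and Farkas certificates (helper60)  (module)

COMPLETE PAPER PROOFS.

* `ev_add`, `ev_smul`: induction on the lists (`add.induct` or `L` then `M`), generalising `k`.
* `ev_un`: prove first, for all `n k : ℕ` style by induction on the list `List.range n` (e.g. `List.range_succ`, and
  `ev W (A ++ B) k = ev W A k + ev W B (k + A.length)`), that
  `ev W ((List.range n).map g) 1 = ∑ i ∈ Finset.range n, g i * W (i + 1)`.  For `un` the term `i` is `W (i+1)` if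
  `(q - (i+1)) % m = 0` and `0` otherwise.  Let `r = q % m ∈ [0, m)` (`Int.emod_nonneg`, `Int.emod_lt_of_pos`).
  `(q - (i+1)) % m = 0` with `0 ≤ i < m - 1` holds iff `i + 1 = r`.  If `r = 0` all terms vanish and
  `W q = W (0 + m * (q / m)) = W 0 = 0`; if `r > 0` exactly the term `i = r - 1` remains (`Finset.sum_eq_single`) and
  `W q = W r` (`W (r + m * t) = W r` for all integers `t`, from `h.per` by `Int.induction_on`).  For `m = 1` the list is
  empty and `W q = W 0 = 0`.
* `ev_zer`, `ev_cov`: unfold, `ev_add`, `ev_smul`, `ev_un`, `ring`.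
* `chk_sound`: `ev W (comb H hint) 1 ≥ 0` by induction on the hint (`H.getD i []` is either a member of `H` or `[]` with
  `ev W [] 1 = 0`), and a list all of whose entries are `0` has `ev = 0`, so `h.1 * ev W L 1 = ev W (comb H h.2) 1 ≥ 0`
  with `h.1 > 0`.
* `chkAll_sound`: induction.
* `kunz_nonneg`: `W q ≥ 0` for all `q` (`h.pos` or `m ∣ q` and then `W q = 0`), `ev_un`, `h.sub`.
-/

set_option autoImplicit false

namespace Pool.Agent.Qmul

theorem ev_add (W : ℤ → ℤ) (L M : List ℤ) (k : ℤ) : ev W (add L M) k = ev W L k + ev W M k := by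
  induction L generalizing M k with
  | nil => simp [add, ev]
  | cons a L ih =>
    cases M with
    | nil => simp [add, ev]
    | cons b M =>
      show (a + b) * W k + ev W (add L M) (k + 1) = a * W k + ev W L (k + 1) + (b * W k + ev W M (k + 1))
      rw [ih]
      ring

theorem ev_smul (W : ℤ → ℤ) (c : ℤ) (L : List ℤ) (k : ℤ) : ev W (smul c L) k = c * ev W L k := by
  induction L generalizing k with
  | nil => simp [smul, ev]
  | cons a L ih =>
    show c * a * W k + ev W (smul c L) (k + 1) = c * (a * W k + ev W L (k + 1))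
    rw [ih]
    ring

theorem weight_mul {m : ℕ} {S : Set ℕ} {W : ℤ → ℤ} (h : Weight m S W) (q t : ℤ) : W (q + m * t) = W q := by
  induction t using Int.induction_on with
  | zero => rw [mul_zero, add_zero]
  | succ n ih =>
    rw [show q + (m : ℤ) * ((n : ℤ) + 1) = (q + m * n) + m by ring, h.per, ih]
  | pred n ih =>
    rw [← h.per (q + (m : ℤ) * (-(n : ℤ) - 1)),
      show q + (m : ℤ) * (-(n : ℤ) - 1) + m = q + m * (-(n : ℤ)) by ring, ih]

theorem weight_nonneg {m : ℕ} {S : Set ℕ} {W : ℤ → ℤ} (h : Weight m S W) (q : ℤ) : 0 ≤ W q := by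
  by_cases hq : (m : ℤ) ∣ q
  · obtain ⟨t, rfl⟩ := hq
    have h1 := weight_mul h 0 t
    rw [zero_add, h.zero] at h1
    rw [h1]
  · exact (h.pos q hq).le

private theorem Lin_ev_append (W : ℤ → ℤ) (A B : List ℤ) (k : ℤ) :
    ev W (A ++ B) k = ev W A k + ev W B (k + A.length) := by
  induction A generalizing k with
  | nil => simp [ev]
  | cons a A ih =>
    show a * W k + ev W (A ++ B) (k + 1) = a * W k + ev W A (k + 1) + ev W B (k + ((a :: A).length : ℕ))
    rw [ih, List.length_cons]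
    push_cast
    rw [show k + 1 + (A.length : ℤ) = k + ((A.length : ℤ) + 1) by ring]
    ring

private theorem Lin_ev_range (W : ℤ → ℤ) (g : ℕ → ℤ) (n : ℕ) :
    ev W ((List.range n).map g) 1 = ∑ i ∈ Finset.range n, g i * W ((i : ℤ) + 1) := by
  induction n with
  | zero => simp [ev]
  | succ n ih =>
    rw [List.range_succ, List.map_append, Lin_ev_append, ih, Finset.sum_range_succ]
    congr 1
    rw [List.length_map, List.length_range]
    show g n * W (1 + (n : ℤ)) + 0 = _
    rw [add_zero, add_comm (1 : ℤ)]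

private theorem Lin_emod {m : ℕ} (q : ℤ) {i : ℕ} (hi : i < m - 1) :
    (q - ((i : ℤ) + 1)) % (m : ℤ) = 0 ↔ (i : ℤ) + 1 = q % m := by
  rw [← Int.emod_eq_emod_iff_emod_sub_eq_zero]
  have h1 : ((i : ℤ) + 1) % (m : ℤ) = (i : ℤ) + 1 :=
    Int.emod_eq_of_lt (by omega) (by omega)
  rw [h1]
  exact eq_comm

theorem ev_un {m : ℕ} {S : Set ℕ} {W : ℤ → ℤ} (h : Weight m S W) (hm : 0 < m) (q : ℤ) :
    ev W (un m q) 1 = W q := by
  have hun : un m q = (List.range (m - 1)).map
      (fun i : ℕ => if (q - ((i : ℤ) + 1)) % (m : ℤ) = 0 then (1 : ℤ) else 0) := by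
    unfold un
    rw [bind_pure_comp]
    show List.map _ (List.map _ (List.range (m - 1))) = _
    rw [List.map_map]
    rfl
  rw [hun, Lin_ev_range]
  have hm0 : (m : ℤ) ≠ 0 := by exact_mod_cast hm.ne'
  have hr0 : 0 ≤ q % (m : ℤ) := Int.emod_nonneg q hm0
  have hr1 : q % (m : ℤ) < m := Int.emod_lt_of_pos q (by exact_mod_cast hm)
  have hW : W q = W (q % (m : ℤ)) := by
    have h1 := weight_mul h (q % (m : ℤ)) (q / (m : ℤ))
    rw [Int.emod_add_mul_ediv] at h1
    exact h1
  rcases hr0.eq_or_lt with h0 | h0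
  · rw [hW, ← h0, h.zero]
    refine Finset.sum_eq_zero fun i hi => ?_
    have hi' := Finset.mem_range.1 hi
    rw [if_neg, zero_mul]
    rw [Lin_emod q hi', ← h0]
    omega
  · rw [Finset.sum_eq_single (q % (m : ℤ) - 1).toNat]
    · have e1 : (((q % (m : ℤ) - 1).toNat : ℕ) : ℤ) = q % (m : ℤ) - 1 :=
        Int.toNat_of_nonneg (by omega)
      rw [if_pos]
      · rw [one_mul, e1, sub_add_cancel, hW]
      · rw [Lin_emod q (by omega), e1, sub_add_cancel]
    · intro i hi hne
      have hi' := Finset.mem_range.1 hi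
      rw [if_neg, zero_mul]
      rw [Lin_emod q hi']
      intro h2
      apply hne
      omega
    · intro h2
      exact absurd (Finset.mem_range.2 (by omega)) h2

theorem ev_zer (W : ℤ → ℤ) (f : RF) (p q : ℤ) :
    ev W (zer f p q) 1 = ev W f.fx 1 * p + ev W f.fy 1 * q := by
  unfold zer
  rw [ev_add, ev_smul, ev_smul]
  ring

theorem ev_cov {m : ℕ} {S : Set ℕ} {W : ℤ → ℤ} (h : Weight m S W) (hm : 0 < m) (f : RF) (p q : ℤ) :
    ev W (cov m f p q) 1 = ev W f.fx 1 * p + ev W f.fy 1 * q - f.D * W q := by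
  unfold cov
  rw [ev_add, ev_zer, ev_smul, ev_un h hm]
  ring

private theorem Lin_comb_nonneg (W : ℤ → ℤ) (H : List (List ℤ)) (hH : ∀ l ∈ H, 0 ≤ ev W l 1)
    (c : List (ℕ × ℕ)) : 0 ≤ ev W (comb H c) 1 := by
  induction c with
  | nil => exact le_rfl
  | cons a T ih =>
    obtain ⟨i, c⟩ := a
    show 0 ≤ ev W (add (smul (c : ℤ) (H.getD i [])) (comb H T)) 1
    rw [ev_add, ev_smul]
    have h1 : 0 ≤ ev W (H.getD i []) 1 := by
      by_cases hi : i < H.length
      · rw [List.getD_eq_getElem _ _ hi]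
        exact hH _ (List.getElem_mem hi)
      · rw [List.getD_eq_default _ _ (not_lt.1 hi)]
        exact le_rfl
    have h2 : 0 ≤ (c : ℤ) * ev W (H.getD i []) 1 := mul_nonneg (Int.natCast_nonneg c) h1
    omega

private theorem Lin_all_zero (W : ℤ → ℤ) (L : List ℤ) (k : ℤ)
    (hL : L.all (fun x => decide (x = 0)) = true) : ev W L k = 0 := by
  induction L generalizing k with
  | nil => rfl
  | cons a L ih =>
    rw [List.all_cons, Bool.and_eq_true, decide_eq_true_eq] at hL
    show a * W k + ev W L (k + 1) = 0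
    rw [hL.1, ih _ hL.2]
    ring

theorem chk_sound (W : ℤ → ℤ) (H : List (List ℤ)) (L : List ℤ) (h : ℕ × List (ℕ × ℕ))
    (hH : ∀ l ∈ H, 0 ≤ ev W l 1) (hc : chk H L h = true) : 0 ≤ ev W L 1 := by
  unfold chk at hc
  rw [Bool.and_eq_true, decide_eq_true_eq] at hc
  have h1 := Lin_all_zero W _ 1 hc.2
  rw [ev_add, ev_smul] at h1
  have h2 := Lin_comb_nonneg W H hH h.2
  have h3 : 0 ≤ (h.1 : ℤ) * ev W L 1 := by linarith
  have h4 : (0 : ℤ) < (h.1 : ℤ) := by exact_mod_cast hc.1
  exact nonneg_of_mul_nonneg_right h3 h4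

theorem chkAll_sound (W : ℤ → ℤ) (H : List (List ℤ)) (hH : ∀ l ∈ H, 0 ≤ ev W l 1) (Ls : List (List ℤ))
    (hs : List (ℕ × List (ℕ × ℕ))) (hc : chkAll H Ls hs = true) : ∀ L ∈ Ls, 0 ≤ ev W L 1 := by
  induction Ls generalizing hs with
  | nil =>
    intro L hL
    exact absurd hL (by simp)
  | cons a T ih =>
    cases hs with
    | nil => exact absurd hc (by simp [chkAll])
    | cons h R =>
      have hc' : (chk H a h && chkAll H T R) = true := hc
      rw [Bool.and_eq_true] at hc'
      intro L hL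
      rcases List.mem_cons.1 hL with rfl | hL
      · exact chk_sound W H _ h hH hc'.1
      · exact ih R hc'.2 L hL

theorem kunz_nonneg {m : ℕ} {S : Set ℕ} {W : ℤ → ℤ} (h : Weight m S W) (hm : 0 < m) :
    ∀ l ∈ kunz m, 0 ≤ ev W l 1 := by
  intro l hl
  unfold kunz at hl
  rcases List.mem_append.1 hl with hl | hl
  · obtain ⟨i, _, rfl⟩ := List.mem_map.1 hl
    rw [ev_un h hm]
    exact weight_nonneg h _
  · obtain ⟨i, _, hl⟩ := List.mem_flatMap.1 hl
    obtain ⟨j, _, rfl⟩ := List.mem_map.1 hl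
    rw [ev_add, ev_add, ev_smul, ev_un h hm, ev_un h hm, ev_un h hm]
    have h1 := h.sub ((i : ℤ) + 1) ((j : ℤ) + 1)
    rw [show (i : ℤ) + 1 + ((j : ℤ) + 1) = (i : ℤ) + (j : ℤ) + 2 by ring] at h1
    linarith

end Pool.Agent.Qmul
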