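import Pool.Agent.Qmul.Viol

/-!
# The generators modulo two and modulo three (helper60)  (module)

COMPLETE PAPER PROOFS.  Write `v k = (p k, q k)`, `k = 0, 1, 2, 3` (the generators of the classes `1, 2, 3, 4`).

`mod2`: apply `comb7` with `n = 2` and the following `(e 0, e 1, e 2, e 3; y)`:
(0, 0, 0, 1; 128); (0, 0, 1, 0; 215); (0, 1, 0, 0; 113); (1, 0, 0, 0; 95); (0, 1, 0, 1; 122); (0, 1, 1, 0; 230);
(1, 0, 0, 1; 230); (1, 0, 1, 0; 128); (1, 1, 0, 0; 215).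
(All side conditions are numerical: `y ∉ S7` because `w7 (y % 7) = y + 7`.)  So modulo two, no `v k` is zero,
`v 1 ≠ v 3`, `v 1 ≠ v 2`, `v 0 ≠ v 3`, `v 0 ≠ v 2`, `v 0 ≠ v 1`, hence `v 0, v 1, v 2` are the three nonzero vectors and
`v 3 = v 2`, `v 0 + v 1 + v 3 = 0`.  (With the residues modulo two as variables in `ZMod 2`, or the parities as
`Bool`s / `Int.emod_two_eq`, this is `decide` or `omega`.)

`mod3`: apply `comb7` with `n = 3` and the following `(e 0, e 1, e 2, e 3; y)`: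
(0, 0, 0, 1; 230); (0, 0, 1, 0; 113); (0, 0, 1, 2; 230); (0, 1, 0, 1; 128); (0, 1, 1, 1; 122); (0, 2, 0, 0; 230);
(0, 2, 0, 1; 215); (0, 2, 1, 1; 230); (1, 0, 0, 1; 95); (1, 0, 0, 2; 122); (1, 0, 1, 0; 230); (1, 0, 1, 1; 215);
(1, 0, 2, 1; 230); (1, 1, 0, 0; 113); (1, 1, 0, 2; 230); (1, 1, 1, 0; 128); (1, 2, 1, 0; 215); (1, 2, 2, 0; 230);
(2, 0, 0, 0; 122); (2, 1, 0, 0; 230); (2, 1, 0, 1; 215); (2, 1, 1, 1; 230).
So none of these 22 combinations of the `v k` vanishes modulo three, and a finite check of the `3 ^ 8` possibilities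
(`ZMod 3`; e.g. `decide +kernel` for a statement quantified over the eight residues, ordered so that conditions on few
variables come first; or by hand: `v 0`, `v 1` are independent, `v 3` is none of `0, ± v 0, ± v 1, v 0 + v 1, v 0 - v 1`,
so it is `- v 0 - v 1` or `v 1 - v 0`, and so on) shows `v 2 + v 3 = 0` and `v 0 + v 1 + v 3 = 0` modulo three.
(It was checked by computer that this finite statement is true with exactly these 22 combinations.)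
-/

set_option autoImplicit false

namespace Pool.Agent.Qmul

/-- the vector `(p, q)` is not zero. -/
private def Mods_nz {n : ℕ} (p q : ZMod n) : Bool := !(decide (p = 0) && decide (q = 0))

private theorem Mods_nz_iff {n : ℕ} (p q : ZMod n) : Mods_nz p q = true ↔ ¬ (p = 0 ∧ q = 0) := by
  unfold Mods_nz
  simp
  tauto

private theorem Mods_comb {σ : ℤ} {A B D : Fin 3 → ℤ} (h : Rep S7 σ A B D) {p q : Fin 4 → ℤ}
    (hg : Gens σ A B D p q) (n : ℕ) (hn : 0 < n) (hn7 : Nat.Coprime n 7) (a b c d y : ℕ)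
    (hy : y < w7 (y % 7)) (hcl : (n * y) % 7 = (a + b * 2 + c * 3 + d * 4) % 7)
    (hle : a * 120 + b * 135 + c * 129 + d * 102 ≤ n * y) :
    Mods_nz ((a : ZMod n) * ((p 0 : ℤ) : ZMod n) + (b : ZMod n) * ((p 1 : ℤ) : ZMod n) +
        (c : ZMod n) * ((p 2 : ℤ) : ZMod n) + (d : ZMod n) * ((p 3 : ℤ) : ZMod n))
      ((a : ZMod n) * ((q 0 : ℤ) : ZMod n) + (b : ZMod n) * ((q 1 : ℤ) : ZMod n) +
        (c : ZMod n) * ((q 2 : ℤ) : ZMod n) + (d : ZMod n) * ((q 3 : ℤ) : ZMod n)) = true := by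
  rw [Mods_nz_iff]
  have hyS : y ∉ S7 := by
    intro h'
    have h'' : w7 (y % 7) ≤ y := h'
    omega
  have h1 := comb7 h hg n hn hn7 ![a, b, c, d] y hyS (by
      rw [hcl, Fin.sum_univ_four]
      simp) (by
      rw [Fin.sum_univ_four]
      simpa [w7] using hle)
  intro h2
  apply h1
  rw [Fin.sum_univ_four, Fin.sum_univ_four]
  constructor
  · rw [← ZMod.intCast_zmod_eq_zero_iff_dvd]
    push_cast
    simpa using h2.1
  · rw [← ZMod.intCast_zmod_eq_zero_iff_dvd]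
    push_cast
    simpa using h2.2

private def Mods_c20 (p0 q0 : ZMod 2) : Bool :=
  Mods_nz (1 * p0) (1 * q0)

private def Mods_c21 (p0 q0 p1 q1 : ZMod 2) : Bool :=
  Mods_nz (0 * p0 + 1 * p1) (0 * q0 + 1 * q1) &&
  Mods_nz (1 * p0 + 1 * p1) (1 * q0 + 1 * q1)

private def Mods_c22 (p0 q0 p1 q1 p2 q2 : ZMod 2) : Bool :=
  Mods_nz (0 * p0 + 0 * p1 + 1 * p2) (0 * q0 + 0 * q1 + 1 * q2) &&
  Mods_nz (0 * p0 + 1 * p1 + 1 * p2) (0 * q0 + 1 * q1 + 1 * q2) &&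
  Mods_nz (1 * p0 + 0 * p1 + 1 * p2) (1 * q0 + 0 * q1 + 1 * q2)

private def Mods_c23 (p0 q0 p1 q1 p2 q2 p3 q3 : ZMod 2) : Bool :=
  Mods_nz (0 * p0 + 0 * p1 + 0 * p2 + 1 * p3) (0 * q0 + 0 * q1 + 0 * q2 + 1 * q3) &&
  Mods_nz (0 * p0 + 1 * p1 + 0 * p2 + 1 * p3) (0 * q0 + 1 * q1 + 0 * q2 + 1 * q3) &&
  Mods_nz (1 * p0 + 0 * p1 + 0 * p2 + 1 * p3) (1 * q0 + 0 * q1 + 0 * q2 + 1 * q3)

private theorem Mods_fin2 :
    ∀ p0 q0 : ZMod 2, Mods_c20 p0 q0 = true → 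
    ∀ p1 q1 : ZMod 2, Mods_c21 p0 q0 p1 q1 = true → 
    ∀ p2 q2 : ZMod 2, Mods_c22 p0 q0 p1 q1 p2 q2 = true → 
    ∀ p3 q3 : ZMod 2, Mods_c23 p0 q0 p1 q1 p2 q2 p3 q3 = true → 
    (p2 + p3 = 0 ∧ q2 + q3 = 0) ∧ p0 + p1 + p3 = 0 ∧ q0 + q1 + q3 = 0 := by
  decide +kernel

private def Mods_c30 (p0 q0 : ZMod 3) : Bool :=
  Mods_nz (2 * p0) (2 * q0)

private def Mods_c31 (p0 q0 p1 q1 : ZMod 3) : Bool :=
  Mods_nz (0 * p0 + 2 * p1) (0 * q0 + 2 * q1) &&
  Mods_nz (1 * p0 + 1 * p1) (1 * q0 + 1 * q1) &&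
  Mods_nz (2 * p0 + 1 * p1) (2 * q0 + 1 * q1)

private def Mods_c32 (p0 q0 p1 q1 p2 q2 : ZMod 3) : Bool :=
  Mods_nz (0 * p0 + 0 * p1 + 1 * p2) (0 * q0 + 0 * q1 + 1 * q2) &&
  Mods_nz (1 * p0 + 0 * p1 + 1 * p2) (1 * q0 + 0 * q1 + 1 * q2) &&
  Mods_nz (1 * p0 + 1 * p1 + 1 * p2) (1 * q0 + 1 * q1 + 1 * q2) &&
  Mods_nz (1 * p0 + 2 * p1 + 1 * p2) (1 * q0 + 2 * q1 + 1 * q2) &&
  Mods_nz (1 * p0 + 2 * p1 + 2 * p2) (1 * q0 + 2 * q1 + 2 * q2)

private def Mods_c33 (p0 q0 p1 q1 p2 q2 p3 q3 : ZMod 3) : Bool :=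
  Mods_nz (0 * p0 + 0 * p1 + 0 * p2 + 1 * p3) (0 * q0 + 0 * q1 + 0 * q2 + 1 * q3) &&
  Mods_nz (0 * p0 + 0 * p1 + 1 * p2 + 2 * p3) (0 * q0 + 0 * q1 + 1 * q2 + 2 * q3) &&
  Mods_nz (0 * p0 + 1 * p1 + 0 * p2 + 1 * p3) (0 * q0 + 1 * q1 + 0 * q2 + 1 * q3) &&
  Mods_nz (0 * p0 + 1 * p1 + 1 * p2 + 1 * p3) (0 * q0 + 1 * q1 + 1 * q2 + 1 * q3) &&
  Mods_nz (0 * p0 + 2 * p1 + 0 * p2 + 1 * p3) (0 * q0 + 2 * q1 + 0 * q2 + 1 * q3) &&
  Mods_nz (0 * p0 + 2 * p1 + 1 * p2 + 1 * p3) (0 * q0 + 2 * q1 + 1 * q2 + 1 * q3) &&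
  Mods_nz (1 * p0 + 0 * p1 + 0 * p2 + 1 * p3) (1 * q0 + 0 * q1 + 0 * q2 + 1 * q3) &&
  Mods_nz (1 * p0 + 0 * p1 + 0 * p2 + 2 * p3) (1 * q0 + 0 * q1 + 0 * q2 + 2 * q3) &&
  Mods_nz (1 * p0 + 0 * p1 + 1 * p2 + 1 * p3) (1 * q0 + 0 * q1 + 1 * q2 + 1 * q3) &&
  Mods_nz (1 * p0 + 0 * p1 + 2 * p2 + 1 * p3) (1 * q0 + 0 * q1 + 2 * q2 + 1 * q3) &&
  Mods_nz (1 * p0 + 1 * p1 + 0 * p2 + 2 * p3) (1 * q0 + 1 * q1 + 0 * q2 + 2 * q3) &&
  Mods_nz (2 * p0 + 1 * p1 + 0 * p2 + 1 * p3) (2 * q0 + 1 * q1 + 0 * q2 + 1 * q3) &&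
  Mods_nz (2 * p0 + 1 * p1 + 1 * p2 + 1 * p3) (2 * q0 + 1 * q1 + 1 * q2 + 1 * q3)

private theorem Mods_fin3 :
    ∀ p0 q0 : ZMod 3, Mods_c30 p0 q0 = true → 
    ∀ p1 q1 : ZMod 3, Mods_c31 p0 q0 p1 q1 = true → 
    ∀ p2 q2 : ZMod 3, Mods_c32 p0 q0 p1 q1 p2 q2 = true → 
    ∀ p3 q3 : ZMod 3, Mods_c33 p0 q0 p1 q1 p2 q2 p3 q3 = true → 
    (p2 + p3 = 0 ∧ q2 + q3 = 0) ∧ p0 + p1 + p3 = 0 ∧ q0 + q1 + q3 = 0 := by
  decide +kernel

theorem mod2 {σ : ℤ} {A B D : Fin 3 → ℤ} (h : Rep S7 σ A B D) {p q : Fin 4 → ℤ} (hg : Gens σ A B D p q) :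
    (2 ∣ p 2 + p 3 ∧ 2 ∣ q 2 + q 3) ∧ 2 ∣ p 0 + p 1 + p 3 ∧ 2 ∣ q 0 + q 1 + q 3 := by
  have H := Mods_fin2
    ((p 0 : ℤ) : ZMod 2) ((q 0 : ℤ) : ZMod 2) (by
      unfold Mods_c20
      refine ?_
      · simpa using Mods_comb h hg 2 (by norm_num) (by norm_num) 1 0 0 0 95 (by decide)
          (by norm_num) (by norm_num))
    ((p 1 : ℤ) : ZMod 2) ((q 1 : ℤ) : ZMod 2) (by
      unfold Mods_c21
      simp only [Bool.and_eq_true]
      refine ⟨?_, ?_⟩
      · simpa using Mods_comb h hg 2 (by norm_num) (by norm_num) 0 1 0 0 113 (by decide)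
          (by norm_num) (by norm_num)
      · simpa using Mods_comb h hg 2 (by norm_num) (by norm_num) 1 1 0 0 215 (by decide)
          (by norm_num) (by norm_num))
    ((p 2 : ℤ) : ZMod 2) ((q 2 : ℤ) : ZMod 2) (by
      unfold Mods_c22
      simp only [Bool.and_eq_true]
      refine ⟨⟨?_, ?_⟩, ?_⟩
      · simpa using Mods_comb h hg 2 (by norm_num) (by norm_num) 0 0 1 0 215 (by decide)
          (by norm_num) (by norm_num)
      · simpa using Mods_comb h hg 2 (by norm_num) (by norm_num) 0 1 1 0 230 (by decide)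
          (by norm_num) (by norm_num)
      · simpa using Mods_comb h hg 2 (by norm_num) (by norm_num) 1 0 1 0 128 (by decide)
          (by norm_num) (by norm_num))
    ((p 3 : ℤ) : ZMod 2) ((q 3 : ℤ) : ZMod 2) (by
      unfold Mods_c23
      simp only [Bool.and_eq_true]
      refine ⟨⟨?_, ?_⟩, ?_⟩
      · simpa using Mods_comb h hg 2 (by norm_num) (by norm_num) 0 0 0 1 128 (by decide)
          (by norm_num) (by norm_num)
      · simpa using Mods_comb h hg 2 (by norm_num) (by norm_num) 0 1 0 1 122 (by decide)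
          (by norm_num) (by norm_num)
      · simpa using Mods_comb h hg 2 (by norm_num) (by norm_num) 1 0 0 1 230 (by decide)
          (by norm_num) (by norm_num))
  have K : ∀ x : ℤ, ((x : ℤ) : ZMod 2) = 0 → (2 : ℤ) ∣ x := fun x hx => by
    have := (ZMod.intCast_zmod_eq_zero_iff_dvd x 2).1 hx
    exact_mod_cast this
  refine ⟨⟨K _ ?_, K _ ?_⟩, K _ ?_, K _ ?_⟩
  · push_cast
    exact H.1.1
  · push_cast
    exact H.1.2
  · push_cast
    exact H.2.1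
  · push_cast
    exact H.2.2

theorem mod3 {σ : ℤ} {A B D : Fin 3 → ℤ} (h : Rep S7 σ A B D) {p q : Fin 4 → ℤ} (hg : Gens σ A B D p q) :
    (3 ∣ p 2 + p 3 ∧ 3 ∣ q 2 + q 3) ∧ 3 ∣ p 0 + p 1 + p 3 ∧ 3 ∣ q 0 + q 1 + q 3 := by
  have H := Mods_fin3
    ((p 0 : ℤ) : ZMod 3) ((q 0 : ℤ) : ZMod 3) (by
      unfold Mods_c30
      refine ?_
      · simpa using Mods_comb h hg 3 (by norm_num) (by norm_num) 2 0 0 0 122 (by decide)
          (by norm_num) (by norm_num))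
    ((p 1 : ℤ) : ZMod 3) ((q 1 : ℤ) : ZMod 3) (by
      unfold Mods_c31
      simp only [Bool.and_eq_true]
      refine ⟨⟨?_, ?_⟩, ?_⟩
      · simpa using Mods_comb h hg 3 (by norm_num) (by norm_num) 0 2 0 0 230 (by decide)
          (by norm_num) (by norm_num)
      · simpa using Mods_comb h hg 3 (by norm_num) (by norm_num) 1 1 0 0 113 (by decide)
          (by norm_num) (by norm_num)
      · simpa using Mods_comb h hg 3 (by norm_num) (by norm_num) 2 1 0 0 230 (by decide)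
          (by norm_num) (by norm_num))
    ((p 2 : ℤ) : ZMod 3) ((q 2 : ℤ) : ZMod 3) (by
      unfold Mods_c32
      simp only [Bool.and_eq_true]
      refine ⟨⟨⟨⟨?_, ?_⟩, ?_⟩, ?_⟩, ?_⟩
      · simpa using Mods_comb h hg 3 (by norm_num) (by norm_num) 0 0 1 0 113 (by decide)
          (by norm_num) (by norm_num)
      · simpa using Mods_comb h hg 3 (by norm_num) (by norm_num) 1 0 1 0 230 (by decide)
          (by norm_num) (by norm_num)
      · simpa using Mods_comb h hg 3 (by norm_num) (by norm_num) 1 1 1 0 128 (by decide)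
          (by norm_num) (by norm_num)
      · simpa using Mods_comb h hg 3 (by norm_num) (by norm_num) 1 2 1 0 215 (by decide)
          (by norm_num) (by norm_num)
      · simpa using Mods_comb h hg 3 (by norm_num) (by norm_num) 1 2 2 0 230 (by decide)
          (by norm_num) (by norm_num))
    ((p 3 : ℤ) : ZMod 3) ((q 3 : ℤ) : ZMod 3) (by
      unfold Mods_c33
      simp only [Bool.and_eq_true]
      refine ⟨⟨⟨⟨⟨⟨⟨⟨⟨⟨⟨⟨?_, ?_⟩, ?_⟩, ?_⟩, ?_⟩, ?_⟩, ?_⟩, ?_⟩, ?_⟩, ?_⟩, ?_⟩, ?_⟩, ?_⟩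
      · simpa using Mods_comb h hg 3 (by norm_num) (by norm_num) 0 0 0 1 230 (by decide)
          (by norm_num) (by norm_num)
      · simpa using Mods_comb h hg 3 (by norm_num) (by norm_num) 0 0 1 2 230 (by decide)
          (by norm_num) (by norm_num)
      · simpa using Mods_comb h hg 3 (by norm_num) (by norm_num) 0 1 0 1 128 (by decide)
          (by norm_num) (by norm_num)
      · simpa using Mods_comb h hg 3 (by norm_num) (by norm_num) 0 1 1 1 122 (by decide)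
          (by norm_num) (by norm_num)
      · simpa using Mods_comb h hg 3 (by norm_num) (by norm_num) 0 2 0 1 215 (by decide)
          (by norm_num) (by norm_num)
      · simpa using Mods_comb h hg 3 (by norm_num) (by norm_num) 0 2 1 1 230 (by decide)
          (by norm_num) (by norm_num)
      · simpa using Mods_comb h hg 3 (by norm_num) (by norm_num) 1 0 0 1 95 (by decide)
          (by norm_num) (by norm_num)
      · simpa using Mods_comb h hg 3 (by norm_num) (by norm_num) 1 0 0 2 122 (by decide)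
          (by norm_num) (by norm_num)
      · simpa using Mods_comb h hg 3 (by norm_num) (by norm_num) 1 0 1 1 215 (by decide)
          (by norm_num) (by norm_num)
      · simpa using Mods_comb h hg 3 (by norm_num) (by norm_num) 1 0 2 1 230 (by decide)
          (by norm_num) (by norm_num)
      · simpa using Mods_comb h hg 3 (by norm_num) (by norm_num) 1 1 0 2 230 (by decide)
          (by norm_num) (by norm_num)
      · simpa using Mods_comb h hg 3 (by norm_num) (by norm_num) 2 1 0 1 215 (by decide)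
          (by norm_num) (by norm_num)
      · simpa using Mods_comb h hg 3 (by norm_num) (by norm_num) 2 1 1 1 230 (by decide)
          (by norm_num) (by norm_num))
  have K : ∀ x : ℤ, ((x : ℤ) : ZMod 3) = 0 → (3 : ℤ) ∣ x := fun x hx => by
    have := (ZMod.intCast_zmod_eq_zero_iff_dvd x 3).1 hx
    exact_mod_cast this
  refine ⟨⟨K _ ?_, K _ ?_⟩, K _ ?_, K _ ?_⟩
  · push_cast
    exact H.1.1
  · push_cast
    exact H.1.2
  · push_cast
    exact H.2.1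
  · push_cast
    exact H.2.2

end Pool.Agent.Qmul
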