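import Pool.Agent.Hhelper28.Quot.Class
import Pool.Agent.Qdec.Def

/-!
# The parity criterion, and semigroups of every multiplicity at least eight that are not quotients (helper60)  (module)

COMPLETE PAPER PROOFS.

`parity`.  `data_of_quotient h` gives `α, β, γ` with `x ∈ S ↔ Mem α β γ x`, so there are `t i, n i : ℤ` with
`0 ≤ α j * s i + β j * t i + γ j * n i` for all `j`.  The four vectors `(s i, t i, n i)` of `(ZMod 2)^3` are linearly dependent
(the `16` subsets of `Fin 4` have only `8` possible sums, so two different subsets have the same sum, and their symmetric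
difference `I` is nonempty with sum zero; or use the theorem on linear dependence for `finrank = 3 < 4`).  So there is a nonempty
`I` with `∑ i ∈ I, s i = 2 x`, `∑ i ∈ I, t i = 2 t`, `∑ i ∈ I, n i = 2 n`, and `2 (α j x + β j t + γ j n) ≥ 0`; so
`Mem α β γ x` and `x ∈ S`.

`big`.  For `12 ≤ m` let `S = {x | x = 0 ∨ x = m ∨ x = m + 1 ∨ x = m + 3 ∨ x = m + 7 ∨ 2 * m ≤ x}`; it is a numerical
semigroup (the sum of two nonzero elements is at least `2 m`), and with `s = ![m, m + 1, m + 3, m + 7]` no half of a nonempty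
subset sum is in `S` (15 subsets; `omega`: after substituting, e.g. `2 x = m + (m + 1) + (m + 3)` gives
`m + 7 < x < 2 m`).  For `m = 8, 9, 10, 11` let `S = {x | w (x % m) ≤ x}` with the table `w 0, …, w (m-1)`:
* `m = 8`: `0, 25, 18, 19, 12, 21, 14, 15` and `s = ![8, 25, 12, 14]`;
* `m = 9`: `0, 19, 20, 30, 40, 23, 33, 25, 35` and `s = ![9, 19, 20, 23]`;
* `m = 10`: `0, 21, 12, 23, 24, 25, 16, 27, 18, 29` and `s = ![10, 21, 12, 16]`;
* `m = 11`: `0, 12, 24, 36, 26, 27, 28, 18, 30, 20, 21` and `s = ![11, 12, 18, 20]`.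
`S` is closed under addition because `w ((i + j) % m) ≤ w i + w j` for all `i, j < m` (`decide`) and all numbers `≥ 40` are in
`S`.  (A general private lemma for tables, with decidable hypotheses, is convenient.)
-/

set_option autoImplicit false

namespace Pool.Agent.Qmul

open Pool.Agent.Qdec (IsNS)
open Pool.Hhelper28.Quot (Mem IsQ3 data_of_quotient)

private theorem Parity_symm (v : Fin 4 → ZMod 2) (I J : Finset (Fin 4))
    (h : ∑ i ∈ I, v i = ∑ i ∈ J, v i) : ∑ i ∈ symmDiff I J, v i = 0 := by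
  have h1 : ∀ K : Finset (Fin 4), ∑ i ∈ K, v i = ∑ i, if i ∈ K then v i else 0 := by
    intro K
    rw [Finset.sum_ite_mem, Finset.univ_inter]
  have h2 : ∀ a : ZMod 2, a + a = 0 := by decide
  have h3 : ∑ i ∈ symmDiff I J, v i = ∑ i ∈ I, v i + ∑ i ∈ J, v i := by
    rw [h1, h1 I, h1 J, ← Finset.sum_add_distrib]
    refine Finset.sum_congr rfl fun i _ => ?_
    by_cases hI : i ∈ I <;> by_cases hJ : i ∈ J <;> simp [Finset.mem_symmDiff, hI, hJ, h2]
  rw [h3, h]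
  exact h2 _

theorem parity (S : Set ℕ) (h : IsQ3 S) (s : Fin 4 → ℕ) (hs : ∀ i, s i ∈ S) :
    ∃ I : Finset (Fin 4), I.Nonempty ∧ ∃ x ∈ S, 2 * x = ∑ i ∈ I, s i := by
  obtain ⟨α, β, γ, _, _, _, _, hmem⟩ := data_of_quotient h
  have h1 : ∀ i, ∃ t n : ℤ, ∀ j, 0 ≤ α j * (s i : ℤ) + β j * t + γ j * n :=
    fun i => (hmem (s i)).1 (hs i)
  choose t n htn using h1
  have hcard : Fintype.card (ZMod 2 × ZMod 2 × ZMod 2) < Fintype.card (Finset (Fin 4)) := by
    rw [Fintype.card_finset, Fintype.card_prod, Fintype.card_prod, ZMod.card, Fintype.card_fin]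
    norm_num
  obtain ⟨I, J, hIJ, hφ⟩ := Fintype.exists_ne_map_eq_of_card_lt
    (fun I : Finset (Fin 4) => ((∑ i ∈ I, ((s i : ℕ) : ZMod 2), ∑ i ∈ I, ((t i : ℤ) : ZMod 2),
      ∑ i ∈ I, ((n i : ℤ) : ZMod 2)) : ZMod 2 × ZMod 2 × ZMod 2)) hcard
  simp only [Prod.mk.injEq] at hφ
  obtain ⟨e1, e2, e3⟩ := hφ
  have f1 := Parity_symm _ I J e1
  have f2 := Parity_symm _ I J e2
  have f3 := Parity_symm _ I J e3
  obtain ⟨K, hK⟩ : ∃ K, K = symmDiff I J := ⟨_, rfl⟩
  rw [← hK] at f1 f2 f3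
  have hKne : K.Nonempty := by
    rw [hK, Finset.nonempty_iff_ne_empty]
    intro h0
    exact hIJ (symmDiff_eq_bot.1 h0)
  rw [← Nat.cast_sum, ZMod.natCast_eq_zero_iff] at f1
  rw [← Int.cast_sum, ZMod.intCast_zmod_eq_zero_iff_dvd] at f2 f3
  obtain ⟨x, hx⟩ := f1
  obtain ⟨t', ht'⟩ := f2
  obtain ⟨n', hn'⟩ := f3
  refine ⟨K, hKne, x, (hmem x).2 ⟨t', n', fun j => ?_⟩, hx.symm⟩
  have h2 : 0 ≤ ∑ i ∈ K, (α j * (s i : ℤ) + β j * t i + γ j * n i) :=
    Finset.sum_nonneg fun i _ => htn i j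
  rw [Finset.sum_add_distrib, Finset.sum_add_distrib, ← Finset.mul_sum, ← Finset.mul_sum,
    ← Finset.mul_sum, ht', hn'] at h2
  have h3 : ∑ i ∈ K, (s i : ℤ) = 2 * (x : ℤ) := by
    rw [← Nat.cast_sum, hx]
    push_cast
    ring
  rw [h3] at h2
  push_cast at h2
  linarith

private theorem Parity_not (S : Set ℕ) (s : Fin 4 → ℕ) (hs : ∀ i, s i ∈ S)
    (h : ∀ I : Finset (Fin 4), I.Nonempty → ∀ x ∈ S, 2 * x ≠ ∑ i ∈ I, s i) : ¬ IsQ3 S := by
  intro hq
  obtain ⟨I, hI, x, hx, e⟩ := parity S hq s hs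
  exact h I hI x hx e

private theorem Parity_tab (m : ℕ) (hm : 0 < m) (w : ℕ → ℕ) (s : Fin 4 → ℕ) (h0 : w 0 = 0)
    (hadd : ∀ i < m, ∀ j < m, w ((i + j) % m) ≤ w i + w j) (hmin : ∀ i < m, 0 < i → m ≤ w i)
    (hB : ∀ i < m, w i ≤ 40) (hs : ∀ i, w (s i % m) ≤ s i)
    (hI : ∀ I : Finset (Fin 4), I.Nonempty → (∑ i ∈ I, s i) % 2 = 1 ∨
      (∑ i ∈ I, s i) / 2 < w ((∑ i ∈ I, s i) / 2 % m)) :
    ∃ S : Set ℕ, IsNS S ∧ m ∈ S ∧ (∀ x ∈ S, 0 < x → m ≤ x) ∧ ¬ IsQ3 S := by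
  refine ⟨{x | w (x % m) ≤ x}, ⟨?_, ?_, ?_⟩, ?_, ?_, ?_⟩
  · show w (0 % m) ≤ 0
    rw [Nat.zero_mod, h0]
  · intro x hx y hy
    have hx' : w (x % m) ≤ x := hx
    have hy' : w (y % m) ≤ y := hy
    show w ((x + y) % m) ≤ x + y
    rw [Nat.add_mod]
    have := hadd (x % m) (Nat.mod_lt _ hm) (y % m) (Nat.mod_lt _ hm)
    omega
  · refine (Set.finite_lt_nat 40).subset ?_
    intro x hx
    have hx' : ¬ w (x % m) ≤ x := hx
    have := hB (x % m) (Nat.mod_lt _ hm)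
    show x < 40
    omega
  · show w (m % m) ≤ m
    rw [Nat.mod_self, h0]
    exact Nat.zero_le _
  · intro x hx hx0
    have hx' : w (x % m) ≤ x := hx
    rcases Nat.eq_zero_or_pos (x % m) with h1 | h1
    · exact Nat.le_of_dvd hx0 (Nat.dvd_of_mod_eq_zero h1)
    · have := hmin (x % m) (Nat.mod_lt _ hm) h1
      omega
  · refine Parity_not _ s hs ?_
    intro I hne x hx e
    have hx' : w (x % m) ≤ x := hx
    have e2 : (∑ i ∈ I, s i) / 2 = x := by omega
    rcases hI I hne with h1 | h1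
    · omega
    · rw [e2] at h1
      omega

private theorem Parity_large (m : ℕ) (hm : 12 ≤ m) :
    ∃ S : Set ℕ, IsNS S ∧ m ∈ S ∧ (∀ x ∈ S, 0 < x → m ≤ x) ∧ ¬ IsQ3 S := by
  have key : ∀ x : ℕ, x ∈ {x : ℕ | x = 0 ∨ x = m ∨ x = m + 1 ∨ x = m + 3 ∨ x = m + 7 ∨ 2 * m ≤ x} ↔
      (x = 0 ∨ x = m ∨ x = m + 1 ∨ x = m + 3 ∨ x = m + 7 ∨ 2 * m ≤ x) := fun x => Iff.rfl
  refine ⟨{x | x = 0 ∨ x = m ∨ x = m + 1 ∨ x = m + 3 ∨ x = m + 7 ∨ 2 * m ≤ x}, ⟨?_, ?_, ?_⟩,
    ?_, ?_, ?_⟩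
  · rw [key]
    omega
  · intro x hx y hy
    rw [key] at hx hy ⊢
    omega
  · refine (Set.finite_lt_nat (2 * m)).subset ?_
    intro x hx
    rw [Set.mem_compl_iff, key] at hx
    show x < 2 * m
    omega
  · rw [key]
    omega
  · intro x hx hx0
    rw [key] at hx
    omega
  · refine Parity_not _ ![m, m + 1, m + 3, m + 7] ?_ ?_
    · intro i
      fin_cases i
      · show m ∈ _
        rw [key]; omega
      · show m + 1 ∈ _
        rw [key]; omega
      · show m + 3 ∈ _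
        rw [key]; omega
      · show m + 7 ∈ _
        rw [key]; omega
    · intro I hne x hx e
      rw [key] at hx
      have h1 : ∑ i ∈ I, (![m, m + 1, m + 3, m + 7] : Fin 4 → ℕ) i =
          (if (0 : Fin 4) ∈ I then m else 0) + (if (1 : Fin 4) ∈ I then m + 1 else 0) +
            (if (2 : Fin 4) ∈ I then m + 3 else 0) + (if (3 : Fin 4) ∈ I then m + 7 else 0) := by
        have h2 : ∑ i ∈ I, (![m, m + 1, m + 3, m + 7] : Fin 4 → ℕ) i =
            ∑ i, if i ∈ I then (![m, m + 1, m + 3, m + 7] : Fin 4 → ℕ) i else 0 := by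
          rw [Finset.sum_ite_mem, Finset.univ_inter]
        rw [h2, Fin.sum_univ_four]
        rfl
      rw [h1] at e
      have h3 : (0 : Fin 4) ∈ I ∨ (1 : Fin 4) ∈ I ∨ (2 : Fin 4) ∈ I ∨ (3 : Fin 4) ∈ I := by
        obtain ⟨i, hi⟩ := hne
        fin_cases i
        · exact Or.inl hi
        · exact Or.inr (Or.inl hi)
        · exact Or.inr (Or.inr (Or.inl hi))
        · exact Or.inr (Or.inr (Or.inr hi))
      by_cases c0 : (0 : Fin 4) ∈ I <;> by_cases c1 : (1 : Fin 4) ∈ I <;>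
        by_cases c2 : (2 : Fin 4) ∈ I <;> by_cases c3 : (3 : Fin 4) ∈ I <;>
        simp only [c0, c1, c2, c3, if_true, if_false, or_false, or_self] at e h3 <;> omega

theorem big (m : ℕ) (hm : 8 ≤ m) :
    ∃ S : Set ℕ, IsNS S ∧ m ∈ S ∧ (∀ x ∈ S, 0 < x → m ≤ x) ∧ ¬ IsQ3 S := by
  rcases Nat.lt_or_ge m 12 with h12 | h12
  · have hc : m = 8 ∨ m = 9 ∨ m = 10 ∨ m = 11 := by omega
    rcases hc with rfl | rfl | rfl | rfl
    · exact Parity_tab 8 (by norm_num)
        (fun i => [0, 25, 18, 19, 12, 21, 14, 15].getD i 0) ![8, 25, 12, 14] rfl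
        (by decide) (by decide) (by decide) (by decide) (by decide)
    · exact Parity_tab 9 (by norm_num)
        (fun i => [0, 19, 20, 30, 40, 23, 33, 25, 35].getD i 0) ![9, 19, 20, 23] rfl
        (by decide) (by decide) (by decide) (by decide) (by decide)
    · exact Parity_tab 10 (by norm_num)
        (fun i => [0, 21, 12, 23, 24, 25, 16, 27, 18, 29].getD i 0) ![10, 21, 12, 16] rfl
        (by decide) (by decide) (by decide) (by decide) (by decide)
    · exact Parity_tab 11 (by norm_num)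
        (fun i => [0, 12, 24, 36, 26, 27, 28, 18, 30, 20, 21].getD i 0) ![11, 12, 18, 20] rfl
        (by decide) (by decide) (by decide) (by decide) (by decide)
  · exact Parity_large m h12

end Pool.Agent.Qmul
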