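import Pool.Agent.Qmul.Def
import Pool.Agent.Qmul.DataQ

/-!
# Three forms touching the weights, nondegenerate case (helper60)  (module)

COMPLETE PAPER PROOFS.

`star`.  →: `ht x` gives `p, q` with `m ∣ q - x`, `a i p + b i q ≤ D i W x ≤ D i x` (`h.mem`, `D i > 0`).
←: `hi p q` gives `i` with `D i W q ≤ a i p + b i q ≤ D i x`, so `W q ≤ x`, and `W q = W x` by periodicity (`q = x + m t`;
`W (q + m t) = W q` by `Int.induction_on` from `h.per`), so `x ∈ S` by `h.mem`.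

`gauge_pos`: use `data_isQ` with `α i = c i * (D i - b i)`, `β i = -(c i * a i)`, `γ i = -(c i * b i * m)`.
`∑ β = 0`, `∑ γ = 0` from `hca`, `hcb`; `β 0 γ 1 - β 1 γ 0 = c 0 c 1 m (a 0 b 1 - a 1 b 0) ≠ 0`.
`Mem α β γ x` says that there are `t, y` with `0 ≤ c i (D i x - a i t - b i (x + m y))` for all `i`: this is `star` with
`p = t`, `q = x + m y`.
-/

set_option autoImplicit false

namespace Pool.Agent.Qmul

open Pool.Agent.Qdec (IsNS IsQ)

private theorem Pos_per {m : ℕ} {W : ℤ → ℤ} (h : ∀ q, W (q + m) = W q) (q t : ℤ) :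
    W (q + m * t) = W q := by
  induction t using Int.induction_on with
  | zero => simp
  | succ t ih =>
    have e : q + (m : ℤ) * ((t : ℤ) + 1) = q + m * t + m := by ring
    rw [e, h, ih]
  | pred t ih =>
    have e : q + (m : ℤ) * (-(t : ℤ) - 1) + m = q + m * (-(t : ℤ)) := by ring
    rw [← h, e, ih]

theorem star (S : Set ℕ) (m : ℕ) (W : ℤ → ℤ) (h : Weight m S W)
    (a b D : Fin 3 → ℤ) (hD : ∀ i, 0 < D i)
    (hi : ∀ p q : ℤ, ∃ i, D i * W q ≤ a i * p + b i * q)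
    (ht : ∀ k : ℤ, ∃ p q : ℤ, (m : ℤ) ∣ q - k ∧ ∀ i, a i * p + b i * q ≤ D i * W k) (x : ℕ) :
    x ∈ S ↔ ∃ p q : ℤ, (m : ℤ) ∣ q - x ∧ ∀ i, a i * p + b i * q ≤ D i * x := by
  constructor
  · intro hx
    have h1 := (h.mem x).1 hx
    obtain ⟨p, q, h2, h3⟩ := ht x
    exact ⟨p, q, h2, fun i => (h3 i).trans (mul_le_mul_of_nonneg_left h1 (hD i).le)⟩
  · rintro ⟨p, q, ⟨t, h2⟩, h3⟩
    obtain ⟨i, h4⟩ := hi p q
    have h5 : D i * W q ≤ D i * x := h4.trans (h3 i)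
    have h6 : W q ≤ x := le_of_mul_le_mul_left h5 (hD i)
    have h7 : W q = W x := by
      have e : q = (x : ℤ) + m * t := by linarith
      rw [e]
      exact Pos_per h.per _ _
    exact (h.mem x).2 (h7 ▸ h6)

theorem gauge_pos (S : Set ℕ) (hS : IsNS S) (m : ℕ) (hm : 0 < m) (W : ℤ → ℤ) (h : Weight m S W)
    (a b D c : Fin 3 → ℤ) (hD : ∀ i, 0 < D i) (hc : ∀ i, 0 < c i) (hca : ∑ i, c i * a i = 0)
    (hcb : ∑ i, c i * b i = 0) (hne : a 0 * b 1 - a 1 * b 0 ≠ 0)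
    (hi : ∀ p q : ℤ, ∃ i, D i * W q ≤ a i * p + b i * q)
    (ht : ∀ k : ℤ, ∃ p q : ℤ, (m : ℤ) ∣ q - k ∧ ∀ i, a i * p + b i * q ≤ D i * W k) : IsQ S := by
  refine data_isQ S hS (fun i => c i * (D i - b i)) (fun i => -(c i * a i))
    (fun i => -(c i * b i * m)) ?_ ?_ ?_ ?_
  · rw [Finset.sum_neg_distrib, hca, neg_zero]
  · rw [Finset.sum_neg_distrib, ← Finset.sum_mul, hcb, zero_mul, neg_zero]
  · have hm' : (m : ℤ) ≠ 0 := by exact_mod_cast hm.ne'
    have e : -(c 0 * a 0) * -(c 1 * b 1 * m) - -(c 1 * a 1) * -(c 0 * b 0 * m) =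
        c 0 * c 1 * m * (a 0 * b 1 - a 1 * b 0) := by ring
    show -(c 0 * a 0) * -(c 1 * b 1 * m) - -(c 1 * a 1) * -(c 0 * b 0 * m) ≠ 0
    rw [e]
    exact mul_ne_zero (mul_ne_zero (mul_ne_zero (hc 0).ne' (hc 1).ne') hm') hne
  · intro x
    rw [star S m W h a b D hD hi ht x]
    constructor
    · rintro ⟨p, q, ⟨t, h2⟩, h3⟩
      refine ⟨p, t, fun i => ?_⟩
      have e : q = (x : ℤ) + m * t := by linarith
      have h4 : 0 ≤ c i * (D i * x - (a i * p + b i * q)) :=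
        mul_nonneg (hc i).le (by linarith [h3 i])
      show 0 ≤ c i * (D i - b i) * (x : ℤ) + -(c i * a i) * p + -(c i * b i * m) * t
      calc 0 ≤ c i * (D i * x - (a i * p + b i * q)) := h4
        _ = _ := by rw [e]; ring
    · rintro ⟨t, y, h3⟩
      refine ⟨t, (x : ℤ) + m * y, ⟨y, by ring⟩, fun i => ?_⟩
      have h4 : 0 ≤ c i * (D i - b i) * (x : ℤ) + -(c i * a i) * t + -(c i * b i * m) * y := h3 i
      have h5 : c i * (D i - b i) * (x : ℤ) + -(c i * a i) * t + -(c i * b i * m) * y =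
          c i * (D i * x - (a i * t + b i * (x + m * y))) := by ring
      rw [h5] at h4
      have h6 := nonneg_of_mul_nonneg_right h4 (hc i)
      linarith

end Pool.Agent.Qmul
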