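import Pool.Agent.Qmul.Viol

/-!
# There is no short vector in the class zero (helper60)  (module)

COMPLETE PAPER PROOF.  Let `r = (p₀, q₀) ≠ 0`, `7 ∣ σ q₀`, with norm `≤ 357 / 6 = 59.5` (`hcost`).  `r = ρ g` with `ρ ≥ 1` and
`g = (a, b)`, `gcd a b = 1`.  From `hcost` and `D i ≥ 0`: `Cost A B D 6 a b 357` (`6 ρ (A i a + B i b) + 357 D i ≥ 0`; if
`A i a + B i b < 0` then `6 (A i a + B i b) ≥ 6 ρ (A i a + B i b)`).
If `7 ∤ σ b` then `viol_min` with `n = 6` gives `570 < 357`, a contradiction.  So `7 ∣ σ b`.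

Let `c, d` be integers with `a d - b c = 1` (Bezout), `h = (c, d)`.  For `v = (x, y)` let `X v = a y - b x`,
`Y v = d x - c y`; then `v = X v h + Y v g`, and `σ y ≡ X v σ d (mod 7)` because `7 ∣ σ b`.
`¬ 7 ∣ σ d`: the generator `v 0` has `σ q 0 ≡ 1 (mod 7)`, and `σ q 0 ≡ X (v 0) σ d`.

Claim: for `k ∈ {0, 2, 3}`, `X (v k) = 1` or `X (v k) = -1`.  `X (v k) ≠ 0` because `σ q k ≡ k + 1 ≢ 0`.  Suppose
`N = |X (v k)| ≥ 2`, `ε = ± 1` the sign, so `X (v k) = ε N`.  Let `m` be the integer with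
`0 ≤ N m - Y (v k) < N` (`m = -((-Y) / N)`, or `Int.emod`), `z = ε h + m g`.  Then
`N z = v k + (N m - Y) g`.  Multiply by `6`: `6 N z = 6 v k + (N m - Y) 6 g`, so, adding `6` times
`Cost 1 (v k) (w7 (k+1))` and `(N m - Y)` times `Cost 6 a b 357`,
`6 N (A i z₁ + B i z₂) + (6 w7 (k+1) + (N m - Y) 357) D i ≥ 0`, i.e.
`Cost A B D (6 N) z₁ z₂ (6 w7 (k+1) + (N m - Y) 357)`.  `σ z₂ ≡ ε σ d ≢ 0 (mod 7)`, so `viol_min` with `n = 6 N` gives
`570 N < 6 w7 (k+1) + (N m - Y) 357 ≤ 774 + (N - 1) 357` (`w7 1 = 120`, `w7 3 = 129`, `w7 4 = 102`), so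
`213 N < 417`, a contradiction with `N ≥ 2` (`426 ≤ 213 N`).

So two of the three numbers `X (v 0), X (v 2), X (v 3)` are equal, but `X (v k) σ d ≡ k + 1 (mod 7)` are the
three different classes `1, 3, 4`: contradiction.
-/

set_option autoImplicit false

namespace Pool.Agent.Qmul

private theorem Short_unit {σ : ℤ} {A B D : Fin 3 → ℤ} (h : Rep S7 σ A B D) {a b c d x y w r : ℤ}
    (hdet : a * d - b * c = 1) (h6 : Cost A B D 6 a b 357) (hb : (7 : ℤ) ∣ σ * b)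
    (hd : ¬ (7 : ℤ) ∣ σ * d) (hcl : (7 : ℤ) ∣ σ * y - r) (hr : ¬ (7 : ℤ) ∣ r)
    (hc : Cost A B D 1 x y w) (hw : 6 * w ≤ 774) : a * y - b * x = 1 ∨ a * y - b * x = -1 := by
  obtain ⟨X, hX⟩ : ∃ X, a * y - b * x = X := ⟨_, rfl⟩
  obtain ⟨Y, hY⟩ : ∃ Y, d * x - c * y = Y := ⟨_, rfl⟩
  have ex : x = X * c + Y * a := by
    rw [← hX, ← hY]
    linear_combination (-x) * hdet
  have ey : y = X * d + Y * b := by
    rw [← hX, ← hY]
    linear_combination (-y) * hdet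
  rw [hX]
  by_contra hne
  push Not at hne
  have hX0 : X ≠ 0 := by
    rintro rfl
    apply hr
    have h1 : (7 : ℤ) ∣ σ * y := by
      rw [ey]
      have e : σ * (0 * d + Y * b) = Y * (σ * b) := by ring
      rw [e]
      exact Dvd.dvd.mul_left hb Y
    have h2 := dvd_sub h1 hcl
    rwa [sub_sub_cancel] at h2
  obtain ⟨ε, N, hε, hN, hXN⟩ : ∃ ε N : ℤ, (ε = 1 ∨ ε = -1) ∧ 2 ≤ N ∧ X = ε * N := by
    rcases lt_or_gt_of_ne hX0 with h1 | h1
    · exact ⟨-1, -X, Or.inr rfl, by omega, by ring⟩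
    · exact ⟨1, X, Or.inl rfl, by omega, by ring⟩
  obtain ⟨m, hm0, hm1⟩ : ∃ m : ℤ, 0 ≤ N * m - Y ∧ N * m - Y < N := by
    refine ⟨-((-Y) / N), ?_, ?_⟩
    · have h1 := Int.emod_nonneg (-Y) (show N ≠ 0 by omega)
      have h2 := Int.mul_ediv_add_emod (-Y) N
      nlinarith
    · have h1 := Int.emod_lt_of_pos (-Y) (show 0 < N by omega)
      have h2 := Int.mul_ediv_add_emod (-Y) N
      nlinarith
  have hcost : Cost A B D (6 * N) (ε * c + m * a) (ε * d + m * b) (6 * w + (N * m - Y) * 357) := by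
    intro i
    have h1 := hc i
    have h2 := mul_nonneg hm0 (h6 i)
    have e : 6 * N * (A i * (ε * c + m * a) + B i * (ε * d + m * b)) +
        D i * (6 * w + (N * m - Y) * 357) =
        6 * (1 * (A i * x + B i * y) + D i * w) +
          (N * m - Y) * (6 * (A i * a + B i * b) + D i * 357) := by
      rw [ex, ey, hXN]
      ring
    rw [e]
    linarith
  have hcl' : ¬ (7 : ℤ) ∣ σ * (ε * d + m * b) := by
    intro h1
    apply hd
    have h2 : (7 : ℤ) ∣ m * (σ * b) := Dvd.dvd.mul_left hb m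
    have h3 : (7 : ℤ) ∣ ε * (σ * d) := by
      have h4 := dvd_sub h1 h2
      have e : σ * (ε * d + m * b) - m * (σ * b) = ε * (σ * d) := by ring
      rwa [e] at h4
    rcases hε with rfl | rfl
    · rwa [one_mul] at h3
    · rw [neg_one_mul] at h3
      exact (dvd_neg.mp h3)
  have hv := viol_min h (6 * N) _ _ _ (by omega) hcost hcl'
  nlinarith

theorem short {σ : ℤ} {A B D : Fin 3 → ℤ} (h : Rep S7 σ A B D) {p q : Fin 4 → ℤ} (hg : Gens σ A B D p q)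
    (p₀ q₀ : ℤ) (h7 : (7 : ℤ) ∣ σ * q₀) (hcost : Cost A B D 6 p₀ q₀ 357) : p₀ = 0 ∧ q₀ = 0 := by
  by_contra hne
  have hg0 : 0 < Int.gcd p₀ q₀ := by
    rcases Nat.eq_zero_or_pos (Int.gcd p₀ q₀) with h1 | h1
    · exact absurd (Int.gcd_eq_zero_iff.mp h1) hne
    · exact h1
  obtain ⟨a, b, hab, ha, hb⟩ := Int.exists_gcd_one hg0
  obtain ⟨ρ, hρ⟩ : ∃ ρ : ℕ, Int.gcd p₀ q₀ = ρ := ⟨_, rfl⟩
  rw [hρ] at ha hb hg0
  have hρ1 : (1 : ℤ) ≤ ρ := by exact_mod_cast hg0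
  have h6 : Cost A B D 6 a b 357 := by
    intro i
    have h1 := hcost i
    rw [ha, hb] at h1
    have h2 := h.nn i
    rcases le_or_gt 0 (A i * a + B i * b) with h3 | h3
    · nlinarith
    · nlinarith
  have hb7 : (7 : ℤ) ∣ σ * b := by
    by_contra h1
    have := viol_min h 6 a b 357 (by norm_num) h6 h1
    omega
  obtain ⟨u, v, huv⟩ := Int.isCoprime_iff_gcd_eq_one.mpr hab
  have hdet : a * u - b * (-v) = 1 := by linarith
  have key : ∀ k : Fin 4, (7 : ℤ) ∣ (a * q k - b * p k) * (σ * u) - (((k : ℕ) + 1 : ℕ) : ℤ) := by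
    intro k
    have h1 := hg.cl k
    have h2 : (7 : ℤ) ∣ (u * p k - (-v) * q k) * (σ * b) := Dvd.dvd.mul_left hb7 _
    have h3 := dvd_sub h1 h2
    have e : σ * q k - (((k : ℕ) + 1 : ℕ) : ℤ) - (u * p k - (-v) * q k) * (σ * b) =
        (a * q k - b * p k) * (σ * u) - (((k : ℕ) + 1 : ℕ) : ℤ) := by
      linear_combination (-σ * q k) * hdet
    rwa [e] at h3
  have hu7 : ¬ (7 : ℤ) ∣ σ * u := by
    intro h1
    have h2 := key 0
    have h3 : (7 : ℤ) ∣ (a * q 0 - b * p 0) * (σ * u) := Dvd.dvd.mul_left h1 _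
    have h4 := dvd_sub h3 h2
    rw [sub_sub_cancel] at h4
    norm_num at h4
  have c0 := Short_unit h hdet h6 hb7 hu7 (hg.cl 0) (by norm_num) (hg.cost 0)
    (by norm_num [w7])
  have c2 := Short_unit h hdet h6 hb7 hu7 (hg.cl 2) (by norm_num) (hg.cost 2)
    (by norm_num [w7])
  have c3 := Short_unit h hdet h6 hb7 hu7 (hg.cl 3) (by norm_num) (hg.cost 3)
    (by norm_num [w7])
  have k0 := key 0
  have k2 := key 2
  have k3 := key 3
  generalize σ * u = t at k0 k2 k3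
  norm_num at k0 k2 k3
  rcases c0 with c0 | c0 <;> rcases c2 with c2 | c2 <;> rcases c3 with c3 | c3 <;>
    rw [c0] at k0 <;> rw [c2] at k2 <;> rw [c3] at k3 <;> omega

end Pool.Agent.Qmul
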