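import Pool.Agent.Qmul.Mods
import Pool.Agent.Qmul.Short

/-!
# The semigroup `⟨7, 102, 120, 129, 135⟩` is not a quotient (helper60)  (module)

COMPLETE PAPER PROOF.  Suppose `IsQ3 S7`.  `exists_rep` (`7 ∈ S7`, `1 ∉ S7`) and `gens` give `σ, A, B, D, p, q`; write
`v k = (p k, q k)`.  By `mod2` and `mod3`, `6` divides both coordinates of `v 2 + v 3` and of `v 0 + v 1 + v 3`.
1. `v 2 + v 3 = 6 r`.  `7 ∣ σ (q 2 + q 3) = 6 σ r₂` (`3 + 4 = 7`), so `7 ∣ σ r₂`.  The sum of `Cost 1 (v 2) 129` and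
`Cost 1 (v 3) 102` is `6 (A i r₁ + B i r₂) + 231 D i ≥ 0`, so `Cost 6 r₁ r₂ 357` (`D i ≥ 0`), and `short` gives `r = 0`:
`v 3 = - v 2`.
2. `v 0 + v 1 + v 3 = 6 r`.  `1 + 2 + 4 = 7`, `120 + 135 + 102 = 357`; `short` gives `r = 0`: `v 2 = v 0 + v 1`.
3. Put `a = - v 1`, `b = - v 0`, `c = 3 v 0 + v 1`, `d = v 0 + 2 v 1`.  Their classes are
`-2 ≡ 215`, `-1 ≡ 230`, `5 ≡ 215`, `5 ≡ 215 (mod 7)`, and `215, 230 ∉ S7`.  By `Rep.mem` for each of the four vectors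
`z` there is `i : Fin 3` with `ℓ i z + y D i < 0` (`ℓ i (x, y) = A i x + B i y`, `y = 215, 230, 215, 215`).  Two of the four
indices are equal, say to `i`.  In each of the six cases this contradicts the costs of the generators (`D i ≥ 0`):
* `a, b`: `ℓ i a + ℓ i b = ℓ i (v 3)`, `ℓ i (v 3) + 102 D i ≥ 0`, but `ℓ i a + ℓ i b + 445 D i < 0`;
* `a, c`: `ℓ i a + ℓ i c = 3 ℓ i (v 0)`, `3 ℓ i (v 0) + 360 D i ≥ 0`, but `… + 430 D i < 0`;
* `a, d`: the sum is `ℓ i (v 2)`, `129 ≤ 430`;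
* `b, c`: the sum is `2 ℓ i (v 0) + ℓ i (v 1)`, `240 + 135 ≤ 445`;
* `b, d`: the sum is `2 ℓ i (v 1)`, `270 ≤ 445`;
* `c, d`: `ℓ i c + 2 ℓ i d = 5 ℓ i (v 2)`, `5 · 129 = 645 = 215 + 2 · 215`.
(All are `linarith`/`nlinarith` after `simp only` for the values of `Cost`; the pigeonhole is `Fin 3` case analysis, or
`omega`-style on the four indices.)
-/

set_option autoImplicit false

namespace Pool.Agent.Qmul

open Pool.Hhelper28.Quot (IsQ3)

private theorem Seven_aux {x y : ℤ} (h : 7 ∣ 6 * x - 7 * y) : 7 ∣ x := by omega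

private theorem Seven_pigeon (a b c d : Fin 3) (h1 : a ≠ b) (h2 : a ≠ c) (h3 : a ≠ d) (h4 : b ≠ c)
    (h5 : b ≠ d) (h6 : c ≠ d) : False := by
  have ha := a.2
  have hb := b.2
  have hc := c.2
  have hd := d.2
  simp only [ne_eq, Fin.ext_iff] at h1 h2 h3 h4 h5 h6
  omega

private theorem Seven_notin (y : ℕ) (hy : y < w7 (y % 7)) : y ∉ S7 := by
  intro h
  have h' : w7 (y % 7) ≤ y := h
  omega

private theorem Seven_neg {σ : ℤ} {A B D : Fin 3 → ℤ} (h : Rep S7 σ A B D) (y : ℕ)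
    (hy : y < w7 (y % 7)) (p q : ℤ) (hc : (7 : ℤ) ∣ σ * q - y) :
    ∃ i, A i * p + B i * q + D i * y < 0 := by
  by_contra hcon
  push Not at hcon
  exact Seven_notin y hy ((h.mem y).2 ⟨p, q, hc, hcon⟩)

private theorem Seven_zero {σ : ℤ} {A B D : Fin 3 → ℤ} (h : Rep S7 σ A B D) {p q : Fin 4 → ℤ}
    (hg : Gens σ A B D p q) (P Q u : ℤ) (hP : 6 ∣ P) (hQ : 6 ∣ Q) (hu : σ * Q = 7 * u)
    (hc : ∀ i, 0 ≤ A i * P + B i * Q + D i * 357) : P = 0 ∧ Q = 0 := by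
  obtain ⟨r, rfl⟩ := hP
  obtain ⟨s, rfl⟩ := hQ
  have h7 : (7 : ℤ) ∣ σ * s := by
    apply Seven_aux (y := u)
    refine ⟨0, ?_⟩
    linarith
  have hcost : Cost A B D 6 r s 357 := by
    intro i
    have := hc i
    have e : 6 * (A i * r + B i * s) = A i * (6 * r) + B i * (6 * s) := by ring
    rw [e]
    exact this
  obtain ⟨h1, h2⟩ := short h hg r s h7 hcost
  rw [h1, h2]
  exact ⟨by norm_num, by norm_num⟩

theorem not_quot7 : ¬ IsQ3 S7 := by
  intro hq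
  have h1 : (1:ℕ) ∉ S7 := by
    intro h
    have := min7 1 h (by norm_num)
    omega
  obtain ⟨σ, A, B, D, h⟩ := exists_rep S7 hq mem7 h1
  obtain ⟨p, q, hg⟩ := gens h
  obtain ⟨⟨a1, a2⟩, a3, a4⟩ := mod2 h hg
  obtain ⟨⟨b1, b2⟩, b3, b4⟩ := mod3 h hg
  have hD : ∀ i, 0 ≤ D i := h.nn
  have c0 : ∀ i, 0 ≤ A i * p 0 + B i * q 0 + D i * 120 := by
    intro i; simpa [Cost, w7] using hg.cost 0 i
  have c1 : ∀ i, 0 ≤ A i * p 1 + B i * q 1 + D i * 135 := by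
    intro i; simpa [Cost, w7] using hg.cost 1 i
  have c2 : ∀ i, 0 ≤ A i * p 2 + B i * q 2 + D i * 129 := by
    intro i; simpa [Cost, w7] using hg.cost 2 i
  have c3 : ∀ i, 0 ≤ A i * p 3 + B i * q 3 + D i * 102 := by
    intro i; simpa [Cost, w7] using hg.cost 3 i
  have l0 : (7 : ℤ) ∣ σ * q 0 - 1 := by simpa using hg.cl 0
  have l1 : (7 : ℤ) ∣ σ * q 1 - 2 := by simpa using hg.cl 1
  have l2 : (7 : ℤ) ∣ σ * q 2 - 3 := by simpa using hg.cl 2
  have l3 : (7 : ℤ) ∣ σ * q 3 - 4 := by simpa using hg.cl 3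
  obtain ⟨u0, hu0⟩ := l0
  obtain ⟨u1, hu1⟩ := l1
  obtain ⟨u2, hu2⟩ := l2
  obtain ⟨u3, hu3⟩ := l3
  -- step 1
  obtain ⟨e1, e2⟩ := Seven_zero h hg (p 2 + p 3) (q 2 + q 3) (u2 + u3 + 1) (by omega) (by omega)
    (by linarith) (by
      intro i
      have := hD i
      have := c2 i
      have := c3 i
      nlinarith)
  -- step 2
  obtain ⟨f1, f2⟩ := Seven_zero h hg (p 0 + p 1 + p 3) (q 0 + q 1 + q 3) (u0 + u1 + u3 + 1)
    (by omega) (by omega) (by linarith) (by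
      intro i
      have := hD i
      have := c0 i
      have := c1 i
      have := c3 i
      nlinarith)
  -- step 3
  have g2 : p 3 = - p 2 := by linarith
  have g2' : q 3 = - q 2 := by linarith
  have g3 : p 2 = p 0 + p 1 := by linarith
  have g3' : q 2 = q 0 + q 1 := by linarith
  obtain ⟨ia, ha⟩ := Seven_neg h 215 (by decide) (- p 1) (- q 1) (by
    refine ⟨-u1 - 31, ?_⟩
    push_cast
    linarith)
  obtain ⟨ib, hb⟩ := Seven_neg h 230 (by decide) (- p 0) (- q 0) (by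
    refine ⟨-u0 - 33, ?_⟩
    push_cast
    linarith)
  obtain ⟨ic, hc⟩ := Seven_neg h 215 (by decide) (3 * p 0 + p 1) (3 * q 0 + q 1) (by
    refine ⟨3 * u0 + u1 - 30, ?_⟩
    push_cast
    linarith)
  obtain ⟨id, hd⟩ := Seven_neg h 215 (by decide) (p 0 + 2 * p 1) (q 0 + 2 * q 1) (by
    refine ⟨u0 + 2 * u1 - 30, ?_⟩
    push_cast
    linarith)
  push_cast at ha hb hc hd
  have C2 : ∀ i, 0 ≤ A i * p 0 + A i * p 1 + (B i * q 0 + B i * q 1) + D i * 129 := by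
    intro i
    have := c2 i
    rw [g3, g3'] at this
    linarith [mul_add (A i) (p 0) (p 1), mul_add (B i) (q 0) (q 1)]
  have C3 : ∀ i, 0 ≤ -(A i * p 0 + A i * p 1 + (B i * q 0 + B i * q 1)) + D i * 102 := by
    intro i
    have := c3 i
    rw [g2, g2', g3, g3'] at this
    linarith [mul_add (A i) (p 0) (p 1), mul_add (B i) (q 0) (q 1),
      mul_neg (A i) (p 0 + p 1), mul_neg (B i) (q 0 + q 1)]
  clear a1 a2 a3 a4 b1 b2 b3 b4 e1 e2 f1 f2 g2 g2' g3 g3' hu0 hu1 hu2 hu3 c2 c3 hq h1 hg h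
  refine Seven_pigeon ia ib ic id ?_ ?_ ?_ ?_ ?_ ?_
  · rintro rfl
    have := C3 ia; have := hD ia
    nlinarith
  · rintro rfl
    have := c0 ia; have := hD ia
    nlinarith
  · rintro rfl
    have := C2 ia; have := hD ia
    nlinarith
  · rintro rfl
    have := c0 ib; have := c1 ib; have := hD ib
    nlinarith
  · rintro rfl
    have := c1 ib; have := hD ib
    nlinarith
  · rintro rfl
    have := C2 ic; have := hD ic
    nlinarith

end Pool.Agent.Qmul
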