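import Pool.Agent.Qmul.Tree
import Pool.Agent.Qmul.Checks
import Pool.Agent.Qmul.Gauge
import Pool.Agent.Qmul.Apery

/-!
# Numerical semigroups of multiplicity at most six (helper60)
-/

set_option autoImplicit false

namespace Pool.Agent.Qmul

open Pool.Agent.Qdec (IsNS IsQ)

private theorem aux (S : Set ℕ) (hS : IsNS S) (m : ℕ) (hm : 2 ≤ m) (hmS : m ∈ S) (t : Tree)
    (hc : check m (kunz m) t = true) : IsQ S := by
  obtain ⟨W, hW⟩ := exists_weight S hS m (by omega) hmS
  exact gauge S hS m hm W hW (check_sound hW (by omega) t _ (kunz_nonneg hW (by omega)) hc)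

/-- every numerical semigroup that contains a positive number at most six is a quotient. -/
theorem six (S : Set ℕ) (hS : IsNS S) (m : ℕ) (h1 : 1 ≤ m) (h6 : m ≤ 6) (hmS : m ∈ S) : IsQ S := by
  have h4 : 4 ∈ S → IsQ S := fun h => aux S hS 4 (by norm_num) h tree4 check4
  have h5 : 5 ∈ S → IsQ S := fun h => aux S hS 5 (by norm_num) h tree5 check5
  have h6' : 6 ∈ S → IsQ S := fun h => aux S hS 6 (by norm_num) h tree6 check6
  interval_cases m
  · exact h4 (hS.2.1 _ (hS.2.1 _ hmS _ hmS) _ (hS.2.1 _ hmS _ hmS))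
  · exact h4 (hS.2.1 _ hmS _ hmS)
  · exact h6' (hS.2.1 _ hmS _ hmS)
  · exact h4 hmS
  · exact h5 hmS
  · exact h6' hmS

end Pool.Agent.Qmul
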