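import Pool.Agent.Hhelper28.Quot.Class
import Pool.Agent.Qdec.Def

/-!
# Quotients that contain seven (helper60)  (module)

COMPLETE PAPER PROOF.  `data_of_quotient h` gives `α, β, γ` with `x ∈ S ↔ Mem α β γ x`; let `t₀, m₀` be integers with
`D i = 7 α i + β i t₀ + γ i m₀ ≥ 0` for all `i` (`7 ∈ S`).  It is impossible that `7 ∣ t₀` and `7 ∣ m₀`: otherwise
`α i + β i (t₀/7) + γ i (m₀/7) = D i / 7 ≥ 0` and `1 ∈ S`.  Identity: for all `x, t, n`
(*) `7 (α i x + β i t + γ i n) = D i x + β i (7 t - x t₀) + γ i (7 n - x m₀)`.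

Case `7 ∤ m₀`: there are integers `μ, ν` with `μ m₀ = 1 + 7 ν` (`7` is prime).  Put `κ = μ t₀`, `σ = - μ`, `A i = 7 β i`,
`B i = κ β i + γ i`.
→: from `t, n` of `Mem α β γ x` put `q = 7 n - x m₀`; `x t₀ + κ q = x t₀ + μ t₀ (7 n - x m₀) = 7 (μ t₀ n - ν t₀ x)`, so with
`p = t - μ t₀ n + ν t₀ x` we have `7 p + κ q = 7 t - x t₀`.  `σ q - x = - 7 μ n + μ m₀ x - x = 7 (- μ n + ν x)`, and
`A i p + B i q + D i x = β i (7 p + κ q) + γ i q + D i x = 7 (α i x + β i t + γ i n) ≥ 0` by (*).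
←: given `p, q` with `σ q - x = 7 c`, that is `x = - μ q - 7 c`, put `n = (q + x m₀)/7`: `q + x m₀ = q - μ m₀ q - 7 c m₀ =
7 (- ν q - c m₀)`, and `t = (7 p + κ q + x t₀)/7`: `κ q + x t₀ = μ t₀ q - μ q t₀ - 7 c t₀ = - 7 c t₀`, so `t = p - c t₀`,
`n = - ν q - c m₀`.  Then `7 t - x t₀ = 7 p + κ q` and `7 n - x m₀ = q`, so (*) gives `Mem α β γ x`.

Case `7 ∣ m₀`, `7 ∤ t₀`: exchange the roles of `(β, t)` and `(γ, n)` (a private lemma for the first case, with the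
hypothesis on `Mem` written out, can be used twice).
-/

set_option autoImplicit false

namespace Pool.Agent.Qmul

open Pool.Hhelper28.Quot (Mem IsQ3 data_of_quotient)

/-- `S` is given by three forms on `ℤ² × ℤ`, where the class of `(p, q)` modulo seven is `σ q`. -/
structure Rep (S : Set ℕ) (σ : ℤ) (A B D : Fin 3 → ℤ) : Prop where
  nn : ∀ i, 0 ≤ D i
  mem : ∀ x : ℕ, x ∈ S ↔ ∃ p q : ℤ, (7 : ℤ) ∣ σ * q - x ∧ ∀ i, 0 ≤ A i * p + B i * q + D i * x

private theorem Struct_case (S : Set ℕ) (α β γ : Fin 3 → ℤ)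
    (hS : ∀ x : ℕ, x ∈ S ↔ ∃ t n : ℤ, ∀ i, 0 ≤ α i * x + β i * t + γ i * n) (t₀ m₀ : ℤ)
    (hD : ∀ i, 0 ≤ 7 * α i + β i * t₀ + γ i * m₀) (h7 : ¬ (7 : ℤ) ∣ m₀) :
    ∃ (σ : ℤ) (A B D : Fin 3 → ℤ), Rep S σ A B D := by
  have hp : Prime (7 : ℤ) := Int.prime_iff_natAbs_prime.2 (by norm_num)
  obtain ⟨a, μ, hμ⟩ := hp.irreducible.coprime_iff_not_dvd.2 h7
  refine ⟨-μ, fun i => 7 * β i, fun i => μ * t₀ * β i + γ i,
    fun i => 7 * α i + β i * t₀ + γ i * m₀, hD, fun x => ?_⟩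
  rw [hS]
  constructor
  · rintro ⟨t, n, h⟩
    refine ⟨t - μ * t₀ * n - a * t₀ * x, 7 * n - x * m₀, ⟨-(μ * n) - a * x, ?_⟩, fun i => ?_⟩
    · linear_combination (x : ℤ) * hμ
    · have h1 : 7 * β i * (t - μ * t₀ * n - a * t₀ * x) + (μ * t₀ * β i + γ i) * (7 * n - x * m₀) +
          (7 * α i + β i * t₀ + γ i * m₀) * x = 7 * (α i * x + β i * t + γ i * n) := by
        linear_combination (-(β i * t₀ * x)) * hμ
      rw [h1]
      have := h i
      positivity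
  · rintro ⟨p, q, ⟨c, hc⟩, h⟩
    refine ⟨p - c * t₀, a * q - c * m₀, fun i => ?_⟩
    have h1 : 7 * (α i * x + β i * (p - c * t₀) + γ i * (a * q - c * m₀)) =
        7 * β i * p + (μ * t₀ * β i + γ i) * q + (7 * α i + β i * t₀ + γ i * m₀) * x := by
      linear_combination (β i * t₀ + γ i * m₀) * hc + γ i * q * hμ
    have h2 : 0 ≤ 7 * β i * p + (μ * t₀ * β i + γ i) * q +
        (7 * α i + β i * t₀ + γ i * m₀) * x := h i
    linarith

theorem exists_rep (S : Set ℕ) (h : IsQ3 S) (h7 : 7 ∈ S) (h1 : 1 ∉ S) :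
    ∃ (σ : ℤ) (A B D : Fin 3 → ℤ), Rep S σ A B D := by
  obtain ⟨α, β, γ, -, -, -, -, hS⟩ := data_of_quotient h
  obtain ⟨t₀, m₀, hD'⟩ := (hS 7).1 h7
  have hD : ∀ i, 0 ≤ 7 * α i + β i * t₀ + γ i * m₀ := by
    intro i
    have := hD' i
    push_cast at this
    linarith
  by_cases hm : (7 : ℤ) ∣ m₀
  · by_cases ht : (7 : ℤ) ∣ t₀
    · exfalso
      apply h1
      rw [hS]
      obtain ⟨m, rfl⟩ := hm
      obtain ⟨t, rfl⟩ := ht
      refine ⟨t, m, fun i => ?_⟩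
      have := hD i
      push_cast
      linarith
    · refine Struct_case S α γ β (fun x => ?_) m₀ t₀ (fun i => ?_) ht
      · rw [hS]
        constructor
        · rintro ⟨t, n, h⟩
          exact ⟨n, t, fun i => by have := h i; linarith⟩
        · rintro ⟨t, n, h⟩
          exact ⟨n, t, fun i => by have := h i; linarith⟩
      · have := hD i
        linarith
  · exact Struct_case S α β γ hS t₀ m₀ hD hm

end Pool.Agent.Qmul
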