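import Pool.Agent.Qmul.Lin
import Pool.Agent.Qmul.Fan
import Pool.Agent.Qmul.Cone

/-!
# Soundness of the decision trees (helper60)  (module)

COMPLETE PAPER PROOF.  Induction on the tree, generalising `H`.

Leaf: `check m H (.leaf f touch fan h) = true` gives `fanOK … = true` and `chkAll H (leafI m f touch fan) h = true`;
`chkAll_sound`: all `L ∈ leafI m f touch fan` have `0 ≤ ev W L 1`.  Put `a i = ev W (sel f i).fx 1`,
`b i = ev W (sel f i).fy 1`, `D i = (sel f i).D` for `i : Fin 3` (`sel f (i : ℕ)`); `0 < D i` by `fanOK`.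
* covering: for `p, q` take `j, a', b'` from `cover` (hypotheses from `fanOK`), the inequalities of the cone
  `(ray fan j, ray fan (j+1))` are in `leafI` (`List.mem_append`, `List.mem_flatMap`, `List.mem_range`), apply
  `cone_good`; the index `i : ℕ` it gives can be replaced by `⟨min i 2, _⟩ : Fin 3`, because `sel f i = sel f (min i 2)`.
* touching: let `k` be an integer, `r = k % m`.  If `r = 0` take `(p, q) = (0, 0)`: `m ∣ 0 - k`, and `W k = 0` (`weight_mul`,
  `h.zero`).  If `r ≥ 1`, then `r - 1 < m - 1` and `fanOK` gives `v ∈ touch` with `(v.2 - r) % m = 0`.  Take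
  `(p, q) = v`; `m ∣ v.2 - k`, so `W v.2 = W k` (`weight_mul`), and `smul (-1) (cov m (sel f i) v.1 v.2) ∈ leafI` for
  `i < 3` gives `a i * v.1 + b i * v.2 ≤ D i * W v.2` (`ev_smul`, `ev_cov`).

Branch: `0 ≤ ev W L 1` or `0 ≤ ev W (smul (-1) L) 1` (`ev_smul`), apply the induction hypothesis to `H ++ [L]` or
`H ++ [smul (-1) L]`.
-/

set_option autoImplicit false

namespace Pool.Agent.Qmul

private theorem sel_min (f : RF × RF × RF) (i : ℕ) : sel f i = sel f (min i 2) := by
  rcases Nat.lt_or_ge i 2 with h | h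
  · rw [min_eq_left h.le]
  · rw [min_eq_right h]
    unfold sel
    rw [if_neg (by omega), if_neg (by omega), if_neg (by omega), if_neg (by omega)]

private theorem leaf_sound {m : ℕ} {S : Set ℕ} {W : ℤ → ℤ} (h : Weight m S W) (hm : 0 < m)
    (f : RF × RF × RF) (touch : List (ℤ × ℤ)) (fan : List Ray) (hf : fanOK m f touch fan = true)
    (hL : ∀ L ∈ leafI m f touch fan, 0 ≤ ev W L 1) : Realized m W := by
  unfold fanOK at hf
  simp only [Bool.and_eq_true, decide_eq_true_eq, List.all_eq_true, List.any_eq_true,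
    List.mem_range] at hf
  obtain ⟨⟨⟨⟨⟨⟨hD0, hD1⟩, hD2⟩, hlen⟩, hdt⟩, hany⟩, htouch⟩ := hf
  have hcone : ∀ j < fan.length, ∀ L ∈ coneI m f (ray fan j) (ray fan (j + 1)), 0 ≤ ev W L 1 := by
    intro j hj L hLj
    refine hL L ?_
    unfold leafI
    exact List.mem_append.2 (Or.inl (List.mem_flatMap.2 ⟨j, List.mem_range.2 hj, hLj⟩))
  have ht : ∀ v ∈ touch, ∀ i < 3, 0 ≤ ev W (smul (-1) (cov m (sel f i) v.1 v.2)) 1 := by
    intro v hv i hi
    refine hL _ ?_
    unfold leafI touchI
    exact List.mem_append.2 (Or.inr (List.mem_flatMap.2 ⟨v, hv,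
      List.mem_map.2 ⟨i, List.mem_range.2 hi, rfl⟩⟩))
  refine ⟨fun i => ev W (sel f (i : ℕ)).fx 1, fun i => ev W (sel f (i : ℕ)).fy 1,
    fun i => ((sel f (i : ℕ)).D : ℤ), ?_, ?_, ?_⟩
  · intro i
    have h1 : 0 < (sel f (i : ℕ)).D := by
      unfold sel
      split_ifs
      · exact hD0
      · exact hD1
      · exact hD2
    exact Int.natCast_pos.2 h1
  · intro p q
    obtain ⟨j, hj, a, b, hp, hq⟩ := cover fan hlen hdt hany p q
    obtain ⟨i, hi⟩ := cone_good h hm f (ray fan j) (ray fan (j + 1)) (hcone j hj) a b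
    rw [← hp, ← hq, sel_min] at hi
    refine ⟨⟨min i 2, by omega⟩, ?_⟩
    exact hi
  · intro k
    have hmz : (0 : ℤ) < m := by exact_mod_cast hm
    have hr0 : 0 ≤ k % (m : ℤ) := Int.emod_nonneg _ hmz.ne'
    have hr1 : k % (m : ℤ) < m := Int.emod_lt_of_pos _ hmz
    have hk : k % (m : ℤ) + m * (k / m) = k := Int.emod_add_mul_ediv k m
    rcases hr0.eq_or_lt with h0 | h0
    · refine ⟨0, 0, ?_, ?_⟩
      · rw [zero_sub, dvd_neg]
        exact Int.dvd_of_emod_eq_zero h0.symm
      · intro i
        have hW : W k = 0 := by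
          rw [← hk, weight_mul h, ← h0, h.zero]
        rw [hW]
        simp
    · obtain ⟨v, hv, hvm⟩ := htouch (k % (m : ℤ) - 1).toNat (by omega)
      have h1 : (((k % (m : ℤ) - 1).toNat : ℕ) : ℤ) = k % (m : ℤ) - 1 :=
        Int.toNat_of_nonneg (by omega)
      rw [h1, sub_add_cancel] at hvm
      have hd : (m : ℤ) ∣ v.2 - k := by
        have h2 := Int.dvd_of_emod_eq_zero hvm
        have h3 : v.2 - k = (v.2 - k % (m : ℤ)) - m * (k / m) := by
          linear_combination hk
        rw [h3]
        exact dvd_sub h2 (dvd_mul_right _ _)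
      refine ⟨v.1, v.2, hd, ?_⟩
      intro i
      have h4 := ht v hv (i : ℕ) i.2
      rw [ev_smul, ev_cov h hm] at h4
      have hW : W v.2 = W k := by
        obtain ⟨c, hc⟩ := hd
        have : v.2 = k + m * c := by linear_combination hc
        rw [this, weight_mul h]
      rw [hW] at h4
      linarith

theorem check_sound {m : ℕ} {S : Set ℕ} {W : ℤ → ℤ} (h : Weight m S W) (hm : 0 < m) (t : Tree) :
    ∀ H : List (List ℤ), (∀ l ∈ H, 0 ≤ ev W l 1) → check m H t = true → Realized m W := by
  induction t with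
  | leaf f touch fan hints =>
    intro H hH hc
    unfold check at hc
    rw [Bool.and_eq_true] at hc
    exact leaf_sound h hm f touch fan hc.1 (chkAll_sound W H hH _ _ hc.2)
  | branch L pos neg ihp ihn =>
    intro H hH hc
    unfold check at hc
    rw [Bool.and_eq_true] at hc
    rcases le_total 0 (ev W L 1) with h1 | h1
    · refine ihp (H ++ [L]) ?_ hc.1
      intro l hl
      rcases List.mem_append.1 hl with h2 | h2
      · exact hH l h2
      · rw [List.mem_singleton.1 h2]
        exact h1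
    · refine ihn (H ++ [smul (-1) L]) ?_ hc.2
      intro l hl
      rcases List.mem_append.1 hl with h2 | h2
      · exact hH l h2
      · rw [List.mem_singleton.1 h2, ev_smul]
        linarith

end Pool.Agent.Qmul
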