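import Pool.Agent.Qmul.Struct

/-!
# The semigroup `⟨7, 102, 120, 129, 135⟩` and its representations (helper60)  (module)

`S7 = {x | w7 (x % 7) ≤ x}`.  COMPLETE PAPER PROOFS.

`ns7`, `mem7`, `min7`: closed under addition because `w7 ((i + j) % 7) ≤ w7 i + w7 j` for `i, j < 7` (`decide` or
`interval_cases`), and all `x ≥ 237` are in `S7`; `7 ∈ S7` as `w7 0 = 0`, and `w7 k ≥ 102` for `k = 1, …, 6`.

`viol`: if `x ≤ n * y` then `n (A i p + B i q + D i y) = n (A i p + B i q) + D i (n y) ≥ n (A i p + B i q) + D i x ≥ 0` for all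
`i` (`D i ≥ 0`), so `A i p + B i q + D i y ≥ 0` (`n > 0`) and `y ∈ S7` by `Rep.mem`, a contradiction.

`viol_min`: let `k = (σ q) % 7 ∈ {1, …, 6}`, `y = w7 k - 7`.  `y % 7 = k`, `y ∉ S7`, `95 ≤ y`, `7 ∣ σ q - y`; apply `viol`:
`n 95 ≤ n y < x`.

`gens`: `w7 (k+1) ∈ S7` (`w7 k % 7 = k`), `Rep.mem` gives `p k, q k` with `7 ∣ σ q k - w7 (k+1)`, and
`w7 (k+1) ≡ k + 1 (mod 7)`.

`comb7`: suppose `n ∣ ∑ e k p k` and `n ∣ ∑ e k q k`, so `∑ e k p k = n P`, `∑ e k q k = n Q`.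
`n σ Q = ∑ e k σ q k ≡ ∑ e k (k+1) ≡ n y (mod 7)`, and `n` is invertible modulo seven, so `7 ∣ σ Q - y`.  The sum over `k` of
`e k` times `Cost … 1 (p k) (q k) (w7 (k+1))` is `Cost … n P Q (∑ e k w7 (k+1))`; by `viol`
`n y < ∑ e k w7 (k+1)`, a contradiction with `hle`.
-/

set_option autoImplicit false

namespace Pool.Agent.Qmul

open Pool.Agent.Qdec (IsNS)

/-- the least elements of the classes modulo seven. -/
def w7 (k : ℕ) : ℕ :=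
  if k = 0 then 0 else if k = 1 then 120 else if k = 2 then 135 else if k = 3 then 129
  else if k = 4 then 102 else if k = 5 then 222 else 237

/-- the numerical semigroup generated by `7, 102, 120, 129, 135`. -/
def S7 : Set ℕ := {x | w7 (x % 7) ≤ x}

theorem ns7 : IsNS S7 := by
  have h1 : ∀ i < 7, ∀ j < 7, w7 ((i + j) % 7) ≤ w7 i + w7 j := by decide
  have h2 : ∀ k, w7 k ≤ 237 := by
    intro k
    unfold w7
    split_ifs <;> omega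
  refine ⟨?_, ?_, ?_⟩
  · show w7 (0 % 7) ≤ 0
    simp [w7]
  · intro x hx y hy
    have hx' : w7 (x % 7) ≤ x := hx
    have hy' : w7 (y % 7) ≤ y := hy
    show w7 ((x + y) % 7) ≤ x + y
    have h3 := h1 (x % 7) (Nat.mod_lt _ (by norm_num)) (y % 7) (Nat.mod_lt _ (by norm_num))
    rw [← Nat.add_mod] at h3
    omega
  · refine (Set.finite_lt_nat 237).subset fun x hx => ?_
    have hx' : ¬ w7 (x % 7) ≤ x := hx
    have := h2 (x % 7)
    show x < 237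
    omega

theorem mem7 : 7 ∈ S7 := by
  show w7 (7 % 7) ≤ 7
  simp [w7]

theorem min7 (x : ℕ) (hx : x ∈ S7) (h0 : 0 < x) : 7 ≤ x := by
  by_contra hc
  push Not at hc
  have hx' : w7 (x % 7) ≤ x := hx
  rw [Nat.mod_eq_of_lt hc] at hx'
  interval_cases x <;> simp [w7] at hx'

/-- the vector `(p, q)` has norm at most `x / n`. -/
def Cost (A B D : Fin 3 → ℤ) (n p q x : ℤ) : Prop := ∀ i, 0 ≤ n * (A i * p + B i * q) + D i * x

theorem viol {σ : ℤ} {A B D : Fin 3 → ℤ} (h : Rep S7 σ A B D) (n p q x : ℤ) (hn : 0 < n)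
    (hc : Cost A B D n p q x) (y : ℕ) (hy : y ∉ S7) (hcl : (7 : ℤ) ∣ σ * q - y) : n * y < x := by
  by_contra hcon
  push Not at hcon
  apply hy
  rw [h.mem]
  refine ⟨p, q, hcl, fun i => ?_⟩
  have h1 := hc i
  have h2 := h.nn i
  have h3 : D i * x ≤ D i * (n * y) := mul_le_mul_of_nonneg_left hcon h2
  have h4 : 0 ≤ n * (A i * p + B i * q + D i * y) := by
    have : n * (A i * p + B i * q + D i * y) = n * (A i * p + B i * q) + D i * (n * y) := by ring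
    rw [this]
    linarith
  exact nonneg_of_mul_nonneg_right h4 hn

theorem viol_min {σ : ℤ} {A B D : Fin 3 → ℤ} (h : Rep S7 σ A B D) (n p q x : ℤ) (hn : 0 < n)
    (hc : Cost A B D n p q x) (hcl : ¬ (7 : ℤ) ∣ σ * q) : n * 95 < x := by
  obtain ⟨k, hk⟩ : ∃ k : ℕ, (k : ℤ) = (σ * q) % 7 :=
    ⟨((σ * q) % 7).toNat, Int.toNat_of_nonneg (Int.emod_nonneg _ (by norm_num))⟩
  have hk7 : (k : ℤ) < 7 := by
    rw [hk]
    exact Int.emod_lt_of_pos _ (by norm_num)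
  have hk0 : k ≠ 0 := by
    intro h0
    rw [h0, Nat.cast_zero] at hk
    exact hcl (Int.dvd_of_emod_eq_zero hk.symm)
  have hk7' : k < 7 := by exact_mod_cast hk7
  have h1 : 95 ≤ w7 k - 7 ∧ (w7 k - 7) % 7 = k ∧ ¬ w7 ((w7 k - 7) % 7) ≤ w7 k - 7 := by
    interval_cases k <;> first | exact absurd rfl hk0 | decide
  have h2 := viol h n p q x hn hc (w7 k - 7) h1.2.2 (by
    have h3 : ((w7 k - 7 : ℕ) : ℤ) % 7 = k := by exact_mod_cast h1.2.1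
    omega)
  have h4 : (95 : ℤ) ≤ ((w7 k - 7 : ℕ) : ℤ) := by exact_mod_cast h1.1
  have h5 : n * 95 ≤ n * ((w7 k - 7 : ℕ) : ℤ) := mul_le_mul_of_nonneg_left h4 hn.le
  linarith

/-- the vectors of the four generators. -/
structure Gens (σ : ℤ) (A B D : Fin 3 → ℤ) (p q : Fin 4 → ℤ) : Prop where
  cl : ∀ k : Fin 4, (7 : ℤ) ∣ σ * q k - ((k : ℕ) + 1 : ℕ)
  cost : ∀ k : Fin 4, Cost A B D 1 (p k) (q k) (w7 ((k : ℕ) + 1))

theorem gens {σ : ℤ} {A B D : Fin 3 → ℤ} (h : Rep S7 σ A B D) : ∃ p q : Fin 4 → ℤ, Gens σ A B D p q := by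
  have h1 : ∀ k : Fin 4, w7 ((k : ℕ) + 1) ∈ S7 ∧ w7 ((k : ℕ) + 1) % 7 = (k : ℕ) + 1 := by
    intro k
    show w7 (w7 ((k : ℕ) + 1) % 7) ≤ w7 ((k : ℕ) + 1) ∧ w7 ((k : ℕ) + 1) % 7 = (k : ℕ) + 1
    revert k
    decide
  have h2 : ∀ k : Fin 4, ∃ p q : ℤ, (7 : ℤ) ∣ σ * q - ((w7 ((k : ℕ) + 1) : ℕ) : ℤ) ∧
      ∀ i, 0 ≤ A i * p + B i * q + D i * ((w7 ((k : ℕ) + 1) : ℕ) : ℤ) :=
    fun k => (h.mem _).1 (h1 k).1
  choose p q h3 h4 using h2
  refine ⟨p, q, fun k => ?_, fun k i => ?_⟩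
  · have h5 := h3 k
    have h6 : ((w7 ((k : ℕ) + 1) : ℕ) : ℤ) % 7 = (((k : ℕ) + 1 : ℕ) : ℤ) := by
      exact_mod_cast (h1 k).2
    omega
  · rw [one_mul]
    exact h4 k i

theorem comb7 {σ : ℤ} {A B D : Fin 3 → ℤ} (h : Rep S7 σ A B D) {p q : Fin 4 → ℤ} (hg : Gens σ A B D p q)
    (n : ℕ) (hn : 0 < n) (hn7 : Nat.Coprime n 7) (e : Fin 4 → ℕ) (y : ℕ) (hy : y ∉ S7)
    (hcl : (n * y) % 7 = (∑ k, e k * ((k : ℕ) + 1)) % 7) (hle : ∑ k, e k * w7 ((k : ℕ) + 1) ≤ n * y) :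
    ¬ ((n : ℤ) ∣ ∑ k, (e k : ℤ) * p k ∧ (n : ℤ) ∣ ∑ k, (e k : ℤ) * q k) := by
  rintro ⟨⟨P, hP⟩, ⟨Q, hQ⟩⟩
  have h1 : (n : ℤ) * (σ * Q - y) = (∑ k, (e k : ℤ) * (σ * q k - (((k : ℕ) + 1 : ℕ) : ℤ))) +
      ((∑ k : Fin 4, ((e k : ℤ) * (((k : ℕ) + 1 : ℕ) : ℤ))) - (n : ℤ) * y) := by
    have : (n : ℤ) * (σ * Q) = ∑ k, (e k : ℤ) * (σ * q k) := by
      have e1 : (n : ℤ) * (σ * Q) = σ * (n * Q) := by ring
      rw [e1, ← hQ, Finset.mul_sum]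
      exact Finset.sum_congr rfl fun k _ => by ring
    rw [mul_sub, this]
    have e2 : (∑ k, (e k : ℤ) * (σ * q k - (((k : ℕ) + 1 : ℕ) : ℤ))) =
        (∑ k, (e k : ℤ) * (σ * q k)) - ∑ k : Fin 4, ((e k : ℤ) * (((k : ℕ) + 1 : ℕ) : ℤ)) := by
      rw [← Finset.sum_sub_distrib]
      exact Finset.sum_congr rfl fun k _ => by ring
    rw [e2]
    ring
  have h2 : (7 : ℤ) ∣ (n : ℤ) * (σ * Q - y) := by
    rw [h1]
    refine dvd_add (Finset.dvd_sum fun k _ => Dvd.dvd.mul_left (hg.cl k) _) ?_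
    have h3 : ((∑ k : Fin 4, e k * ((k : ℕ) + 1) : ℕ) : ℤ) % 7 = ((n * y : ℕ) : ℤ) % 7 := by
      exact_mod_cast hcl.symm
    have h4 : (∑ k : Fin 4, ((e k : ℤ) * (((k : ℕ) + 1 : ℕ) : ℤ))) =
        ((∑ k : Fin 4, e k * ((k : ℕ) + 1) : ℕ) : ℤ) := by
      push_cast
      rfl
    rw [h4]
    have h5 : (n : ℤ) * y = ((n * y : ℕ) : ℤ) := by push_cast; rfl
    rw [h5]
    omega
  have h6 : (7 : ℤ) ∣ σ * Q - y := by
    refine IsCoprime.dvd_of_dvd_mul_left ?_ h2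
    have := Nat.isCoprime_iff_coprime.2 hn7
    exact this.symm
  have h7 : Cost A B D n P Q ((∑ k, e k * w7 ((k : ℕ) + 1) : ℕ) : ℤ) := by
    intro i
    have h8 : (n : ℤ) * (A i * P + B i * Q) + D i * ((∑ k, e k * w7 ((k : ℕ) + 1) : ℕ) : ℤ) =
        ∑ k, (e k : ℤ) * (1 * (A i * p k + B i * q k) + D i * (w7 ((k : ℕ) + 1) : ℕ)) := by
      have e1 : (n : ℤ) * (A i * P + B i * Q) = A i * (n * P) + B i * (n * Q) := by ring
      rw [e1, ← hP, ← hQ]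
      push_cast
      rw [Finset.mul_sum, Finset.mul_sum, Finset.mul_sum, ← Finset.sum_add_distrib,
        ← Finset.sum_add_distrib]
      exact Finset.sum_congr rfl fun k _ => by ring
    rw [h8]
    exact Finset.sum_nonneg fun k _ => mul_nonneg (Int.natCast_nonneg _) (hg.cost k i)
  have h9 := viol h n P Q _ (by exact_mod_cast hn) h7 y hy h6
  have h10 : n * y < ∑ k, e k * w7 ((k : ℕ) + 1) := by exact_mod_cast h9
  omega

end Pool.Agent.Qmul
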